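import Mathlib

/-!
# EXK2 / Solve: solution of the equations near infinity, with growth of the exponent

PROOF.  As `solve2` (EXK/KSolve.lean), with `T = s^{-e}` and `A(y, s, t) = s^{μ} A0(y, s, t)` in place of
`T A0`, for one sufficiently small real `s > 0` of the set in `hgrow`. Let `A00 = A0(α, 0, 0) ≠ 0`,
`r = A(α, s, 0)`, so `Re r ≤ -s^{-δ} (1 + ‖r‖ s^e)`, `‖r‖ ≥ (|A00| / 2) s^μ`. On the ball of radius
`R = C log(1/s) s^e` around `(α, 0)` (all first components of `Φ` lie in it)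
`‖A(y, s, t) - r‖ ≤ K s^μ R ≤ K' log(1/s) ‖r‖ s^e`, which is `≤ s^{-δ} ‖r‖ s^e` for `s`
small; so `Re A ≤ -s^{-δ}` and `‖exp ((A - ν0 log s - c - G) / g)‖ ≤ exp (-s^{-δ} / (2 g))`, smaller than all
powers of `s`: the map is a contraction of the ball.
-/

set_option autoImplicit false

namespace Pool.Agent.EXK2

open Topology

/-- the local data -/
private theorem loc {X : Type*} [NormedAddCommGroup X] [NormedSpace ℂ X] (a : X) (V : X → ℂ)
    (hV : ContDiffAt ℂ 1 V a) (hV0 : V a ≠ 0) :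
    ∃ (c : ℂ) (G : X → ℂ) (K : NNReal) (t : Set X),
      t ∈ 𝓝 a ∧ LipschitzOnWith K G t ∧ ∀ p ∈ t, ‖G p‖ ≤ 1 ∧
        V p = Complex.exp (c + G p) := by
  set G : X → ℂ := fun p => Complex.log (V p / V a) with hG
  have h1 : V a / V a = 1 := div_self hV0
  have hGc : ContDiffAt ℂ 1 G a := by
    have h2 : ContDiffAt ℂ 1 Complex.log (V a / V a) := by
      refine Complex.contDiffAt_log ?_
      rw [h1]
      exact Complex.one_mem_slitPlane
    exact h2.comp a (hV.div_const _)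
  obtain ⟨K, t, ht, hK⟩ := hGc.exists_lipschitzOnWith
  have hG0 : G a = 0 := by
    rw [hG]
    dsimp only
    rw [h1, Complex.log_one]
  have e1 : ∀ᶠ p in 𝓝 a, ‖G p‖ < 1 := by
    have h3 : Filter.Tendsto (fun p => ‖G p‖) (𝓝 a) (𝓝 ‖G a‖) :=
      hGc.continuousAt.norm
    rw [hG0, norm_zero] at h3
    exact h3.eventually (gt_mem_nhds zero_lt_one)
  have e2 : ∀ᶠ p in 𝓝 a, V p ≠ 0 := hV.continuousAt.eventually_ne hV0
  refine ⟨Complex.log (V a), G, K, t ∩ {p | ‖G p‖ < 1 ∧ V p ≠ 0},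
    Filter.inter_mem ht (e1.and e2), hK.mono Set.inter_subset_left, ?_⟩
  rintro p ⟨_, hp1, hp2⟩
  refine ⟨hp1.le, ?_⟩
  rw [Complex.exp_add, Complex.exp_log hV0, hG]
  dsimp only
  rw [Complex.exp_log (div_ne_zero hp2 hV0)]
  field_simp

/-- `exp` on a half plane -/
private theorem exp_lip (b : ℝ) (x y : ℂ) (hx : x.re ≤ b) (hy : y.re ≤ b) :
    ‖Complex.exp x - Complex.exp y‖ ≤ Real.exp b * ‖x - y‖ := by
  have hconv : Convex ℝ {z : ℂ | z.re ≤ b} := convex_halfSpace_re_le b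
  have h := Convex.norm_image_sub_le_of_norm_deriv_le (𝕜 := ℂ) (f := Complex.exp)
    (s := {z : ℂ | z.re ≤ b}) (C := Real.exp b) (x := y) (y := x)
    (fun z _ => Complex.differentiable_exp.differentiableAt)
    (fun z hz => by
      rw [Complex.deriv_exp, Complex.norm_exp]
      exact Real.exp_le_exp.2 hz) hconv hy hx
  exact h

/-- the logarithm is small against every positive power -/
private theorem log_small (A B ε δ : ℝ) (hε : 0 < ε) (hδ : 0 < δ) :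
    ∀ᶠ x : ℝ in Filter.atTop, A * Real.log x + B ≤ ε * x ^ δ := by
  have h0 : (fun _ : ℝ => B) =o[Filter.atTop] (fun x : ℝ => x ^ δ) :=
    Asymptotics.isLittleO_const_left.2
      (Or.inr (tendsto_norm_atTop_atTop.comp (tendsto_rpow_atTop hδ)))
  have h1 : (fun x : ℝ => A * Real.log x + B) =o[Filter.atTop] (fun x : ℝ => x ^ δ) :=
    ((isLittleO_log_rpow_atTop hδ).const_mul_left A).add h0
  filter_upwards [h1.def hε, Filter.eventually_ge_atTop 0] with x hx hx0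
  rw [Real.norm_eq_abs, Real.norm_eq_abs, abs_of_nonneg (Real.rpow_nonneg hx0 _)] at hx
  exact (le_abs_self _).trans hx

/-- the exponential is small against every power -/
private theorem exp_small (κ δ η : ℝ) (hκ : 0 < κ) (hδ : 0 < δ) (hη : 0 < η) (n : ℕ) :
    ∀ᶠ x : ℝ in Filter.atTop, Real.exp (-(κ * x ^ δ)) * x ^ n ≤ η := by
  have h := (tendsto_rpow_mul_exp_neg_mul_atTop_nhds_zero (n / δ) κ hκ).comp
    (tendsto_rpow_atTop hδ)
  have h1 := h.eventually (gt_mem_nhds hη)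
  filter_upwards [h1, Filter.eventually_gt_atTop 0] with x hx hx0
  have h2 : (x ^ δ) ^ ((n : ℝ) / δ) = x ^ n := by
    rw [← Real.rpow_mul hx0.le, mul_div_cancel₀ _ hδ.ne', Real.rpow_natCast]
  have h3 : (x ^ δ) ^ ((n : ℝ) / δ) * Real.exp (-κ * x ^ δ) < η := hx
  rw [h2, neg_mul, mul_comm] at h3
  exact h3.le

/-- the lattice points -/
private theorem lat (T : ℝ) (a : ℂ) (ha : a.re = 0) :
    ∃ l : ℤ, ‖(T : ℂ) * a - 2 * Real.pi * Complex.I * l‖ ≤ Real.pi := by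
  have hpi := Real.pi_pos
  obtain ⟨v, hv⟩ : ∃ v : ℝ, a = (v : ℂ) * Complex.I := by
    refine ⟨a.im, ?_⟩
    apply Complex.ext
    · simp [ha]
    · simp
  refine ⟨round (T * v / (2 * Real.pi)), ?_⟩
  have h1 : (T : ℂ) * a - 2 * Real.pi * Complex.I *
      ((round (T * v / (2 * Real.pi)) : ℤ) : ℂ) =
      (((T * v / (2 * Real.pi) - (round (T * v / (2 * Real.pi)) : ℤ)) *
        (2 * Real.pi) : ℝ) : ℂ) * Complex.I := by
    rw [hv]
    push_cast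
    have hpc : (Real.pi : ℂ) ≠ 0 := by exact_mod_cast hpi.ne'
    field_simp
  rw [h1, norm_mul, Complex.norm_I, mul_one, Complex.norm_real, Real.norm_eq_abs, abs_mul,
    abs_of_pos (by positivity : (0 : ℝ) < 2 * Real.pi)]
  have h3 := abs_sub_round (T * v / (2 * Real.pi))
  nlinarith

theorem solve3 {m : ℕ} (α : Fin m → ℂ) (hre : ∀ j, (α j).re = 0) (e : ℕ) (he : 1 ≤ e) (g : ℕ)
    (hg : 1 ≤ g) (μ ν0 : ℤ) (ν : Fin m → ℤ) (A0 U0 : (Fin m → ℂ) × ℂ × ℂ → ℂ)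
    (U : Fin m → (Fin m → ℂ) × ℂ × ℂ → ℂ) (hA0 : ContDiffAt ℂ 1 A0 (α, 0, 0))
    (hA00 : A0 (α, 0, 0) ≠ 0) (δ : ℝ) (hδ : 0 < δ)
    (hgrow : ∃ᶠ s : ℝ in 𝓝[>] 0, ((s : ℂ) ^ μ * A0 (α, (s : ℂ), 0)).re ≤
      -s ^ (-δ) * (1 + ‖(s : ℂ) ^ μ * A0 (α, (s : ℂ), 0)‖ * s ^ e))
    (hU0 : ContDiffAt ℂ 1 U0 (α, 0, 0)) (hU00 : U0 (α, 0, 0) ≠ 0)
    (hU : ∀ j, ContDiffAt ℂ 1 (U j) (α, 0, 0)) (hUne : ∀ j, U j (α, 0, 0) ≠ 0)
    (S : Set ((Fin m → ℂ) × ℂ × ℂ)) (hS : S ∈ 𝓝 (α, (0 : ℂ), (0 : ℂ))) :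
    ∃ p ∈ S, p.2.1 ≠ 0 ∧ p.2.2 ≠ 0 ∧
      (∀ j, p.2.1 ^ ν j * U j p = Complex.exp (p.1 j * (p.2.1⁻¹) ^ e)) ∧
      p.2.2 ^ g * (p.2.1 ^ ν0 * U0 p) = Complex.exp (p.2.1 ^ μ * A0 p) := by
  choose c G K t ht hK hGU using fun j => loc (α, (0 : ℂ), (0 : ℂ)) (U j) (hU j) (hUne j)
  obtain ⟨c0, G0, K0, t0, ht0, hK0, hGU0⟩ := loc (α, (0 : ℂ), (0 : ℂ)) U0 hU0 hU00
  obtain ⟨KA, tA, htA, hKA⟩ := hA0.exists_lipschitzOnWith
  obtain ⟨a, hadef⟩ : ∃ a : ℝ, a = ‖A0 (α, 0, 0)‖ / 2 := ⟨_, rfl⟩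
  have ha : 0 < a := by
    rw [hadef]
    have := norm_pos_iff.2 hA00
    positivity
  have hAa : ∀ᶠ p in 𝓝 (α, (0 : ℂ), (0 : ℂ)), a < ‖A0 p‖ := by
    have h3 : Filter.Tendsto (fun p => ‖A0 p‖) (𝓝 (α, (0 : ℂ), (0 : ℂ)))
        (𝓝 ‖A0 (α, (0 : ℂ), (0 : ℂ))‖) := hA0.continuousAt.norm
    refine h3.eventually (lt_mem_nhds ?_)
    rw [hadef] at ha ⊢
    linarith
  have hT : S ∩ ((⋂ j, t j) ∩ (t0 ∩ (tA ∩ {p | a < ‖A0 p‖}))) ∈ 𝓝 (α, (0 : ℂ), (0 : ℂ)) :=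
    Filter.inter_mem hS (Filter.inter_mem (Filter.iInter_mem.2 ht)
      (Filter.inter_mem ht0 (Filter.inter_mem htA hAa)))
  obtain ⟨r, hr, hball⟩ := Metric.nhds_basis_closedBall.mem_iff.1 hT
  -- constants
  obtain ⟨KG, hKG⟩ : ∃ KG : NNReal, KG = (∑ j, K j) + K0 := ⟨_, rfl⟩
  have hKj : ∀ j, (K j : ℝ) ≤ KG := by
    intro j
    have h1 : K j ≤ ∑ i, K i := Finset.single_le_sum (f := K) (fun i _ => (K i).2)
      (Finset.mem_univ j)
    have h2 : K j ≤ KG := by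
      rw [hKG]; exact h1.trans (le_add_of_nonneg_right K0.2)
    exact_mod_cast h2
  have hK0G : (K0 : ℝ) ≤ KG := by
    have h2 : K0 ≤ KG := by
      rw [hKG]; exact le_add_of_nonneg_left (Finset.sum_nonneg fun i _ => (K i).2)
    exact_mod_cast h2
  obtain ⟨Nn, hNn⟩ : ∃ Nn : ℝ, Nn = ∑ j, |(ν j : ℝ)| := ⟨_, rfl⟩
  have hNj : ∀ j, |(ν j : ℝ)| ≤ Nn := by
    intro j
    rw [hNn]
    exact Finset.single_le_sum (f := fun j => |(ν j : ℝ)|) (fun i _ => abs_nonneg _)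
      (Finset.mem_univ j)
  have hNn0 : 0 ≤ Nn := by rw [hNn]; exact Finset.sum_nonneg fun i _ => abs_nonneg _
  obtain ⟨Cc, hCc⟩ : ∃ Cc : ℝ, Cc = ∑ j, ‖c j‖ := ⟨_, rfl⟩
  have hCj : ∀ j, ‖c j‖ ≤ Cc := by
    intro j
    rw [hCc]
    exact Finset.single_le_sum (f := fun j => ‖c j‖) (fun i _ => norm_nonneg _)
      (Finset.mem_univ j)
  have hCc0 : 0 ≤ Cc := by rw [hCc]; exact Finset.sum_nonneg fun i _ => norm_nonneg _
  have hg0 : (0 : ℝ) < (g : ℝ) := by exact_mod_cast hg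
  have hg1 : (1 : ℝ) ≤ (g : ℝ) := by exact_mod_cast hg
  obtain ⟨κ, hκdef⟩ : ∃ κ : ℝ, κ = 1 / 2 / g := ⟨_, rfl⟩
  have hκ : 0 < κ := by rw [hκdef]; positivity
  have hKG0 : (0 : ℝ) ≤ KG := KG.2
  have hKA0 : (0 : ℝ) ≤ KA := KA.2
  have hpi := Real.pi_pos
  obtain ⟨C, hCdef⟩ : ∃ C : ℝ, C = Nn + Cc + 1 + Real.pi := ⟨_, rfl⟩
  have hC1 : 1 ≤ C := by rw [hCdef]; linarith
  -- the choice of `s`
  obtain ⟨s, hs0, hgr, hx1, hxl, hxr, hxK, hxR, hxA, hxb, hxE, hxE2⟩ : ∃ s : ℝ, 0 < s ∧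
      ((s : ℂ) ^ μ * A0 (α, (s : ℂ), 0)).re ≤
        -s ^ (-δ) * (1 + ‖(s : ℂ) ^ μ * A0 (α, (s : ℂ), 0)‖ * s ^ e) ∧
      1 ≤ s⁻¹ ∧ 1 ≤ Real.log s⁻¹ ∧ 1 / r ≤ s⁻¹ ∧ 2 * KG ≤ s⁻¹ ∧
      C * Real.log s⁻¹ + 0 ≤ r * s⁻¹ ^ (1 : ℝ) ∧
      (KA * C / a) * Real.log s⁻¹ + 0 ≤ 1 * s⁻¹ ^ δ ∧
      |(ν0 : ℝ)| * Real.log s⁻¹ + (‖c0‖ + 1) ≤ 1 / 2 * s⁻¹ ^ δ ∧
      Real.exp (-(κ * s⁻¹ ^ δ)) * s⁻¹ ^ (μ.natAbs + e) ≤ 1 ∧
      Real.exp (-(κ * s⁻¹ ^ δ)) * s⁻¹ ^ (μ.natAbs + e) ≤ 1 / (2 * (KA + KG + 1)) := by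
    have h := (Filter.eventually_ge_atTop (1 : ℝ)).and
      ((Real.tendsto_log_atTop.eventually (Filter.eventually_ge_atTop (1 : ℝ))).and
      ((Filter.eventually_ge_atTop (1 / r)).and
      ((Filter.eventually_ge_atTop (2 * (KG : ℝ))).and
      ((log_small C 0 r 1 hr one_pos).and
      ((log_small (KA * C / a) 0 1 δ one_pos hδ).and
      ((log_small |(ν0 : ℝ)| (‖c0‖ + 1) (1 / 2) δ (by norm_num) hδ).and
      ((exp_small κ δ 1 hκ hδ one_pos (μ.natAbs + e)).and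
        (exp_small κ δ (1 / (2 * ((KA : ℝ) + KG + 1))) hκ hδ (by positivity)
          (μ.natAbs + e)))))))))
    have h2 := (tendsto_inv_nhdsGT_zero (𝕜 := ℝ)).eventually h
    have h3 : ∀ᶠ s : ℝ in 𝓝[>] 0, 0 < s := self_mem_nhdsWithin
    obtain ⟨s, ⟨h4, h5⟩, h6⟩ := ((hgrow.and_eventually h2).and_eventually h3).exists
    exact ⟨s, h6, h4, h5⟩
  obtain ⟨x, hx⟩ : ∃ x : ℝ, x = s⁻¹ := ⟨_, rfl⟩
  rw [← hx] at hx1 hxl hxr hxK hxR hxA hxb hxE hxE2
  rw [Real.rpow_one, add_zero] at hxR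
  rw [add_zero, one_mul] at hxA
  have hx0 : 0 < x := by linarith
  have hs : s = x⁻¹ := by rw [hx, inv_inv]
  have hsr : s ≤ r := by
    rw [hs, inv_eq_one_div, div_le_iff₀ hx0]
    rw [div_le_iff₀ hr] at hxr
    linarith
  have hlogs : Real.log s = -Real.log x := by rw [hs, Real.log_inv]
  have hlogx : 0 ≤ Real.log x := by linarith
  have habs : |Real.log s| = Real.log x := by rw [hlogs, abs_neg, abs_of_nonneg hlogx]
  obtain ⟨T, hTdef⟩ : ∃ T : ℝ, T = x ^ e := ⟨_, rfl⟩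
  have hxT : x ≤ T := by
    rw [hTdef]
    exact le_self_pow₀ hx1 (by omega)
  have hT1 : 1 ≤ T := hx1.trans hxT
  have hT0 : 0 < T := by linarith
  have hTC : (T : ℂ) ≠ 0 := by exact_mod_cast hT0.ne'
  have hgC : (g : ℂ) ≠ 0 := by exact_mod_cast (by omega : g ≠ 0)
  obtain ⟨M, hM⟩ : ∃ M : ℝ, M = x ^ δ := ⟨_, rfl⟩
  have hM0 : 0 < M := by rw [hM]; positivity
  rw [← hM] at hxA hxb hxE hxE2
  obtain ⟨R, hRdef⟩ : ∃ R : ℝ, R = C * Real.log x / T := ⟨_, rfl⟩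
  have hR0 : 0 < R := by rw [hRdef]; positivity
  have hRr : R ≤ r := by
    rw [hRdef, div_le_iff₀ hT0]
    exact hxR.trans (mul_le_mul_of_nonneg_left hxT hr.le)
  -- the power `s ^ μ`
  obtain ⟨σ, hσ⟩ : ∃ σ : ℝ, σ = s ^ μ := ⟨_, rfl⟩
  have hσ0 : 0 < σ := by rw [hσ]; exact zpow_pos hs0 _
  have hσn : ‖(s : ℂ) ^ μ‖ = σ := by
    rw [norm_zpow, Complex.norm_real, Real.norm_eq_abs, abs_of_pos hs0, hσ]
  have hσC : (s : ℂ) ^ μ = (σ : ℂ) := by rw [hσ]; push_cast; rfl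
  obtain ⟨P, hP⟩ : ∃ P : ℝ, P = x ^ (μ.natAbs + e) := ⟨_, rfl⟩
  rw [← hP] at hxE hxE2
  have hTP : T ≤ P := by
    rw [hTdef, hP]
    exact pow_le_pow_right₀ hx1 (by omega)
  have hσP : σ ≤ P := by
    rw [hσ, hP, hs, inv_zpow', ← zpow_natCast]
    refine zpow_le_zpow_right₀ hx1 ?_
    push_cast
    have h1 : -μ ≤ |μ| := neg_le_abs μ
    have h2 : (0 : ℤ) ≤ e := Int.natCast_nonneg e
    linarith
  have hP1 : 1 ≤ P := hT1.trans hTP
  -- the growth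
  obtain ⟨ρ, hρ⟩ : ∃ ρ : ℂ, ρ = (σ : ℂ) * A0 (α, (s : ℂ), 0) := ⟨_, rfl⟩
  have hgrow' : ρ.re ≤ -M * (1 + ‖ρ‖ / T) := by
    rw [hσC, ← hρ] at hgr
    have h1 : s ^ (-δ) = M := by
      rw [hM, hs, Real.inv_rpow hx0.le, Real.rpow_neg hx0.le, inv_inv]
    have h2 : s ^ e = 1 / T := by rw [hs, hTdef, inv_pow, one_div]
    rw [h1, h2] at hgr
    rw [mul_one_div] at hgr
    exact hgr
  -- the lattice points
  choose l hl using fun j => lat T (α j) (hre j)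
  -- the map
  obtain ⟨Φ, hΦ⟩ : ∃ Φ : (Fin m → ℂ) × ℂ → (Fin m → ℂ) × ℂ, Φ = fun q =>
      ((fun j => (ν j * Real.log s + c j + G j (q.1, (s : ℂ), q.2) +
        2 * Real.pi * Complex.I * l j) / T),
      Complex.exp ((σ * A0 (q.1, (s : ℂ), q.2) - ν0 * Real.log s - c0 -
        G0 (q.1, (s : ℂ), q.2)) / g)) := ⟨_, rfl⟩
  obtain ⟨B, hB⟩ : ∃ B : Set ((Fin m → ℂ) × ℂ), B = Metric.closedBall (α, (0 : ℂ)) R := ⟨_, rfl⟩
  have hmem : ∀ q ∈ B, (q.1, (s : ℂ), q.2) ∈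
      S ∩ ((⋂ j, t j) ∩ (t0 ∩ (tA ∩ {p | a < ‖A0 p‖}))) := by
    intro q hq
    refine hball ?_
    rw [hB, Metric.mem_closedBall, Prod.dist_eq, max_le_iff] at hq
    rw [Metric.mem_closedBall, Prod.dist_eq, max_le_iff, Prod.dist_eq, max_le_iff]
    refine ⟨hq.1.trans hRr, ?_, hq.2.trans hRr⟩
    rw [dist_zero_right, Complex.norm_real, Real.norm_eq_abs, abs_of_pos hs0]
    exact hsr
  have hαB : (α, (0 : ℂ)) ∈ B := by rw [hB]; exact Metric.mem_closedBall_self hR0.le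
  have hρa : a * σ ≤ ‖ρ‖ := by
    obtain ⟨-, -, -, -, hqA⟩ := hmem _ hαB
    have h1 : a < ‖A0 (α, (s : ℂ), 0)‖ := hqA
    rw [hρ, norm_mul, Complex.norm_real, Real.norm_eq_abs, abs_of_pos hσ0, mul_comm]
    exact mul_le_mul_of_nonneg_left h1.le hσ0.le
  -- the exponent
  have hA : ∀ q ∈ B, (σ * A0 (q.1, (s : ℂ), q.2) : ℂ).re ≤ -M := by
    intro q hq
    obtain ⟨-, -, -, hq1, -⟩ := hmem q hq
    obtain ⟨-, -, -, hq2, -⟩ := hmem _ hαB
    have h1 := hKA.dist_le_mul _ hq1 _ hq2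
    have h2 : dist (((q.1, (s : ℂ), q.2) : (Fin m → ℂ) × ℂ × ℂ)) (α, (s : ℂ), 0) ≤ R := by
      rw [hB, Metric.mem_closedBall, Prod.dist_eq, max_le_iff] at hq
      rw [Prod.dist_eq, max_le_iff, Prod.dist_eq, max_le_iff]
      refine ⟨hq.1, ?_, hq.2⟩
      rw [dist_self]
      exact hR0.le
    have h3 : ‖(σ : ℂ) * A0 (q.1, (s : ℂ), q.2) - ρ‖ ≤ σ * (KA * R) := by
      rw [hρ, ← mul_sub, norm_mul, Complex.norm_real, Real.norm_eq_abs, abs_of_pos hσ0,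
        ← dist_eq_norm]
      exact mul_le_mul_of_nonneg_left (h1.trans (mul_le_mul_of_nonneg_left h2 hKA0)) hσ0.le
    have h4 : σ * (KA * R) ≤ M * (‖ρ‖ / T) := by
      have h5 : σ ≤ ‖ρ‖ / a := by
        rw [le_div_iff₀ ha]
        linarith
      have h6 : σ * (KA * R) ≤ ‖ρ‖ / a * (KA * R) :=
        mul_le_mul_of_nonneg_right h5 (by positivity)
      have h7 : ‖ρ‖ / a * (KA * R) = (KA * C / a * Real.log x) * (‖ρ‖ / T) := by
        rw [hRdef]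
        field_simp
      rw [h7] at h6
      exact h6.trans (mul_le_mul_of_nonneg_right hxA (by positivity))
    have h8 : ((σ : ℂ) * A0 (q.1, (s : ℂ), q.2)).re - ρ.re ≤ σ * (KA * R) := by
      rw [← Complex.sub_re]
      exact (Complex.re_le_norm _).trans h3
    have h9 : -M * (1 + ‖ρ‖ / T) = -M - M * (‖ρ‖ / T) := by ring
    linarith
  have hexpo : ∀ q ∈ B, ((σ * A0 (q.1, (s : ℂ), q.2) - ν0 * Real.log s - c0 -
        G0 (q.1, (s : ℂ), q.2)) / g : ℂ).re ≤ -(κ * M) := by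
    intro q hq
    obtain ⟨-, -, hq0, -, -⟩ := hmem q hq
    have h1 := (hGU0 _ hq0).1
    have hqA' := hA q hq
    have h2 : ((σ * A0 (q.1, (s : ℂ), q.2) - ν0 * Real.log s - c0 -
        G0 (q.1, (s : ℂ), q.2)) / g : ℂ).re =
        ((σ * A0 (q.1, (s : ℂ), q.2) : ℂ).re - ν0 * Real.log s - c0.re -
          (G0 (q.1, (s : ℂ), q.2)).re) / g := by
      rw [Complex.div_natCast_re]
      simp
    rw [h2, hκdef, div_mul_eq_mul_div, ← neg_div]
    apply div_le_div_of_nonneg_right _ hg0.le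
    have h3 : -(ν0 * Real.log s) ≤ |(ν0 : ℝ)| * Real.log x := by
      rw [hlogs]
      have := mul_le_mul_of_nonneg_right (le_abs_self (ν0 : ℝ)) hlogx
      linarith
    have h4 : -c0.re ≤ ‖c0‖ := (neg_le_abs _).trans (Complex.abs_re_le_norm _)
    have h5 : -(G0 (q.1, (s : ℂ), q.2)).re ≤ 1 :=
      ((neg_le_abs _).trans (Complex.abs_re_le_norm _)).trans h1
    linarith
  have hE0 := Real.exp_pos (-(κ * M))
  have hexp1 : Real.exp (-(κ * M)) ≤ R := by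
    have h1 : Real.exp (-(κ * M)) * T ≤ 1 :=
      (mul_le_mul_of_nonneg_left hTP hE0.le).trans hxE
    rw [hRdef, le_div_iff₀ hT0]
    nlinarith
  have hexp2 : Real.exp (-(κ * M)) * (σ * KA + KG) ≤ 1 / 2 := by
    have h1 : σ * KA + KG ≤ P * (KA + KG + 1) := by nlinarith
    have h2 : 0 < (KA : ℝ) + KG + 1 := by positivity
    calc Real.exp (-(κ * M)) * (σ * KA + KG) ≤ Real.exp (-(κ * M)) * (P * (KA + KG + 1)) :=
          mul_le_mul_of_nonneg_left h1 hE0.le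
      _ = (Real.exp (-(κ * M)) * P) * (KA + KG + 1) := by ring
      _ ≤ 1 / (2 * (KA + KG + 1)) * (KA + KG + 1) := mul_le_mul_of_nonneg_right hxE2 h2.le
      _ = 1 / 2 := by field_simp
  have hmaps : Set.MapsTo Φ B B := by
    intro q hq
    have hq' := hmem q hq
    have hexpo' := hexpo q hq
    rw [hB, Metric.mem_closedBall, Prod.dist_eq, max_le_iff]
    constructor
    · rw [dist_pi_le_iff hR0.le]
      intro j
      have h1 := (hGU j _ (Set.mem_iInter.1 hq'.2.1 j)).1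
      have h2 : (Φ q).1 j - α j = (ν j * Real.log s + c j + G j (q.1, (s : ℂ), q.2) -
          ((T : ℂ) * α j - 2 * Real.pi * Complex.I * l j)) / T := by
        rw [hΦ]
        dsimp only
        field_simp
        ring
      rw [dist_eq_norm, h2, norm_div, Complex.norm_real, Real.norm_eq_abs, abs_of_pos hT0,
        hRdef]
      apply div_le_div_of_nonneg_right _ hT0.le
      have h3 : ‖(ν j : ℂ) * (Real.log s : ℂ)‖ ≤ Nn * Real.log x := by
        rw [norm_mul, Complex.norm_real, Real.norm_eq_abs, habs, Complex.norm_intCast]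
        exact mul_le_mul_of_nonneg_right (hNj j) hlogx
      have h4 : ‖ν j * Real.log s + c j + G j (q.1, (s : ℂ), q.2) -
          ((T : ℂ) * α j - 2 * Real.pi * Complex.I * l j)‖ ≤
          Nn * Real.log x + Cc + 1 + Real.pi := by
        refine (norm_sub_le _ _).trans (add_le_add ?_ (hl j))
        refine (norm_add_le _ _).trans (add_le_add ?_ h1)
        exact (norm_add_le _ _).trans (add_le_add h3 (hCj j))
      have h5 : Cc + 1 + Real.pi ≤ (Cc + 1 + Real.pi) * Real.log x :=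
        le_mul_of_one_le_right (by linarith) hxl
      have h6 : C * Real.log x = Nn * Real.log x + (Cc + 1 + Real.pi) * Real.log x := by
        rw [hCdef]; ring
      linarith
    · rw [dist_zero_right, hΦ]
      dsimp only
      rw [Complex.norm_exp]
      exact (Real.exp_le_exp.2 hexpo').trans hexp1
  have hlip : ContractingWith (1 / 2) (hmaps.restrict Φ B B) := by
    refine ⟨by norm_num, ?_⟩
    refine LipschitzWith.of_dist_le_mul fun y z => ?_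
    change dist (Φ y.1) (Φ z.1) ≤ _ * dist y.1 z.1
    have hy := hmem y.1 y.2
    have hz := hmem z.1 z.2
    have hdist : dist (((y.1.1, (s : ℂ), y.1.2) : (Fin m → ℂ) × ℂ × ℂ)) (z.1.1, (s : ℂ), z.1.2) =
        dist y.1 z.1 := by
      rw [Prod.dist_eq, Prod.dist_eq, Prod.dist_eq, dist_self, max_eq_right dist_nonneg]
    have hd0 : 0 ≤ dist y.1 z.1 := dist_nonneg
    have hhalf : (((1 / 2 : NNReal)) : ℝ) = 1 / 2 := by norm_num
    rw [hhalf, Prod.dist_eq, max_le_iff]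
    constructor
    · rw [dist_pi_le_iff (by positivity)]
      intro j
      have h1 := (hK j).dist_le_mul _ (Set.mem_iInter.1 hy.2.1 j) _ (Set.mem_iInter.1 hz.2.1 j)
      rw [hdist] at h1
      have h3 : (Φ y.1).1 j - (Φ z.1).1 j = (G j (y.1.1, (s : ℂ), y.1.2) -
          G j (z.1.1, (s : ℂ), z.1.2)) / T := by
        rw [hΦ]
        dsimp only
        field_simp
        ring
      rw [dist_eq_norm, h3, norm_div, Complex.norm_real, Real.norm_eq_abs, abs_of_pos hT0,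
        ← dist_eq_norm, div_le_iff₀ hT0]
      have h4 : (K j : ℝ) * dist y.1 z.1 ≤ KG * dist y.1 z.1 :=
        mul_le_mul_of_nonneg_right (hKj j) hd0
      have h5 : 2 * (KG : ℝ) ≤ T := hxK.trans hxT
      have h6 : 2 * (KG : ℝ) * dist y.1 z.1 ≤ T * dist y.1 z.1 :=
        mul_le_mul_of_nonneg_right h5 hd0
      linarith
    · have h1 := hK0.dist_le_mul _ hy.2.2.1 _ hz.2.2.1
      have h2 := hKA.dist_le_mul _ hy.2.2.2.1 _ hz.2.2.2.1
      rw [hdist] at h1 h2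
      have h3 := exp_lip (-(κ * M)) _ _ (hexpo y.1 y.2) (hexpo z.1 z.2)
      have h4 : dist (Φ y.1).2 (Φ z.1).2 = ‖Complex.exp ((σ * A0 (y.1.1, (s : ℂ), y.1.2) -
          ν0 * Real.log s - c0 - G0 (y.1.1, (s : ℂ), y.1.2)) / g) -
          Complex.exp ((σ * A0 (z.1.1, (s : ℂ), z.1.2) - ν0 * Real.log s - c0 -
            G0 (z.1.1, (s : ℂ), z.1.2)) / g)‖ := by
        rw [hΦ, dist_eq_norm]
      rw [h4]
      refine h3.trans ?_
      have h5 : (σ * A0 (y.1.1, (s : ℂ), y.1.2) - ν0 * Real.log s - c0 -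
          G0 (y.1.1, (s : ℂ), y.1.2)) / g - (σ * A0 (z.1.1, (s : ℂ), z.1.2) -
          ν0 * Real.log s - c0 - G0 (z.1.1, (s : ℂ), z.1.2)) / g =
          (σ * (A0 (y.1.1, (s : ℂ), y.1.2) - A0 (z.1.1, (s : ℂ), z.1.2)) -
            (G0 (y.1.1, (s : ℂ), y.1.2) - G0 (z.1.1, (s : ℂ), z.1.2))) / g := by
        ring
      have h6 : ‖(σ * (A0 (y.1.1, (s : ℂ), y.1.2) - A0 (z.1.1, (s : ℂ), z.1.2)) -
            (G0 (y.1.1, (s : ℂ), y.1.2) - G0 (z.1.1, (s : ℂ), z.1.2))) / g‖ ≤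
          (σ * KA + KG) * dist y.1 z.1 := by
        rw [norm_div, Complex.norm_natCast, div_le_iff₀ hg0]
        have h7 : ‖(σ : ℂ) * (A0 (y.1.1, (s : ℂ), y.1.2) - A0 (z.1.1, (s : ℂ), z.1.2)) -
            (G0 (y.1.1, (s : ℂ), y.1.2) - G0 (z.1.1, (s : ℂ), z.1.2))‖ ≤
            σ * (KA * dist y.1 z.1) + K0 * dist y.1 z.1 := by
          refine (norm_sub_le _ _).trans (add_le_add ?_ ?_)
          · rw [norm_mul, Complex.norm_real, Real.norm_eq_abs, abs_of_pos hσ0, ← dist_eq_norm]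
            exact mul_le_mul_of_nonneg_left h2 hσ0.le
          · rw [← dist_eq_norm]; exact h1
        have h8 : (K0 : ℝ) * dist y.1 z.1 ≤ KG * dist y.1 z.1 :=
          mul_le_mul_of_nonneg_right hK0G hd0
        have h9 : 0 ≤ (σ * KA + KG) * dist y.1 z.1 := by positivity
        have h10 : (σ * KA + KG) * dist y.1 z.1 ≤ (σ * KA + KG) * dist y.1 z.1 * g :=
          le_mul_of_one_le_right h9 hg1
        have h11 : σ * (KA * dist y.1 z.1) + KG * dist y.1 z.1 =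
            (σ * KA + KG) * dist y.1 z.1 := by ring
        linarith
      rw [h5]
      calc Real.exp (-(κ * M)) * ‖(σ * (A0 (y.1.1, (s : ℂ), y.1.2) -
            A0 (z.1.1, (s : ℂ), z.1.2)) - (G0 (y.1.1, (s : ℂ), y.1.2) -
            G0 (z.1.1, (s : ℂ), z.1.2))) / g‖
          ≤ Real.exp (-(κ * M)) * ((σ * KA + KG) * dist y.1 z.1) :=
            mul_le_mul_of_nonneg_left h6 (Real.exp_pos _).le
        _ = Real.exp (-(κ * M)) * (σ * KA + KG) * dist y.1 z.1 := by ring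
        _ ≤ 1 / 2 * dist y.1 z.1 := mul_le_mul_of_nonneg_right hexp2 hd0
  have hcomp : IsComplete B := by rw [hB]; exact Metric.isClosed_closedBall.isComplete
  obtain ⟨q, hq, hfix, -⟩ := ContractingWith.exists_fixedPoint' hcomp hmaps hlip
    (x := (α, (0 : ℂ))) hαB (edist_ne_top _ _)
  have hq' := hmem q hq
  have hfix' : Φ q = q := hfix
  have hf1 : ∀ j, (ν j * Real.log s + c j + G j (q.1, (s : ℂ), q.2) +
        2 * Real.pi * Complex.I * l j) / T = q.1 j := by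
    intro j
    have := congrFun (congrArg Prod.fst hfix') j
    rw [hΦ] at this
    exact this
  have hf2 : Complex.exp ((σ * A0 (q.1, (s : ℂ), q.2) - ν0 * Real.log s - c0 -
        G0 (q.1, (s : ℂ), q.2)) / g) = q.2 := by
    have := congrArg Prod.snd hfix'
    rw [hΦ] at this
    exact this
  have hsC : ((s : ℂ)⁻¹) ^ e = (T : ℂ) := by
    rw [hs, hTdef]
    push_cast
    rw [inv_inv]
  have hpow : ∀ k : ℤ, Complex.exp (k * Real.log s) = (s : ℂ) ^ k := by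
    intro k
    rw [Complex.exp_int_mul, ← Complex.ofReal_exp, Real.exp_log hs0]
  refine ⟨(q.1, (s : ℂ), q.2), hq'.1, Complex.ofReal_ne_zero.2 hs0.ne', ?_, fun j => ?_, ?_⟩
  · rw [← hf2]
    exact Complex.exp_ne_zero _
  · have h1 := (hGU j _ (Set.mem_iInter.1 hq'.2.1 j)).2
    have h3 : q.1 j * T = ν j * Real.log s + c j + G j (q.1, (s : ℂ), q.2) +
        2 * Real.pi * Complex.I * l j := by
      rw [← hf1 j]
      field_simp
    have h5 : Complex.exp (2 * Real.pi * Complex.I * l j) = 1 := by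
      have h6 : 2 * (Real.pi : ℂ) * Complex.I * l j = l j * (2 * Real.pi * Complex.I) := by ring
      rw [h6, Complex.exp_int_mul_two_pi_mul_I]
    dsimp only
    rw [h1, hsC, h3, Complex.exp_add, Complex.exp_add, Complex.exp_add, Complex.exp_add, h5,
      hpow]
    ring
  · have h1 := (hGU0 _ hq'.2.2.1).2
    have hq2 : q.2 ^ g = Complex.exp (σ * A0 (q.1, (s : ℂ), q.2) - ν0 * Real.log s - c0 -
        G0 (q.1, (s : ℂ), q.2)) := by
      conv_lhs => rw [← hf2]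
      rw [← Complex.exp_nat_mul]
      congr 1
      field_simp
    dsimp only
    rw [h1, hσC, ← hpow, hq2, ← Complex.exp_add, ← Complex.exp_add]
    congr 1
    ring

end Pool.Agent.EXK2
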