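import Pool.Agent.EXK2.Data
import Pool.Agent.EXK2.Solve
import Pool.Agent.EXK.KTau
import Pool.Agent.EXI.CChart
import Pool.Agent.EXI.CLoc

/-!
# EXK2 / Asm: the exact points near infinity for a place in normal form, along a given branch
-/

set_option autoImplicit false

namespace Pool.Agent.EXK2

open MvPolynomial Pool.Agent.EXL Pool.Agent.EXI Pool.Agent.EXK Topology

private theorem kasm_rep {k : Subfield ℂ} {K : Type} [Field K] [Algebra k K] {m : ℕ}
    {pl : Place k K} (ch : Chart pl m) (e : pl.O) (he : pl.ρ e ≠ 0) :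
    ∃ N D : MvPolynomial (Option (Fin (m + 1))) k, aeval (fun i => pl.ρ (ch.x i)) N ≠ 0 ∧
      aeval (fun i => pl.ρ (ch.x i)) D ≠ 0 ∧
      (e : K) * aeval (fun i => (ch.x i : K)) D = aeval (fun i => (ch.x i : K)) N := by
  obtain ⟨N, D, hD, h⟩ := ch.repO e
  refine ⟨N, D, ?_, hD, h⟩
  rw [← crep_spec2 ch.x D N e h]
  exact mul_ne_zero he hD

private theorem kasm_inr {k : Subfield ℂ} {ι κ : Type} {R : Type} [CommRing R] [Algebra k R]
    (x : ι → R) (e : κ → R) (f : MvPolynomial κ k) :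
    aeval (Sum.elim x e) (rename Sum.inr f) = aeval e f := by
  rw [aeval_rename, Sum.elim_comp_inr]

private theorem kasm_inl {k : Subfield ℂ} {ι κ : Type} {R : Type} [CommRing R] [Algebra k R]
    (x : ι → R) (e : κ → R) (f : MvPolynomial ι k) :
    aeval (Sum.elim x e) (rename Sum.inl f) = aeval x f := by
  rw [aeval_rename, Sum.elim_comp_inl]

theorem concl_nf2 {k : Subfield ℂ} (hk : (k : Set ℂ).Countable) {K : Type} [Field K] [Algebra k K]
    {m : ℕ} (pl : Place k K)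
    (hfg : ∃ S : Finset K, IntermediateField.adjoin k (S : Set K) = ⊤)
    (htr : ∀ y : Fin (m + 2) → K, ¬ AlgebraicIndependent k y) (A B : Fin (m + 1) → pl.O)
    (hB0 : (B 0 : K) ≠ 0) (h0 : pl.ρ (B 0) = 0) (hB : ∀ j : Fin m, pl.ρ (B j.succ) ≠ 0)
    (F : MvPolynomial (Fin (m + 1)) k)
    (hF : ∀ f : MvPolynomial (Fin (m + 1)) k, aeval (fun j => pl.ρ (A j)) f = 0 ↔ F ∣ f)
    (hind : AlgebraicIndependent k (fun j : Fin m => pl.ρ (A j.succ)))
    (hre : ∀ j : Fin m, (pl.ρ (A j.succ)).re = 0) (ε : ℝ) (hε : 0 < ε)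
    (hgrow : ∃ᶠ T : ℝ in Filter.atTop, ∃ x : ℂ,
      aeval (Fin.cons x (fun j : Fin m => (T : ℂ) * pl.ρ (A j.succ)) : Fin (m + 1) → ℂ) F = 0 ∧
        x.re ≤ -T ^ ε * (1 + ‖x‖ / T))
    (h : MvPolynomial (Fin (m + 1) ⊕ Fin (m + 1)) k)
    (hh : aeval (Sum.elim (fun j => (A j : K)) fun j => (B j : K)) h ≠ 0) :
    ∃ a' b' : Fin (m + 1) → ℂ, (∀ j, b' j = Complex.exp (a' j)) ∧
      Spec k (Sum.elim (fun j => (A j : K)) fun j => (B j : K)) (Sum.elim a' b') ∧
      aeval (Sum.elim a' b') h ≠ 0 := by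
  classical
  -- the residue of `A 0` is not zero
  have hcA : (Fin.cons (pl.ρ (A 0)) (fun j : Fin m => pl.ρ (A j.succ)) : Fin (m + 1) → ℂ) =
      fun j => pl.ρ (A j) := by
    funext j
    refine Fin.cases ?_ (fun j => ?_) j
    · rfl
    · rfl
  have ha0 : pl.ρ (A 0) ≠ 0 := by
    intro hz
    obtain ⟨H, hH⟩ : F ∣ X 0 := (hF _).1 (by rw [aeval_X]; exact hz)
    obtain ⟨T, ⟨x, hx, hxr⟩, hT⟩ :=
      (hgrow.and_eventually (Filter.eventually_ge_atTop (1 : ℝ))).exists
    have h1 := congrArg (aeval (Fin.cons x (fun j : Fin m => (T : ℂ) * pl.ρ (A j.succ)) :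
      Fin (m + 1) → ℂ)) hH
    rw [aeval_X, map_mul, hx, zero_mul, Fin.cons_zero] at h1
    rw [h1, norm_zero, zero_div, add_zero, mul_one, Complex.zero_re] at hxr
    have h2 : 0 < T ^ ε := Real.rpow_pos_of_pos (by linarith) ε
    linarith
  -- the chart
  obtain ⟨ch, hch⟩ := exists_chart pl hfg htr (fun j : Fin m => A j.succ) hind
  have hα : (fun j : Fin m => pl.ρ (ch.x (some j.castSucc))) = fun j : Fin m => pl.ρ (A j.succ) := by
    funext j
    rw [hch]
  obtain ⟨N0, D0, hN0, hD0, e0⟩ := kasm_rep ch (A 0) ha0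
  choose NB DB hNB hDB eB using fun j : Fin m => kasm_rep ch (B j.succ) (hB j)
  obtain ⟨g, A1, B1, hg, hA1, hB1, hAB1⟩ := ch.repG (B 0) hB0 h0
  obtain ⟨νh, A2, B2, hA2, hB2, hAB2⟩ := ch.rep _ hh
  -- the list of polynomials
  let ι : Type := Fin 6 ⊕ (Fin m ⊕ Fin m)
  let Qi : ι → MvPolynomial (Option (Fin (m + 1))) k :=
    Sum.elim ![N0, D0, A1, B1, A2, B2] (Sum.elim NB DB)
  have hQi : ∀ i, aeval (fun i => pl.ρ (ch.x i)) (Qi i) ≠ 0 := by
    rintro (i | i | i)
    · fin_cases i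
      · exact hN0
      · exact hD0
      · exact hA1
      · exact hB1
      · exact hA2
      · exact hB2
    · exact hNB i
    · exact hDB i
  let E : ι ≃ Fin (Fintype.card ι) := Fintype.equivFin ι
  have hE : ∀ i : ι, Qi (E.symm (E i)) = Qi i := fun i => by rw [Equiv.symm_apply_apply]
  have hα' : ∀ j : Fin m, pl.ρ (ch.x (some j.castSucc)) = pl.ρ (A j.succ) := fun j =>
    congrFun hα j
  obtain ⟨e, ν, M, X', W, δ, he, hδ, hWc, hW0, hgr, hev⟩ := two_data2 hk htr ch
    (by rw [hα]; exact hind) (A 0) F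
    (by
      intro f
      rw [hα, hcA]
      exact hF f) ε hε (by simp only [hα']; exact hgrow) (fun j => Qi (E.symm j))
    (fun j => hQi _) (E (Sum.inl 1)) (E (Sum.inl 0)) (by
      rw [hE, hE]
      exact crep_spec2 ch.x D0 N0 (A 0) e0)
  rw [hα] at hWc hW0 hgr hev
  set α : Fin m → ℂ := fun j : Fin m => pl.ρ (A j.succ) with hαdef
  have hcont : ∀ j, ∀ᶠ p : (Fin m → ℂ) × ℂ × ℂ in 𝓝 (α, 0, 0), W j p ≠ 0 := fun j =>
    (hWc j).continuousAt.eventually_ne (hW0 j)
  have hS := hev.and (Filter.eventually_all.2 hcont)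
  obtain ⟨p, ⟨hp, hWp⟩, hs, ht, hexp, hexp0⟩ := solve3 α hre e he g hg
    (ν (E (Sum.inl 0)) - ν (E (Sum.inl 1))) (M * g + ν (E (Sum.inl 2)) - ν (E (Sum.inl 3)))
    (fun j => ν (E (Sum.inr (Sum.inl j))) - ν (E (Sum.inr (Sum.inr j))))
    (fun p => W (E (Sum.inl 0)) p / W (E (Sum.inl 1)) p)
    (fun p => W (E (Sum.inl 2)) p / W (E (Sum.inl 3)) p)
    (fun j p => W (E (Sum.inr (Sum.inl j))) p / W (E (Sum.inr (Sum.inr j))) p)
    ((hWc _).div (hWc _) (hW0 _)) (div_ne_zero (hW0 _) (hW0 _)) δ hδ hgr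
    ((hWc _).div (hWc _) (hW0 _)) (div_ne_zero (hW0 _) (hW0 _))
    (fun j => (hWc _).div (hWc _) (hW0 _)) (fun j => div_ne_zero (hW0 _) (hW0 _)) _ hS
  obtain ⟨hXj, hXP, hXG, hXQ⟩ := hp hs
  set z : Option (Fin (m + 1)) → ℂ := X' p with hz
  have hQz : ∀ i : ι, aeval z (Qi i) = p.2.1 ^ ν (E i) * W (E i) p := fun i => by
    have h1 := hXQ (E i)
    rwa [hE] at h1
  have hQz0 : ∀ i : ι, aeval z (Qi i) ≠ 0 := fun i => by
    rw [hQz]
    exact mul_ne_zero (zpow_ne_zero _ hs) (hWp _)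
  have zN0 : aeval z N0 = _ := hQz (Sum.inl 0)
  have zD0 : aeval z D0 = _ := hQz (Sum.inl 1)
  have zA1 : aeval z A1 = _ := hQz (Sum.inl 2)
  have zB1 : aeval z B1 = _ := hQz (Sum.inl 3)
  have zA2 : aeval z A2 ≠ 0 := hQz0 (Sum.inl 4)
  have zB2 : aeval z B2 ≠ 0 := hQz0 (Sum.inl 5)
  have zNB : ∀ j, aeval z (NB j) = _ := fun j => hQz (Sum.inr (Sum.inl j))
  have zDB : ∀ j, aeval z (DB j) = _ := fun j => hQz (Sum.inr (Sum.inr j))
  have hsp : Spec k (fun i => (ch.x i : K)) z := by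
    intro f hf
    obtain ⟨H, rfl⟩ := (ch.ker f).1 hf
    rw [map_mul, hXG, zero_mul]
  have hfrac := spec_frac (fun i => (ch.x i : K)) z hsp
    (Sum.elim (fun j => (A j : K)) fun j => (B j : K))
    (Sum.elim (Fin.cons N0 (fun j : Fin m => X (some j.castSucc)))
      (Fin.cons (rename some ch.P ^ g * A1) NB) :
      Fin (m + 1) ⊕ Fin (m + 1) → MvPolynomial (Option (Fin (m + 1))) k)
    (Sum.elim (Fin.cons D0 (fun _ => 1)) (Fin.cons B1 DB))
    (by
      rintro (j | j)
      · refine Fin.cases ?_ (fun j => ?_) j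
        · exact e0
        · simp only [Sum.elim_inl, Fin.cons_succ, map_one, mul_one, aeval_X]
          rw [hch]
      · refine Fin.cases ?_ (fun j => ?_) j
        · exact hAB1
        · exact eB j)
    (by
      rintro (j | j)
      · refine Fin.cases ?_ (fun j => ?_) j
        · exact hQz0 (Sum.inl 1)
        · simp
      · refine Fin.cases ?_ (fun j => ?_) j
        · exact hQz0 (Sum.inl 3)
        · exact hQz0 (Sum.inr (Sum.inr j)))
  have hval : (fun i => aeval z ((Sum.elim (Fin.cons N0 (fun j : Fin m => X (some j.castSucc)))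
      (Fin.cons (rename some ch.P ^ g * A1) NB) :
      Fin (m + 1) ⊕ Fin (m + 1) → MvPolynomial (Option (Fin (m + 1))) k) i) /
      aeval z ((Sum.elim (Fin.cons D0 (fun _ => 1)) (Fin.cons B1 DB) :
      Fin (m + 1) ⊕ Fin (m + 1) → MvPolynomial (Option (Fin (m + 1))) k) i)) =
      Sum.elim (Fin.cons (aeval z N0 / aeval z D0) fun j : Fin m => z (some j.castSucc))
        (Fin.cons (aeval z (rename some ch.P) ^ g * (aeval z A1 / aeval z B1)) fun j =>
          aeval z (NB j) / aeval z (DB j)) := by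
    funext i
    rcases i with (j | j)
    · refine Fin.cases ?_ (fun j => ?_) j
      · rfl
      · simp only [Sum.elim_inl, Fin.cons_succ, map_one, div_one, aeval_X]
    · refine Fin.cases ?_ (fun j => ?_) j
      · simp only [Sum.elim_inr, Fin.cons_zero, map_mul, map_pow]
        rw [mul_div_assoc]
      · rfl
  rw [hval] at hfrac
  have hPz : aeval z (rename some ch.P) ≠ 0 := by
    rw [hXP]
    exact mul_ne_zero (pow_ne_zero _ hs) ht
  refine ⟨Fin.cons (aeval z N0 / aeval z D0) fun j : Fin m => z (some j.castSucc),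
    Fin.cons (aeval z (rename some ch.P) ^ g * (aeval z A1 / aeval z B1)) fun j =>
          aeval z (NB j) / aeval z (DB j), ?_, ?_, ?_⟩
  rotate_left
  · intro f hf
    have h1 := hfrac (rename Sum.inr f) (by
      rw [aeval_rename, Sum.elim_comp_inr]
      exact hf)
    rw [aeval_rename, Sum.elim_comp_inr] at h1
    exact h1
  · intro h1
    rcases le_or_gt 0 νh with hν | hν
    · obtain ⟨n, rfl⟩ := Int.eq_ofNat_of_zero_le hν
      have h2 := hfrac (rename Sum.inr h * rename Sum.inl B2 -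
        rename Sum.inl (rename some ch.P ^ n * A2)) (by
          rw [map_sub, map_mul, kasm_inr, kasm_inl, kasm_inl, hAB2, map_mul, map_pow, ch.crep_P,
            zpow_natCast, sub_self])
      rw [map_sub, map_mul, kasm_inr, kasm_inl, kasm_inl, h1, zero_mul, zero_sub, neg_eq_zero,
        map_mul, map_pow] at h2
      exact mul_ne_zero (pow_ne_zero _ hPz) zA2 h2
    · obtain ⟨n, hn⟩ := Int.eq_ofNat_of_zero_le (neg_nonneg.2 hν.le)
      have hν' : νh = -(n : ℤ) := by omega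
      have hPK := ch.crep_P0
      rw [ch.crep_P] at hPK
      have h2 := hfrac (rename Sum.inr h * rename Sum.inl B2 * rename Sum.inl (rename some ch.P ^ n) -
        rename Sum.inl A2) (by
          rw [map_sub, map_mul, map_mul, kasm_inr, kasm_inl, kasm_inl, kasm_inl, hAB2, map_pow,
            ch.crep_P, hν', zpow_neg, zpow_natCast, sub_eq_zero]
          field_simp)
      rw [map_sub, map_mul, map_mul, kasm_inr, kasm_inl, kasm_inl, kasm_inl, h1, zero_mul,
        zero_mul, zero_sub, neg_eq_zero] at h2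
      exact zA2 h2
  · intro j
    refine Fin.cases ?_ (fun j => ?_) j
    · simp only [Fin.cons_zero]
      rw [zN0, zD0, hXP, zA1, zB1]
      have h1 : p.2.1 ^ ν (E (Sum.inl 0)) * W (E (Sum.inl 0)) p /
          (p.2.1 ^ ν (E (Sum.inl 1)) * W (E (Sum.inl 1)) p) =
          p.2.1 ^ (ν (E (Sum.inl 0)) - ν (E (Sum.inl 1))) *
            (W (E (Sum.inl 0)) p / W (E (Sum.inl 1)) p) := by
        rw [zpow_sub₀ hs]
        have h2 := zpow_ne_zero (ν (E (Sum.inl 1))) hs
        have h3 := hWp (E (Sum.inl 1))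
        field_simp
      rw [h1, ← hexp0, zpow_sub₀ hs, zpow_add₀ hs, zpow_mul, zpow_natCast, zpow_natCast]
      have h2 := zpow_ne_zero (ν (E (Sum.inl 3))) hs
      have h3 := hWp (E (Sum.inl 3))
      rw [mul_pow]
      field_simp
    · simp only [Fin.cons_succ]
      rw [zNB, zDB, hXj, ← hexp j, zpow_sub₀ hs]
      have h2 := zpow_ne_zero (ν (E (Sum.inr (Sum.inr j)))) hs
      have h3 := hWp (E (Sum.inr (Sum.inr j)))
      field_simp

end Pool.Agent.EXK2
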