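import Pool.Agent.EXK2.Defs
import Pool.Agent.EXK.KLin

/-!
# EXK2 / Lin: the growth condition under integral changes of coordinates

PROOF of `growth_sub`.  `x' = U x`: `aeval (U x) (sub U F) = aeval x F` (`aeval_sub`). `U v = g e_0`, `g > 0`.
`O'` = the set of the `(U y) ∘ succ`, `y ∈ O` (open: `y ↦ (U y) ∘ succ` is a surjective linear map, open
mapping; or by hand). For `y ∈ O`, `T`, `τ`: `x = i T (U y) 0 + g τ`, `U (i T y + τ v) = cons x (i T (U y) ∘ succ)`.
`x.re = g τ.re`, `‖x‖ / T ≤ |(U y) 0| + g ‖τ‖ / T`; take `ε' = ε / 2` (for `T` large the factor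
`T^(ε/2)` absorbs the constants). `growth_scale`: replace `τ` by `g τ`, `ε' = ε / 2`.
-/

set_option autoImplicit false

namespace Pool.Agent.EXK2

open MvPolynomial Pool.Agent.EXL Pool.Agent.EXI Pool.Agent.EXK

private theorem core {ε g K T a b r : ℝ} (hT : 0 < T) (hg : 1 ≤ g) (hK : 0 ≤ K)
    (hTK : 1 + K ≤ T ^ (ε / 2)) (ha : 0 ≤ a) (hb : b ≤ K * T + g * a)
    (hr : r ≤ -T ^ ε * (1 + a / T)) : g * r ≤ -T ^ (ε / 2) * (1 + b / T) := by
  have h1 : T ^ ε = T ^ (ε / 2) * T ^ (ε / 2) := by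
    rw [← Real.rpow_add hT]
    congr 1
    ring
  have h2 : 0 ≤ a / T := div_nonneg ha hT.le
  have h3 : b / T ≤ K + g * (a / T) := by
    rw [div_le_iff₀ hT]
    calc b ≤ K * T + g * a := hb
      _ = (K + g * (a / T)) * T := by field_simp
  have h4 : 0 < T ^ (ε / 2) := Real.rpow_pos_of_pos hT _
  set s := T ^ (ε / 2) with hs
  have h5 : 1 + b / T ≤ s * g * (1 + a / T) := by
    have h6 : (1 + K) * (g * (1 + a / T)) ≤ s * (g * (1 + a / T)) :=
      mul_le_mul_of_nonneg_right hTK (by positivity)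
    have h7 : 1 + K + g * (a / T) ≤ (1 + K) * (g * (1 + a / T)) := by
      nlinarith [mul_nonneg hK (mul_nonneg (by linarith : (0 : ℝ) ≤ g) h2),
        mul_nonneg hK (by linarith : (0 : ℝ) ≤ g - 1)]
    linarith
  calc g * r ≤ g * (-T ^ ε * (1 + a / T)) := mul_le_mul_of_nonneg_left hr (by linarith)
    _ = -s * (s * g * (1 + a / T)) := by
      rw [h1]
      ring
    _ ≤ -s * (1 + b / T) := by
      have := mul_le_mul_of_nonneg_left h5 h4.le
      linarith

private theorem large {ε : ℝ} (hε : 0 < ε) (K : ℝ) :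
    ∀ᶠ T : ℝ in Filter.atTop, 0 < T ∧ 1 + K ≤ T ^ (ε / 2) :=
  (Filter.eventually_gt_atTop 0).and
    ((tendsto_rpow_atTop (half_pos hε)).eventually_ge_atTop (1 + K))

theorem growth_scale {n : ℕ} (F : MvPolynomial (Fin n) ℂ) (v v' : Fin n → ℤ) (g : ℤ) (hg : 0 < g)
    (hv : ∀ j, v j = g * v' j) (h : Growth F v) : Growth F v' := by
  obtain ⟨ε, O, hε, hO, hne, H⟩ := h
  refine ⟨ε / 2, O, half_pos hε, hO, hne, fun y hy => ?_⟩
  have hg1 : (1 : ℝ) ≤ g := by exact_mod_cast hg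
  refine ((H y hy).and_eventually (large hε 0)).mono ?_
  rintro T ⟨⟨τ, hτ, hre⟩, hT, hTK⟩
  refine ⟨(g : ℂ) * τ, ?_, ?_⟩
  · have e : (fun j => Complex.I * T * y j + (g : ℂ) * τ * v' j) =
        fun j => Complex.I * T * y j + τ * v j := by
      funext j
      rw [hv j]
      push_cast
      ring
    rw [e]
    exact hτ
  · have h1 : ((g : ℂ) * τ).re = g * τ.re := by simp
    have h2 : ‖(g : ℂ) * τ‖ = g * ‖τ‖ := by
      rw [norm_mul, Complex.norm_intCast, abs_of_nonneg (by linarith)]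
    rw [h1, h2]
    exact core hT hg1 le_rfl hTK (norm_nonneg τ) (by linarith) hre

theorem growth_sub {k : Subfield ℂ} {m : ℕ} (U : Matrix (Fin (m + 1)) (Fin (m + 1)) ℤ)
    (hU : IsUnit U.det) (v : Fin (m + 1) → ℤ) (h0 : 0 < ∑ i, U 0 i * v i)
    (h1 : ∀ j : Fin m, ∑ i, U j.succ i * v i = 0) (F : MvPolynomial (Fin (m + 1)) k)
    (hF : Growth (map (algebraMap k ℂ) F) v) : GrowthN (map (algebraMap k ℂ) (sub U F)) := by
  obtain ⟨ε, O, hε, hO, hne, H⟩ := hF
  set g : ℤ := ∑ i, U 0 i * v i with hg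
  have hg1 : (1 : ℝ) ≤ g := by exact_mod_cast h0
  -- the linear map `y ↦ (U y) ∘ succ`
  let UR : Matrix (Fin (m + 1)) (Fin (m + 1)) ℝ := U.map (Int.castRingHom ℝ)
  have hUR : IsUnit UR.det := by
    have : UR.det = Int.castRingHom ℝ U.det := by
      rw [RingHom.map_det]
      rfl
    rw [this]
    exact hU.map _
  let Λ : (Fin (m + 1) → ℝ) →ₗ[ℝ] (Fin m → ℝ) :=
    (LinearMap.funLeft ℝ ℝ Fin.succ).comp (Matrix.mulVecLin UR)
  have hΛ : ∀ y j, Λ y j = ∑ i, (U j.succ i : ℝ) * y i := by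
    intro y j
    rfl
  have hsurj : Function.Surjective Λ := by
    intro z
    refine ⟨UR⁻¹.mulVec (Fin.cons 0 z), ?_⟩
    funext j
    show (UR.mulVec (UR⁻¹.mulVec (Fin.cons 0 z))) j.succ = z j
    rw [Matrix.mulVec_mulVec, Matrix.mul_nonsing_inv _ hUR, Matrix.one_mulVec, Fin.cons_succ]
  have hopen : IsOpenMap Λ := LinearMap.isOpenMap_of_finiteDimensional Λ hsurj
  refine ⟨ε / 2, Λ '' O, half_pos hε, hopen O hO, hne.image _, ?_⟩
  rintro _ ⟨y, hy, rfl⟩
  set Y0 : ℝ := ∑ i, (U 0 i : ℝ) * y i with hY0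
  refine ((H y hy).and_eventually (large hε |Y0|)).mono ?_
  rintro T ⟨⟨τ, hτ, hre⟩, hT, hTK⟩
  have key : (Fin.cons (Complex.I * T * Y0 + τ * g) (fun j : Fin m => Complex.I * T * (Λ y j : ℝ)) :
      Fin (m + 1) → ℂ) = linZ U (fun j => Complex.I * T * y j + τ * v j) := by
    have h2 : ∀ j, linZ U (fun j => Complex.I * T * y j + τ * v j) j =
        Complex.I * T * ((∑ i, (U j i : ℝ) * y i : ℝ) : ℂ) + τ * ((∑ i, U j i * v i : ℤ) : ℂ) := by
      intro j
      unfold linZ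
      push_cast
      rw [Finset.mul_sum, Finset.mul_sum, ← Finset.sum_add_distrib]
      refine Finset.sum_congr rfl fun i _ => ?_
      ring
    funext j
    rw [h2 j]
    refine Fin.cases ?_ (fun j => ?_) j
    · rw [Fin.cons_zero]
    · rw [Fin.cons_succ, h1 j, hΛ]
      simp
  refine ⟨Complex.I * T * Y0 + τ * g, ?_, ?_⟩
  · rw [key, eval_map, ← aeval_def, aeval_sub U hU, aeval_def, ← eval_map]
    exact hτ
  · have h3 : (Complex.I * T * Y0 + τ * g).re = g * τ.re := by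
      simp
      ring
    have h4 : ‖Complex.I * T * Y0 + τ * g‖ ≤ |Y0| * T + g * ‖τ‖ := by
      refine (norm_add_le _ _).trans ?_
      rw [norm_mul, norm_mul, norm_mul, Complex.norm_I, one_mul, Complex.norm_real,
        Complex.norm_real, Complex.norm_intCast, Real.norm_eq_abs, Real.norm_eq_abs,
        abs_of_pos hT, abs_of_nonneg (by linarith : (0 : ℝ) ≤ (g : ℝ))]
      linarith
    rw [h3]
    exact core hT hg1 (abs_nonneg _) hTK (norm_nonneg τ) h4 hre
end Pool.Agent.EXK2
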