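import Pool.Agent.EXK2.Nf
import Pool.Agent.EXK2.Lin
import Pool.Agent.EXK2.Asm
import Pool.Agent.EXK.KRe
import Pool.Agent.EXL.Aut
import Pool.Agent.EXJ.JUni
import Pool.Agent.EXI.CTd

/-!
# EXK2 / Concl: the theorem for a tuple of complex numbers and a given place
-/

set_option autoImplicit false

namespace Pool.Agent.EXK2

open MvPolynomial Pool.Agent.EXL Pool.Agent.EXI Pool.Agent.EXK

private theorem fg_adjoin (k : Subfield ℂ) {ι : Type} [Fintype ι] (z : ι → ℂ) :
    ∃ S : Finset (IntermediateField.adjoin k (Set.range z)),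
      IntermediateField.adjoin k (S : Set (IntermediateField.adjoin k (Set.range z))) = ⊤ := by
  classical
  set K := IntermediateField.adjoin k (Set.range z) with hK
  have hz : ∀ i, z i ∈ K := fun i => IntermediateField.subset_adjoin k _ ⟨i, rfl⟩
  refine ⟨Finset.univ.image (fun i => (⟨z i, hz i⟩ : K)), ?_⟩
  rw [eq_top_iff]
  intro x _
  set L := IntermediateField.adjoin k
    ((Finset.univ.image (fun i => (⟨z i, hz i⟩ : K)) : Finset K) : Set K) with hL
  have h1 : K ≤ L.map K.val := by
    refine IntermediateField.adjoin_le_iff.2 ?_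
    rintro _ ⟨i, rfl⟩
    refine ⟨⟨z i, hz i⟩, ?_, rfl⟩
    apply IntermediateField.subset_adjoin
    simp
  obtain ⟨y, hy, hyx⟩ := h1 x.2
  have : y = x := Subtype.ext hyx
  rw [← this]
  exact hy

/-- A polynomial without `X 0` does not depend on the first coordinate. -/
private theorem aeval_cons_eq {k : Subfield ℂ} {m : ℕ} (G : MvPolynomial (Fin (m + 1)) k)
    (hG : degreeOf 0 G = 0) (x x' : ℂ) (z : Fin m → ℂ) :
    aeval (Fin.cons x z : Fin (m + 1) → ℂ) G = aeval (Fin.cons x' z : Fin (m + 1) → ℂ) G := by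
  refine MvPolynomial.eval₂Hom_congr' rfl ?_ rfl
  intro i hi _
  rcases Fin.eq_zero_or_eq_succ i with rfl | ⟨j, rfl⟩
  · exfalso
    obtain ⟨e, he, h0⟩ := (MvPolynomial.mem_vars_iff_mem_support _).1 hi
    have h1 := MvPolynomial.monomial_le_degreeOf 0 he
    rw [hG] at h1
    exact Finsupp.mem_support_iff.1 h0 (Nat.le_zero.1 h1)
  · rw [Fin.cons_succ, Fin.cons_succ]

private theorem eval_map_aeval {k : Subfield ℂ} {n : ℕ} (x : Fin n → ℂ)
    (F : MvPolynomial (Fin n) k) : eval x (map (algebraMap k ℂ) F) = aeval x F := by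
  rw [eval_map, aeval_def]

private theorem cons_congr {k : Subfield ℂ} {m : ℕ} (G : MvPolynomial (Fin (m + 1)) k) (x : ℂ)
    (z z' : Fin m → ℂ) (h : ∀ j, z j = z' j) :
    aeval (Fin.cons x z : Fin (m + 1) → ℂ) G = aeval (Fin.cons x z' : Fin (m + 1) → ℂ) G := by
  rw [show z = z' from funext h]

/-- The restriction of a polynomial to a line through the origin. -/
private theorem line_poly {k : Subfield ℂ} {m : ℕ} (z : Fin m → ℂ)
    (G : MvPolynomial (Fin (m + 1)) k) :
    ∃ p : Polynomial ℂ, ∀ T : ℂ,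
      p.eval T = aeval (Fin.cons 0 (fun j => T * z j) : Fin (m + 1) → ℂ) G := by
  induction G using MvPolynomial.induction_on with
  | C c => exact ⟨Polynomial.C (c : ℂ), fun T => by rw [Polynomial.eval_C, aeval_C]; rfl⟩
  | add p q hp hq =>
    obtain ⟨p', hp'⟩ := hp
    obtain ⟨q', hq'⟩ := hq
    exact ⟨p' + q', fun T => by rw [Polynomial.eval_add, map_add, hp', hq']⟩
  | mul_X p i hp =>
    obtain ⟨p', hp'⟩ := hp
    rcases Fin.eq_zero_or_eq_succ i with rfl | ⟨j, rfl⟩
    · exact ⟨0, fun T => by rw [map_mul, aeval_X, Fin.cons_zero, mul_zero, Polynomial.eval_zero]⟩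
    · refine ⟨p' * (Polynomial.X * Polynomial.C (z j)), fun T => ?_⟩
      rw [map_mul, aeval_X, Fin.cons_succ, Polynomial.eval_mul, hp', Polynomial.eval_mul,
        Polynomial.eval_X, Polynomial.eval_C]

/-- A polynomial with arbitrarily large real zeros is zero. -/
private theorem poly_zero_of_freq (p : Polynomial ℂ)
    (h : ∃ᶠ T : ℝ in Filter.atTop, p.eval (T : ℂ) = 0) : p = 0 := by
  by_contra hp
  have h1 : {T : ℝ | p.eval (T : ℂ) = 0}.Finite := by
    have h2 : {z : ℂ | p.eval z = 0}.Finite := by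
      refine (p.roots.toFinset.finite_toSet).subset ?_
      intro z hz
      rw [Finset.mem_coe, Multiset.mem_toFinset, Polynomial.mem_roots hp]
      exact hz
    exact h2.preimage (Complex.ofReal_injective.injOn)
  obtain ⟨M, hM⟩ := h1.bddAbove
  obtain ⟨T, h3, h4⟩ := (h.and_eventually (Filter.eventually_gt_atTop M)).exists
  exact absurd (hM h3) (not_le.2 h4)

/-- If `G` has no `X 0` and vanishes over `i ℝ^m` near a point and arbitrarily far, then `G = 0`. -/
private theorem zero_of_growth {k : Subfield ℂ} {m : ℕ} (G : MvPolynomial (Fin (m + 1)) k)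
    (hG : degreeOf 0 G = 0) (y0 : Fin m → ℝ) (δ : ℝ) (hδ : 0 < δ)
    (h : ∀ y : Fin m → ℝ, (∀ j, |y j - y0 j| < δ) → ∃ᶠ T : ℝ in Filter.atTop, ∃ x : ℂ,
      eval (Fin.cons x (fun j => Complex.I * T * y j) : Fin (m + 1) → ℂ)
        (map (algebraMap k ℂ) G) = 0) : G = 0 := by
  have h1 : ∀ (x : ℂ) (y : Fin m → ℝ), (∀ j, |y j - y0 j| < δ) →
      aeval (Fin.cons x (fun j => Complex.I * (y j : ℂ)) : Fin (m + 1) → ℂ) G = 0 := by
    intro x y hy
    obtain ⟨p, hp⟩ := line_poly (fun j => Complex.I * (y j : ℂ)) G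
    have hp0 : p = 0 := by
      apply poly_zero_of_freq
      refine (h y hy).mono ?_
      rintro T ⟨x', hx'⟩
      rw [hp, ← aeval_cons_eq G hG x' 0]
      rw [eval_map_aeval] at hx'
      rw [← hx']
      exact cons_congr G _ _ _ fun j => by ring
    have h2 := hp 1
    rw [hp0, Polynomial.eval_zero] at h2
    rw [aeval_cons_eq G hG x 0]
    exact (cons_congr G _ _ _ fun j => (one_mul _).symm).trans h2.symm
  have h2 : map (algebraMap k ℂ) G = 0 := by
    refine MvPolynomial.funext_set (fun i : Fin (m + 1) => Fin.cases (motive := fun _ => Set ℂ)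
      Set.univ (fun j => (fun t : ℝ => Complex.I * (t : ℂ)) '' Set.Ioo (y0 j - δ) (y0 j + δ)) i)
      ?_ ?_
    · intro i
      rcases Fin.eq_zero_or_eq_succ i with rfl | ⟨j, rfl⟩
      · exact Set.infinite_univ
      · refine Set.Infinite.image ?_ (Set.Ioo_infinite (by linarith))
        intro s _ t _ hst
        have := mul_left_cancel₀ Complex.I_ne_zero hst
        exact_mod_cast this
    · intro x hx
      rw [map_zero]
      have h3 : ∀ j : Fin m, ∃ t : ℝ, |t - y0 j| < δ ∧ Complex.I * (t : ℂ) = x j.succ := by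
        intro j
        obtain ⟨t, ht, hte⟩ := hx j.succ (Set.mem_univ _)
        exact ⟨t, by rw [abs_lt]; constructor <;> linarith [ht.1, ht.2], hte⟩
      choose t ht hte using h3
      have h4 := h1 (x 0) t ht
      rw [eval_map_aeval]
      rw [← h4]
      congr 2
      funext i
      rcases Fin.eq_zero_or_eq_succ i with rfl | ⟨j, rfl⟩
      · rfl
      · rw [Fin.cons_succ, hte]
  have h3 : Function.Injective (map (algebraMap k ℂ) : MvPolynomial (Fin (m + 1)) k →+* _) :=
    map_injective _ (algebraMap k ℂ).injective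
  exact h3 (by rw [h2, map_zero])

theorem concl_codim2 (k : Subfield ℂ) (hk : (k : Set ℂ).Countable) {m : ℕ}
    (a b : Fin (m + 1) → ℂ) (hb : ∀ j, b j ≠ 0) (F : MvPolynomial (Fin (m + 1)) k)
    (hF : ∀ f : MvPolynomial (Fin (m + 1)) k, aeval a f = 0 ↔ F ∣ f)
    (htd : td (k : Set ℂ) (Sum.elim a b) = m + 1) (hta : td (k : Set ℂ) a = m)
    (pl : Place k (IntermediateField.adjoin k (Set.range (Sum.elim a b))))
    (A B : Fin (m + 1) → IntermediateField.adjoin k (Set.range (Sum.elim a b)))
    (v : Fin (m + 1) → ℤ) (θ : Fin (m + 1) → pl.O) (hA : ∀ j, (A j : ℂ) = a j)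
    (hB : ∀ j, (B j : ℂ) = b j) (hθ : ∀ j, (θ j :
        IntermediateField.adjoin k (Set.range (Sum.elim a b))) = A j)
    (hrel : ∀ f : MvPolynomial (Fin (m + 1)) k, aeval (fun j => pl.ρ (θ j)) f = 0 ↔ aeval a f = 0)
    (hv : v ≠ 0) (hε : ∀ j, ∃ ε : pl.O, pl.ρ ε ≠ 0 ∧ B j = pl.t ^ v j * ε)
    (hG : Growth (map (algebraMap k ℂ) F) v)
    (h : MvPolynomial (Fin (m + 1) ⊕ Fin (m + 1)) k) (hh : aeval (Sum.elim a b) h ≠ 0) :
    ∃ a' b' : Fin (m + 1) → ℂ, (∀ j, b' j = Complex.exp (a' j)) ∧
      Spec k (Sum.elim a b) (Sum.elim a' b') ∧ aeval (Sum.elim a' b') h ≠ 0 := by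
  obtain ⟨U, hU, h0, h1, A', B', hA', hB', hρ0, hρ1, hrel'⟩ :=
    nf_of_pl k a b hb pl A B v θ hA hB hθ hrel hv hε
  have hF' : ∀ f : MvPolynomial (Fin (m + 1)) k,
      aeval (fun j => pl.ρ (A' j)) f = 0 ↔ sub U F ∣ f :=
    fun f => (hrel' f).trans (ker_sub U hU a F hF f)
  obtain ⟨ε, O, hε0, hO, ⟨y0, hy0⟩, hgr⟩ := growth_sub U hU v h0 h1 F hG
  obtain ⟨δ, hδ, hball⟩ := Metric.isOpen_iff.1 hO y0 hy0
  have hmem : ∀ y : Fin m → ℝ, (∀ j, |y j - y0 j| < δ) → y ∈ O := by
    intro y hy
    apply hball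
    rw [Metric.mem_ball, dist_pi_lt_iff hδ]
    intro j
    rw [Real.dist_eq]
    exact hy j
  obtain ⟨z, hz, hindz⟩ := exists_ind_near k hk y0 δ hδ
  have hzO := hmem z hz
  set α' : Fin m → ℂ := fun j => Complex.I * (z j : ℂ) with hα'
  -- the residues of `A' (j + 1)` are algebraically independent
  have hind : AlgebraicIndependent k (fun j : Fin m => pl.ρ (A' j.succ)) := by
    rw [algebraicIndependent_iff]
    intro f hf
    by_contra hf0
    have h2 : aeval (fun j => pl.ρ (A' j)) (rename Fin.succ f) = 0 := by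
      rw [aeval_rename]
      exact hf
    obtain ⟨q, hq⟩ := (hF' _).1 h2
    have hr0 : rename Fin.succ f ≠ (0 : MvPolynomial (Fin (m + 1)) k) := by
      intro h3
      apply hf0
      exact (rename_injective _ (Fin.succ_injective m)) (by rw [h3, map_zero])
    have hF0 : sub U F ≠ 0 := by
      intro h3
      rw [h3, zero_mul] at hq
      exact hr0 hq
    have hq0 : q ≠ 0 := by
      rintro rfl
      rw [mul_zero] at hq
      exact hr0 hq
    have h3 : degreeOf 0 (sub U F * q) = degreeOf 0 (sub U F) + degreeOf 0 q :=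
      degreeOf_mul_eq hF0 hq0
    have h4 : degreeOf 0 (rename Fin.succ f : MvPolynomial (Fin (m + 1)) k) = 0 := by
      classical
      apply Nat.le_zero.1
      rw [degreeOf_le_iff]
      intro e he
      obtain ⟨e', h5, -⟩ := coeff_rename_ne_zero _ _ _ (mem_support_iff.1 he)
      rw [← h5, Finsupp.mapDomain_of_notMem_range]
      rintro ⟨j, hj⟩
      exact Fin.succ_ne_zero j hj
    rw [← hq, h4] at h3
    apply hF0
    refine zero_of_growth (sub U F) (by omega) y0 δ hδ ?_
    intro y hy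
    refine (hgr y (hmem y hy)).mono ?_
    rintro T ⟨x, hx, -⟩
    exact ⟨x, hx⟩
  obtain ⟨τ, hτ, hτ'⟩ := exists_aut k hk (fun j : Fin m => pl.ρ (A' j.succ)) α' (by
    intro f
    constructor
    · intro hf
      rw [algebraicIndependent_iff.1 hind f hf, map_zero]
    · intro hf
      rw [algebraicIndependent_iff.1 hindz f hf, map_zero])
  have hcl : EXJ.Concl (1 : AddChar ℤ ℂ) k (linZ U a) (powZ U b) := by
    intro h hh
    have hval : ∀ f : MvPolynomial (Fin (m + 1) ⊕ Fin (m + 1)) k,
        aeval (Sum.elim (linZ U a) (powZ U b)) f =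
        ((aeval (Sum.elim
          (fun j => (A' j : IntermediateField.adjoin k (Set.range (Sum.elim a b))))
          fun j => (B' j : IntermediateField.adjoin k (Set.range (Sum.elim a b)))) f :
          IntermediateField.adjoin k (Set.range (Sum.elim a b))) : ℂ) := by
      intro f
      have h1 := aeval_algebraMap_apply (R := k) ℂ (Sum.elim
          (fun j => (A' j : IntermediateField.adjoin k (Set.range (Sum.elim a b))))
          fun j => (B' j : IntermediateField.adjoin k (Set.range (Sum.elim a b)))) f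
      refine Eq.trans ?_ h1
      congr 2
      funext i
      rcases i with i | i
      · exact (hA' i).symm
      · exact (hB' i).symm
    have hB0 : ((B' 0 : pl.O) : IntermediateField.adjoin k (Set.range (Sum.elim a b))) ≠ 0 := by
      intro hz
      have h1 := hB' 0
      rw [hz] at h1
      have h2 : powZ U b 0 ≠ 0 := by
        unfold powZ
        exact Finset.prod_ne_zero_iff.2 fun i _ => zpow_ne_zero _ (hb i)
      exact h2 (by rw [← h1]; rfl)
    have hα : (fun j : Fin m => (conj pl τ hτ).ρ (A' j.succ)) = α' := by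
      funext j
      exact hτ' j
    have hαj : ∀ j : Fin m, (conj pl τ hτ).ρ (A' j.succ) = Complex.I * (z j : ℂ) :=
      fun j => congrFun hα j
    obtain ⟨a', b', hs, hsp, hne⟩ := concl_nf2 hk (conj pl τ hτ) (fg_adjoin k _)
      (td_not_ind k (Sum.elim a b) htd) A' B' hB0
      (by
        change τ (pl.ρ (B' 0)) = 0
        rw [hρ0, map_zero])
      (fun j => by
        change τ (pl.ρ (B' j.succ)) ≠ 0
        exact fun hz => hρ1 j ((map_eq_zero_iff τ τ.injective).1 hz))
      (sub U F) (fun f => (conj_rel pl τ hτ A' f).trans (hF' f)) (by rw [hα]; exact hindz)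
      (fun j => by
        rw [hαj j]
        simp) ε hε0
      (by
        refine (hgr z hzO).mono ?_
        rintro T ⟨x, hx, hxr⟩
        refine ⟨x, ?_, hxr⟩
        rw [eval_map_aeval] at hx
        rw [← hx]
        exact cons_congr (sub U F) _ _ _ fun j => by rw [hαj j]; ring) h (by
        intro hz
        apply hh
        rw [hval, hz]
        rfl)
    refine ⟨a', b', ⟨0, fun j => ?_⟩, ?_, hne⟩
    · rw [hs j]
      simp
    · intro f hf
      apply hsp
      rw [hval] at hf
      exact Subtype.ext hf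
  obtain ⟨a', b', ⟨q, hq⟩, hsp, hne⟩ := EXJ.concl_uni (1 : AddChar ℤ ℂ) k a b hb U hU hcl h hh
  refine ⟨a', b', fun j => ?_, hsp, hne⟩
  rw [hq j]
  simp

end Pool.Agent.EXK2
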