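import Pool.Agent.EXK2.Defs
import Pool.Agent.EXK.KPert

/-!
# EXK2 / Pert: `two_chart` with the value at `t = 0`

The same construction as in `EXK/KPert.lean` with one more conclusion: at `t = 0` the point `X'` is the
base point, so `W j (y, s, 0) = V j (y, s)`.
-/

set_option autoImplicit false

namespace Pool.Agent.EXK2

open MvPolynomial Pool.Agent.EXL Pool.Agent.EXI Pool.Agent.EXK Topology

/-- The space of the `(y, s, z, w)`. -/
private abbrev Q4 (m : ℕ) : Type := (Fin m → ℂ) × ℂ × ℂ × ℂ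

/-- `s ^ n F` is `C^1` at `(α, 0, 0, 0)` -/
private def Cl {m : ℕ} (α : Fin m → ℂ) (n : ℕ) (F : Q4 m → ℂ) : Prop :=
  ∃ F' : Q4 m → ℂ, ContDiffAt ℂ 1 F' (α, 0, 0, 0) ∧
    ∀ᶠ q : Q4 m in 𝓝 (α, 0, 0, 0), q.2.1 ≠ 0 → q.2.1 ^ n * F q = F' q

private def CE {m : ℕ} (α : Fin m → ℂ) (F : Q4 m → ℂ) : Prop := ∃ n, Cl α n F

section cl

variable {m : ℕ} {α : Fin m → ℂ}

private theorem s_cd : ContDiff ℂ 1 (fun q : Q4 m => q.2.1) := contDiff_fst.comp contDiff_snd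

private theorem Cl.mono {n n' : ℕ} {F : Q4 m → ℂ} (h : Cl α n F) (hn : n ≤ n') : Cl α n' F := by
  obtain ⟨F', h1, h2⟩ := h
  refine ⟨fun q => q.2.1 ^ (n' - n) * F' q, (s_cd.contDiffAt.pow _).mul h1, ?_⟩
  filter_upwards [h2] with q hq hs
  rw [← hq hs, ← mul_assoc, ← pow_add, Nat.sub_add_cancel hn]

private theorem CE.smooth {F : Q4 m → ℂ} (h : ContDiffAt ℂ 1 F (α, 0, 0, 0)) : CE α F :=
  ⟨0, F, h, Filter.Eventually.of_forall fun q _ => by rw [pow_zero, one_mul]⟩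

private theorem CE.const (c : ℂ) : CE α (fun _ => c) := CE.smooth contDiffAt_const

private theorem CE.add {F G : Q4 m → ℂ} (hF : CE α F) (hG : CE α G) :
    CE α (fun q => F q + G q) := by
  obtain ⟨n, hn⟩ := hF
  obtain ⟨n', hn'⟩ := hG
  obtain ⟨F', h1, h2⟩ := hn.mono (Nat.le_add_right n n')
  obtain ⟨G', h3, h4⟩ := hn'.mono (Nat.le_add_left n' n)
  refine ⟨n + n', fun q => F' q + G' q, h1.add h3, ?_⟩
  filter_upwards [h2, h4] with q hq hq' hs
  rw [← hq hs, ← hq' hs, mul_add]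

private theorem CE.mul {F G : Q4 m → ℂ} (hF : CE α F) (hG : CE α G) :
    CE α (fun q => F q * G q) := by
  obtain ⟨n, F', h1, h2⟩ := hF
  obtain ⟨n', G', h3, h4⟩ := hG
  refine ⟨n + n', fun q => F' q * G' q, h1.mul h3, ?_⟩
  filter_upwards [h2, h4] with q hq hq' hs
  rw [← hq hs, ← hq' hs, pow_add]
  ring

private theorem CE.zpow (ν : ℤ) : CE α (fun q => q.2.1 ^ ν) := by
  obtain ⟨n, rfl | rfl⟩ := ν.eq_nat_or_neg
  · refine CE.smooth ?_
    simp only [zpow_natCast]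
    exact s_cd.contDiffAt.pow _
  · refine ⟨n, fun _ => 1, contDiffAt_const, Filter.Eventually.of_forall fun q hs => ?_⟩
    show q.2.1 ^ n * q.2.1 ^ (-(n : ℤ)) = 1
    rw [zpow_neg, zpow_natCast]
    exact mul_inv_cancel₀ (pow_ne_zero _ hs)

variable {k : Subfield ℂ} {ι : Type}

private theorem CE.aeval (R : MvPolynomial ι k) (b : Q4 m → ι → ℂ)
    (hb : ∀ j, CE α (fun q => b q j)) : CE α (fun q => aeval (b q) R) := by
  induction R using MvPolynomial.induction_on with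
  | C c =>
    simp only [aeval_C]
    exact CE.const _
  | add p q hp hq =>
    simp only [map_add]
    exact hp.add hq
  | mul_X p i hp =>
    simp only [map_mul, aeval_X]
    exact hp.mul (hb i)

variable [DecidableEq ι]

/-- Taylor expansion of order two in one coordinate -/
private theorem tay (R : MvPolynomial ι k) (i : ι) (b : Q4 m → ι → ℂ)
    (hb : ∀ j, CE α (fun q => b q j)) (z : Q4 m → ℂ) (hz : CE α z) :
    ∃ T : Q4 m → ℂ, CE α T ∧ ∀ q, MvPolynomial.aeval (fun j => b q j + if j = i then z q else 0) R =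
      MvPolynomial.aeval (b q) R + z q * MvPolynomial.aeval (b q) (pderiv i R) + z q ^ 2 * T q := by
  induction R using MvPolynomial.induction_on with
  | C c =>
    refine ⟨fun _ => 0, CE.const 0, fun q => ?_⟩
    simp only [aeval_C, pderiv_C, map_zero]
    ring
  | add p q hp hq =>
    obtain ⟨T1, h1, h2⟩ := hp
    obtain ⟨T2, h3, h4⟩ := hq
    refine ⟨fun q => T1 q + T2 q, h1.add h3, fun q => ?_⟩
    simp only [map_add]
    rw [h2, h4]
    ring
  | mul_X p j hp =>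
    obtain ⟨T1, h1, h2⟩ := hp
    by_cases hj : j = i
    · subst hj
      refine ⟨fun q => T1 q * b q j + (MvPolynomial.aeval (b q) (pderiv j p) + z q * T1 q),
        (h1.mul (hb j)).add ((CE.aeval _ b hb).add (hz.mul h1)), fun q => ?_⟩
      simp only [map_mul, aeval_X, pderiv_mul, pderiv_X_self, map_add, map_one, if_true]
      rw [h2]
      ring
    · refine ⟨fun q => T1 q * b q j, h1.mul (hb j), fun q => ?_⟩
      have h3 : pderiv i (X j : MvPolynomial ι k) = 0 := pderiv_X_of_ne hj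
      simp only [map_mul, aeval_X, pderiv_mul, map_add, h3, map_zero, if_neg hj]
      rw [h2]
      ring

/-- Taylor expansion of order one in one coordinate -/
private theorem tay1 (R : MvPolynomial ι k) (i : ι) (b : Q4 m → ι → ℂ)
    (hb : ∀ j, CE α (fun q => b q j)) (z : Q4 m → ℂ) (hz : CE α z) :
    ∃ T : Q4 m → ℂ, CE α T ∧ ∀ q, MvPolynomial.aeval (fun j => b q j + if j = i then z q else 0) R =
      MvPolynomial.aeval (b q) R + z q * T q := by
  obtain ⟨T, h1, h2⟩ := tay R i b hb z hz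
  refine ⟨fun q => MvPolynomial.aeval (b q) (pderiv i R) + z q * T q,
    (CE.aeval _ b hb).add (hz.mul h1), fun q => ?_⟩
  rw [h2]
  ring

end cl

/-- the implicit function theorem for one unknown -/
private theorem kp_ift {E : Type*} [NormedAddCommGroup E] [NormedSpace ℂ E] [CompleteSpace E]
    (Φ : E × ℂ → ℂ) (x₀ : E) (h : ContDiffAt ℂ 1 Φ (x₀, 0)) (h0 : Φ (x₀, 0) = 0) (d : ℂ)
    (hd : d ≠ 0) (hder : HasDerivAt (fun w : ℂ => Φ (x₀, w)) d 0) :
    ∃ φ : E → ℂ, ContDiffAt ℂ 1 φ x₀ ∧ φ x₀ = 0 ∧ (∀ᶠ x in 𝓝 x₀, Φ (x, φ x) = 0) ∧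
      ∀ᶠ x in 𝓝 x₀, Φ (x, 0) = 0 → φ x = 0 := by
  have hdf : HasFDerivAt Φ (fderiv ℂ Φ (x₀, 0)) (x₀, 0) :=
    (h.differentiableAt one_ne_zero).hasFDerivAt
  have hinr : HasFDerivAt (fun w : ℂ => ((x₀, w) : E × ℂ)) (ContinuousLinearMap.inr ℂ E ℂ) 0 :=
    hasFDerivAt_prodMk_right x₀ 0
  have hcomp := HasFDerivAt.comp (0 : ℂ) (g := Φ) hdf hinr
  have hcomp2 : HasFDerivAt (Φ ∘ fun w : ℂ => ((x₀, w) : E × ℂ))
      (ContinuousLinearMap.toSpanSingleton ℂ d) 0 := hder.hasFDerivAt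
  have heq := hcomp.unique hcomp2
  have hinv : (fderiv ℂ Φ (x₀, 0) ∘L .inr ℂ E ℂ).IsInvertible := by
    rw [heq]
    refine ⟨ContinuousLinearEquiv.unitsEquivAut ℂ (Units.mk0 _ hd), ?_⟩
    ext
    simp
  have e1 := h.eventually_apply_implicitFunction one_ne_zero hinv
  have e3 := h.contDiffAt_implicitFunction one_ne_zero hinv
  have e4 := h.implicitFunction_apply_self one_ne_zero hinv
  have e5 := h.eventually_apply_eq_iff_implicitFunction one_ne_zero hinv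
  have e6 : Filter.Tendsto (fun x : E => ((x, 0) : E × ℂ)) (𝓝 x₀) (𝓝 (x₀, 0)) :=
    (Continuous.prodMk continuous_id continuous_const).tendsto' _ _ rfl
  refine ⟨h.implicitFunction one_ne_zero hinv, e3, e4, ?_, ?_⟩
  · filter_upwards [e1] with x hx
    rw [hx, h0]
  · filter_upwards [e6.eventually e5] with x hx hx0
    exact hx.1 (by rw [hx0, h0])

private theorem kp_zp {s : ℂ} (hs : s ≠ 0) {ν : ℤ} {e n b : ℕ} (h : ν + e + n = b) :
    s ^ ν * s ^ e * s ^ n = s ^ b := by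
  rw [← zpow_natCast s e, ← zpow_natCast s n, ← zpow_natCast s b, ← zpow_add₀ hs,
    ← zpow_add₀ hs, h]

theorem two_chart2 {k : Subfield ℂ} {m N : ℕ} (P : MvPolynomial (Fin (m + 1)) k)
    (G : MvPolynomial (Option (Fin (m + 1))) k)
    (Q : Fin N → MvPolynomial (Option (Fin (m + 1))) k) (i1 i2 iP iG : Fin N) (c1 c2 : ℂ)
    (hP : Q iP = rename some (pderiv (Fin.last m) P)) (hG : Q iG = pderiv none G)
    (α : Fin m → ℂ) (e : ℕ) (he : 1 ≤ e) (ν : Fin N → ℤ) (V : Fin N → (Fin m → ℂ) × ℂ → ℂ)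
    (hV : ∀ j, ContDiffAt ℂ 1 (V j) (α, 0)) (hV0 : ∀ j, V j (α, 0) ≠ 0)
    (hbase : ∀ᶠ p : (Fin m → ℂ) × ℂ in 𝓝 (α, 0), p.2 ≠ 0 →
      aeval (base e (ν i1) (ν i2) c1 c2 (V i1) (V i2) p) (rename some P) = 0 ∧
      aeval (base e (ν i1) (ν i2) c1 c2 (V i1) (V i2) p) G = 0 ∧
      ∀ j, aeval (base e (ν i1) (ν i2) c1 c2 (V i1) (V i2) p) (Q j) = p.2 ^ ν j * V j p) :
    ∃ (M : ℕ) (X' : (Fin m → ℂ) × ℂ × ℂ → Option (Fin (m + 1)) → ℂ)
      (W : Fin N → (Fin m → ℂ) × ℂ × ℂ → ℂ),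
      (∀ j, ContDiffAt ℂ 1 (W j) (α, 0, 0)) ∧ (∀ j, W j (α, 0, 0) = V j (α, 0)) ∧
      (∀ᶠ p : (Fin m → ℂ) × ℂ in 𝓝 (α, 0), p.2 ≠ 0 → ∀ j, W j (p.1, p.2, 0) = V j p) ∧
      ∀ᶠ p : (Fin m → ℂ) × ℂ × ℂ in 𝓝 (α, 0, 0), p.2.1 ≠ 0 →
        (∀ j : Fin m, X' p (some j.castSucc) = p.1 j * (p.2.1⁻¹) ^ e) ∧
        aeval (X' p) (rename some P) = p.2.1 ^ M * p.2.2 ∧ aeval (X' p) G = 0 ∧
        ∀ j, aeval (X' p) (Q j) = p.2.1 ^ ν j * W j p := by
  classical
  -- the base point and the coordinates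
  set B : Q4 m → Option (Fin (m + 1)) → ℂ :=
    fun q => base e (ν i1) (ν i2) c1 c2 (V i1) (V i2) (q.1, q.2.1) with hB
  have hVQ : ∀ j, CE α (fun q : Q4 m => V j (q.1, q.2.1)) := fun j => CE.smooth <| by
    refine ContDiffAt.comp (g := V j) (α, (0 : ℂ), (0 : ℂ), (0 : ℂ)) ?_
      (contDiff_fst.prodMk s_cd).contDiffAt
    exact hV j
  have hBc : ∀ i, CE α (fun q => B q i) := by
    intro i
    cases i with
    | none =>
      have : (fun q : Q4 m => B q none) = fun q => q.2.1 ^ ν i2 * V i2 (q.1, q.2.1) + (-c2) := by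
        funext q
        show q.2.1 ^ ν i2 * V i2 (q.1, q.2.1) - c2 = _
        ring
      rw [this]
      exact ((CE.zpow _).mul (hVQ _)).add (CE.const _)
    | some i =>
      refine Fin.lastCases ?_ (fun j => ?_) i
      · have : (fun q : Q4 m => B q (some (Fin.last m))) =
            fun q => q.2.1 ^ ν i1 * V i1 (q.1, q.2.1) + (-c1) := by
          funext q
          show (Fin.snoc (fun j => q.1 j * (q.2.1⁻¹) ^ e)
            (q.2.1 ^ ν i1 * V i1 (q.1, q.2.1) - c1) : Fin (m + 1) → ℂ) (Fin.last m) = _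
          rw [Fin.snoc_last]
          ring
        rw [this]
        exact ((CE.zpow _).mul (hVQ _)).add (CE.const _)
      · have : (fun q : Q4 m => B q (some j.castSucc)) =
            fun q => q.1 j * q.2.1 ^ (-(e : ℤ)) := by
          funext q
          show (Fin.snoc (fun j => q.1 j * (q.2.1⁻¹) ^ e)
            (q.2.1 ^ ν i1 * V i1 (q.1, q.2.1) - c1) : Fin (m + 1) → ℂ) j.castSucc = _
          rw [Fin.snoc_castSucc, zpow_neg, zpow_natCast, inv_pow]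
        rw [this]
        exact (CE.smooth ((contDiff_apply ℂ ℂ j).comp contDiff_fst).contDiffAt).mul (CE.zpow _)
  have hz : CE α (fun q : Q4 m => q.2.2.1) :=
    CE.smooth (contDiff_fst.comp (contDiff_snd.comp contDiff_snd)).contDiffAt
  have hw : CE α (fun q : Q4 m => q.2.2.2) :=
    CE.smooth (contDiff_snd.comp (contDiff_snd.comp contDiff_snd)).contDiffAt
  set B1 : Q4 m → Option (Fin (m + 1)) → ℂ :=
    fun q j => B q j + if j = none then q.2.2.2 else 0 with hB1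
  have hB1c : ∀ i, CE α (fun q => B1 q i) := by
    intro i
    refine (hBc i).add ?_
    by_cases h : i = none
    · simp only [h, if_true]; exact hw
    · simp only [h, if_false]; exact CE.const 0
  obtain ⟨TP, hTP, eTP⟩ := tay (rename some P) (some (Fin.last m)) B hBc _ hz
  obtain ⟨TG, hTG, eTG⟩ := tay G none B hBc _ hw
  obtain ⟨UG, hUG, eUG⟩ := tay1 G (some (Fin.last m)) B1 hB1c _ hz
  have hQ1 := fun j => tay1 (Q j) none B hBc _ hw
  choose T1 hT1 eT1 using hQ1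
  have hQ2 := fun j => tay1 (Q j) (some (Fin.last m)) B1 hB1c _ hz
  choose T2 hT2 eT2 using hQ2
  obtain ⟨nP, hnP⟩ := hTP
  obtain ⟨nG, hnG⟩ := hTG
  obtain ⟨nU, hnU⟩ := hUG
  choose n1 hn1 using hT1
  choose n2 hn2 using hT2
  set n := nP + nG + nU + ∑ j, n1 j + ∑ j, n2 j with hn
  obtain ⟨P', cP, eP⟩ := hnP.mono (show nP ≤ n by omega)
  obtain ⟨G', cG, eG⟩ := hnG.mono (show nG ≤ n by omega)
  obtain ⟨U', cU, eU⟩ := hnU.mono (show nU ≤ n by omega)
  have h1 : ∀ j, Cl α n (T1 j) := fun j => (hn1 j).mono <| by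
    have : n1 j ≤ ∑ j, n1 j := Finset.single_le_sum (fun _ _ => Nat.zero_le _) (Finset.mem_univ j)
    omega
  have h2 : ∀ j, Cl α n (T2 j) := fun j => (hn2 j).mono <| by
    have : n2 j ≤ ∑ j, n2 j := Finset.single_le_sum (fun _ _ => Nat.zero_le _) (Finset.mem_univ j)
    omega
  choose F1 c1' e1' using h1
  choose F2 c2' e2' using h2
  -- the exponents
  obtain ⟨D, hD⟩ : ∃ D : ℕ, ∀ j, |ν j| ≤ D := by
    refine ⟨∑ j, (ν j).natAbs, fun j => ?_⟩
    have : (ν j).natAbs ≤ ∑ j, (ν j).natAbs :=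
      Finset.single_le_sum (f := fun j => (ν j).natAbs) (fun _ _ => Nat.zero_le _)
        (Finset.mem_univ j)
    rw [Int.abs_eq_natAbs]
    exact_mod_cast this
  have hD' : ∀ j, ν j ≤ D ∧ -(D : ℤ) ≤ ν j := fun j => ⟨(abs_le.1 (hD j)).2, (abs_le.1 (hD j)).1⟩
  obtain ⟨b, hb⟩ : ∃ b : ℕ, b = n + D + 1 := ⟨_, rfl⟩
  obtain ⟨a, ha⟩ : ∃ a : ℕ, a = b + n + D + 1 := ⟨_, rfl⟩
  have hea : ∀ j, ∃ x : ℕ, 1 ≤ x ∧ ν j + x + n = a := by
    intro j
    have := hD' j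
    exact ⟨((a : ℤ) - n - ν j).toNat, by omega, by omega⟩
  have heb : ∀ j, ∃ x : ℕ, 1 ≤ x ∧ ν j + x + n = b := by
    intro j
    have := hD' j
    exact ⟨((b : ℤ) - n - ν j).toNat, by omega, by omega⟩
  obtain ⟨e2, he2, he2'⟩ : ∃ x : ℕ, 1 ≤ x ∧ ν iG + x + (b + n : ℕ) = a := by
    have := hD' iG
    exact ⟨((a : ℤ) - n - b - ν iG).toNat, by omega, by push_cast; omega⟩
  obtain ⟨M, hM⟩ : ∃ M : ℕ, (a : ℤ) + ν iP = M := by
    have := hD' iP
    exact ⟨((a : ℤ) + ν iP).toNat, by omega⟩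
  choose ea hea1 hea2 using hea
  choose eb heb1 heb2 using heb
  have hb1 : 1 ≤ b := by omega
  have ha1 : 1 ≤ a := by omega
  -- first unknown
  set Φ1 : ((Fin m → ℂ) × ℂ × ℂ) × ℂ → ℂ := fun x =>
    V iP (x.1.1, x.1.2.1) * x.2 + x.1.2.1 ^ ea iP * x.2 ^ 2 *
      P' (x.1.1, x.1.2.1, x.1.2.1 ^ a * x.2, 0) - x.1.2.2 with hΦ1
  have k1 : ContDiff ℂ 1 (fun x : ((Fin m → ℂ) × ℂ × ℂ) × ℂ => x.1.1) :=
    contDiff_fst.comp contDiff_fst
  have k2 : ContDiff ℂ 1 (fun x : ((Fin m → ℂ) × ℂ × ℂ) × ℂ => x.1.2.1) :=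
    contDiff_fst.comp (contDiff_snd.comp contDiff_fst)
  have k3 : ContDiff ℂ 1 (fun x : ((Fin m → ℂ) × ℂ × ℂ) × ℂ => x.1.2.2) :=
    contDiff_snd.comp (contDiff_snd.comp contDiff_fst)
  have k4 : ContDiff ℂ 1 (fun x : ((Fin m → ℂ) × ℂ × ℂ) × ℂ => x.2) := contDiff_snd
  have kV : ∀ j, ContDiffAt ℂ 1 (fun x : ((Fin m → ℂ) × ℂ × ℂ) × ℂ => V j (x.1.1, x.1.2.1))
      ((α, 0, 0), 0) := fun j => by
    refine ContDiffAt.comp (g := V j) ((α, (0 : ℂ), (0 : ℂ)), (0 : ℂ)) ?_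
      (k1.prodMk k2).contDiffAt
    exact hV j
  obtain ⟨ζ, hζ1, hζ2, hζ3, hζ4⟩ := kp_ift Φ1 (α, 0, 0) (by
      refine (((kV iP).mul k4.contDiffAt).add (((k2.contDiffAt.pow _).mul
        (k4.contDiffAt.pow 2)).mul ?_)).sub k3.contDiffAt
      refine ContDiffAt.comp (g := P') ((α, (0 : ℂ), (0 : ℂ)), (0 : ℂ)) ?_
        (k1.prodMk (k2.prodMk (((k2.pow a).mul k4).prodMk contDiff_const))).contDiffAt
      simpa using cP)
    (by simp [hΦ1]) (V iP (α, 0)) (hV0 iP) (by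
      have : (fun w : ℂ => Φ1 ((α, 0, 0), w)) = fun w => V iP (α, 0) * w := by
        funext w
        have h0 : (0 : ℂ) ^ ea iP = 0 := zero_pow (by have := hea1 iP; omega)
        simp only [hΦ1, h0]
        ring
      rw [this]
      simpa using (hasDerivAt_id (0 : ℂ)).const_mul (V iP (α, 0)))
  -- second unknown
  set Φ2 : ((Fin m → ℂ) × ℂ × ℂ) × ℂ → ℂ := fun x =>
    x.1.2.1 ^ e2 * ζ x.1 * U' (x.1.1, x.1.2.1, x.1.2.1 ^ a * ζ x.1, x.1.2.1 ^ b * x.2) +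
      V iG (x.1.1, x.1.2.1) * x.2 + x.1.2.1 ^ eb iG * x.2 ^ 2 *
      G' (x.1.1, x.1.2.1, x.1.2.1 ^ a * ζ x.1, x.1.2.1 ^ b * x.2) with hΦ2
  have kζ : ContDiffAt ℂ 1 (fun x : ((Fin m → ℂ) × ℂ × ℂ) × ℂ => ζ x.1) ((α, 0, 0), 0) :=
    ContDiffAt.comp (g := ζ) ((α, (0 : ℂ), (0 : ℂ)), (0 : ℂ)) hζ1 contDiffAt_fst
  have kq : ContDiffAt ℂ 1 (fun x : ((Fin m → ℂ) × ℂ × ℂ) × ℂ =>
      ((x.1.1, x.1.2.1, x.1.2.1 ^ a * ζ x.1, x.1.2.1 ^ b * x.2) : Q4 m)) ((α, 0, 0), 0) :=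
    k1.contDiffAt.prodMk (k2.contDiffAt.prodMk (((k2.contDiffAt.pow a).mul kζ).prodMk
      ((k2.contDiffAt.pow b).mul k4.contDiffAt)))
  have kcomp : ∀ F : Q4 m → ℂ, ContDiffAt ℂ 1 F (α, 0, 0, 0) →
      ContDiffAt ℂ 1 (fun x : ((Fin m → ℂ) × ℂ × ℂ) × ℂ =>
        F (x.1.1, x.1.2.1, x.1.2.1 ^ a * ζ x.1, x.1.2.1 ^ b * x.2)) ((α, 0, 0), 0) := by
    intro F hF
    refine ContDiffAt.comp (g := F) ((α, (0 : ℂ), (0 : ℂ)), (0 : ℂ)) ?_ kq
    simpa [hζ2] using hF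
  obtain ⟨ω, hω1, hω2, hω3, hω4⟩ := kp_ift Φ2 (α, 0, 0) (by
      exact ((((k2.contDiffAt.pow _).mul kζ).mul (kcomp U' cU)).add
        ((kV iG).mul k4.contDiffAt)).add (((k2.contDiffAt.pow _).mul
        (k4.contDiffAt.pow 2)).mul (kcomp G' cG)))
    (by simp [hΦ2, hζ2]) (V iG (α, 0)) (hV0 iG) (by
      have : (fun w : ℂ => Φ2 ((α, 0, 0), w)) = fun w => V iG (α, 0) * w := by
        funext w
        have h0 : (0 : ℂ) ^ eb iG = 0 := zero_pow (by have := heb1 iG; omega)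
        simp only [hΦ2, h0, hζ2]
        ring
      rw [this]
      simpa using (hasDerivAt_id (0 : ℂ)).const_mul (V iG (α, 0)))
  -- the point
  set q : (Fin m → ℂ) × ℂ × ℂ → Q4 m := fun p =>
    (p.1, p.2.1, p.2.1 ^ a * ζ p, p.2.1 ^ b * ω p) with hq
  have l2 : ContDiff ℂ 1 (fun x : (Fin m → ℂ) × ℂ × ℂ => x.2.1) := contDiff_fst.comp contDiff_snd
  have hqc : ContDiffAt ℂ 1 q (α, 0, 0) :=
    contDiffAt_fst.prodMk (l2.contDiffAt.prodMk (((l2.contDiffAt.pow a).mul hζ1).prodMk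
      ((l2.contDiffAt.pow b).mul hω1)))
  have hq0 : q (α, 0, 0) = (α, 0, 0, 0) := by simp [hq, hζ2, hω2]
  have hqt : Filter.Tendsto q (𝓝 (α, 0, 0)) (𝓝 (α, 0, 0, 0)) := by
    have := hqc.continuousAt.tendsto
    rwa [hq0] at this
  have hqF : ∀ F : Q4 m → ℂ, ContDiffAt ℂ 1 F (α, 0, 0, 0) →
      ContDiffAt ℂ 1 (fun p => F (q p)) (α, 0, 0) := by
    intro F hF
    refine ContDiffAt.comp (g := F) (α, (0 : ℂ), (0 : ℂ)) ?_ hqc
    rw [hq0]; exact hF
  set q' : (Fin m → ℂ) × ℂ × ℂ → Q4 m := fun p => (p.1, p.2.1, p.2.1 ^ a * ζ p, 0) with hq'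
  have hqt' : Filter.Tendsto q' (𝓝 (α, 0, 0)) (𝓝 (α, 0, 0, 0)) := by
    have h1 : ContDiffAt ℂ 1 q' (α, 0, 0) :=
      contDiffAt_fst.prodMk (l2.contDiffAt.prodMk (((l2.contDiffAt.pow a).mul hζ1).prodMk
        contDiffAt_const))
    have h2 := h1.continuousAt.tendsto
    have h3 : q' (α, 0, 0) = (α, 0, 0, 0) := by simp [hq', hζ2]
    rwa [h3] at h2
  have hbt : Filter.Tendsto (fun p : (Fin m → ℂ) × ℂ × ℂ => (p.1, p.2.1)) (𝓝 (α, 0, 0))
      (𝓝 (α, 0)) :=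
    (contDiff_fst.prodMk l2).continuous.tendsto _
  refine ⟨M, fun p j => B1 (q p) j + if j = some (Fin.last m) then p.2.1 ^ a * ζ p else 0,
    fun j p => V j (p.1, p.2.1) + p.2.1 ^ ea j * ζ p * F2 j (q p) +
      p.2.1 ^ eb j * ω p * F1 j (q p), ?_, ?_, ?_, ?_⟩
  · intro j
    refine (ContDiffAt.add ?_ (((l2.contDiffAt.pow _).mul hζ1).mul (hqF _ (c2' j)))).add
      (((l2.contDiffAt.pow _).mul hω1).mul (hqF _ (c1' j)))
    refine ContDiffAt.comp (g := V j) (α, (0 : ℂ), (0 : ℂ)) ?_ (contDiff_fst.prodMk l2).contDiffAt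
    exact hV j
  · intro j
    simp only [hζ2, hω2]
    ring
  · have ht0 : Filter.Tendsto (fun p : (Fin m → ℂ) × ℂ =>
        ((p.1, p.2, 0) : (Fin m → ℂ) × ℂ × ℂ)) (𝓝 (α, 0)) (𝓝 (α, 0, 0)) :=
      (continuous_fst.prodMk (continuous_snd.prodMk continuous_const)).tendsto' _ _ rfl
    filter_upwards [ht0.eventually hζ4, ht0.eventually hω4] with p z1 z2 _ j
    have y1 : ζ (p.1, p.2, 0) = 0 := z1 (by simp [hΦ1])
    have y2 : ω (p.1, p.2, 0) = 0 := z2 (by simp [hΦ2, y1])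
    simp only [y1, y2]
    ring
  · filter_upwards [hζ3, hω3, hbt.eventually hbase, hqt'.eventually eP, hqt.eventually eG,
      hqt.eventually eU, hqt.eventually (Filter.eventually_all.2 e1'),
      hqt.eventually (Filter.eventually_all.2 e2')] with p z1 z2 z3 z4 z5 z6 z7 z8 hs
    obtain ⟨y1, y2, y3⟩ := z3 hs
    have z4' : p.2.1 ^ n * TP (q' p) = P' (q' p) := z4 hs
    have z5' : p.2.1 ^ n * TG (q p) = G' (q p) := z5 hs
    have z6' : p.2.1 ^ n * UG (q p) = U' (q p) := z6 hs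
    have z7' : ∀ j, p.2.1 ^ n * T1 j (q p) = F1 j (q p) := fun j => z7 j hs
    have z8' : ∀ j, p.2.1 ^ n * T2 j (q p) = F2 j (q p) := fun j => z8 j hs
    have z1' : V iP (p.1, p.2.1) * ζ p + p.2.1 ^ ea iP * ζ p ^ 2 * P' (q' p) - p.2.2 = 0 := z1
    have z2' : p.2.1 ^ e2 * ζ p * U' (q p) + V iG (p.1, p.2.1) * ω p +
      p.2.1 ^ eb iG * ω p ^ 2 * G' (q p) = 0 := z2
    refine ⟨?_, ?_, ?_, ?_⟩
    · intro j
      show (B (q p) (some j.castSucc) + if some j.castSucc = none then (q p).2.2.2 else 0) +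
        (if some j.castSucc = some (Fin.last m) then p.2.1 ^ a * ζ p else 0) = _
      have g1 : (some j.castSucc : Option (Fin (m + 1))) ≠ none := by simp
      have g2 : (some j.castSucc : Option (Fin (m + 1))) ≠ some (Fin.last m) := by
        intro h
        exact Fin.castSucc_ne_last j (Option.some.inj h)
      rw [if_neg g1, if_neg g2, add_zero, add_zero]
      show (Fin.snoc (fun j => p.1 j * (p.2.1⁻¹) ^ e)
            (p.2.1 ^ ν i1 * V i1 (p.1, p.2.1) - c1) : Fin (m + 1) → ℂ) j.castSucc = _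
      rw [Fin.snoc_castSucc]
    · have g1 : aeval (fun j => B1 (q p) j + if j = some (Fin.last m) then p.2.1 ^ a * ζ p else 0)
          (rename some P) = aeval (fun j => B (q' p) j + if j = some (Fin.last m) then
            (q' p).2.2.1 else 0) (rename some P) := by
        rw [aeval_rename, aeval_rename]
        congr 1
        congr 1
        funext i
        show (B (q p) (some i) + if some i = none then (q p).2.2.2 else 0) +
          (if some i = some (Fin.last m) then p.2.1 ^ a * ζ p else 0) = _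
        rw [if_neg (by simp), add_zero]
        rfl
      have g2 : pderiv (some (Fin.last m)) (rename some P) = Q iP := by
        rw [hP, pderiv_rename (Option.some_injective _)]
      have g3 : aeval (B (q' p)) (rename some P) = 0 := y1
      have g4 : aeval (B (q' p)) (Q iP) = p.2.1 ^ ν iP * V iP (p.1, p.2.1) := y3 iP
      have g5 := kp_zp hs (hea2 iP)
      have g6 : p.2.1 ^ M = p.2.1 ^ a * p.2.1 ^ ν iP := by
        rw [← zpow_natCast p.2.1 M, ← hM, zpow_add₀ hs, zpow_natCast]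
      rw [g1, eTP, g2, g3, g4, g6]
      show 0 + p.2.1 ^ a * ζ p * (p.2.1 ^ ν iP * V iP (p.1, p.2.1)) +
        (p.2.1 ^ a * ζ p) ^ 2 * TP (q' p) = _
      rw [← z4'] at z1'
      linear_combination (p.2.1 ^ a * p.2.1 ^ ν iP) * z1' -
        (p.2.1 ^ a * ζ p ^ 2 * TP (q' p)) * g5
    · have g3 : aeval (B (q p)) G = 0 := y2
      have g4 : aeval (B (q p)) (Q iG) = p.2.1 ^ ν iG * V iG (p.1, p.2.1) := y3 iG
      have g5 := kp_zp hs (heb2 iG)
      have g6 : p.2.1 ^ ν iG * p.2.1 ^ e2 * p.2.1 ^ (b + n) = p.2.1 ^ a := kp_zp hs he2'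
      have g7 := eUG (q p)
      have g8 := eTG (q p)
      rw [← hG, g3, g4] at g8
      have g9 : aeval (fun j => B1 (q p) j + if j = some (Fin.last m) then p.2.1 ^ a * ζ p else 0) G
          = (0 + p.2.1 ^ b * ω p * (p.2.1 ^ ν iG * V iG (p.1, p.2.1)) +
            (p.2.1 ^ b * ω p) ^ 2 * TG (q p)) + p.2.1 ^ a * ζ p * UG (q p) := by
        rw [← g8]
        exact g7
      rw [g9]
      rw [← z5', ← z6'] at z2'
      rw [pow_add] at g6
      linear_combination (p.2.1 ^ ν iG * p.2.1 ^ b) * z2' -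
        (p.2.1 ^ b * ω p ^ 2 * TG (q p)) * g5 - (ζ p * UG (q p)) * g6
    · intro j
      have g4 : aeval (B (q p)) (Q j) = p.2.1 ^ ν j * V j (p.1, p.2.1) := y3 j
      have g5 := kp_zp hs (hea2 j)
      have g6 := kp_zp hs (heb2 j)
      have g7 := eT2 j (q p)
      have g8 := eT1 j (q p)
      rw [g4] at g8
      have g9 : aeval (fun i => B1 (q p) i + if i = some (Fin.last m) then p.2.1 ^ a * ζ p else 0)
          (Q j) = (p.2.1 ^ ν j * V j (p.1, p.2.1) + p.2.1 ^ b * ω p * T1 j (q p)) +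
            p.2.1 ^ a * ζ p * T2 j (q p) := by
        rw [← g8]
        exact g7
      rw [g9, ← z7' j, ← z8' j]
      linear_combination -(ω p * T1 j (q p)) * g6 - (ζ p * T2 j (q p)) * g5

end Pool.Agent.EXK2
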