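import Pool.Agent.EXK2.Sel
import Pool.Agent.EXK2.Pert
import Pool.Agent.EXK.KData

/-!
# EXK2 / Data: the two parameter chart near infinity along a given branch

PROOF.  As `two_data` (EXK/KData.lean) with `sel` in place of `emb_root` and `top_chartN`, and `two_chart2`.
`ρ a0 ≠ 0`: otherwise `F ∣ X 0` (`hF`), so `F` divides `X 0`, `F` is a constant times `X 0` (not a unit, since
`aeval .. 1 ≠ 0`), and the only `x` in `hgrow` is `0`: `0 ≤ -T^ε`, a contradiction. In `Spec k (Sum.elim α c)`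
put `X (c 0) X (c_{i0}) - X (c_{j0})`: with `r = s^{ν 0} V_0(α, s)`: `r s^{ν i0} V_{i0} = s^{ν j0} V_{j0}`, so by
`two_chart2` (`W j (α, s, 0) = V j (α, s)`) `r = s^{ν j0 - ν i0} W_{j0}(α, s, 0) / W_{i0}(α, s, 0)`.
-/

set_option autoImplicit false

namespace Pool.Agent.EXK2

open MvPolynomial Pool.Agent.EXL Pool.Agent.EXI Pool.Agent.EXK Topology

/-- The substitution of the coordinates of the chart. -/
private noncomputable def kes {k : Subfield ℂ} {m N : ℕ} (j1 j2 : Fin N) (c1 c2 : k) :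
    Option (Fin (m + 1)) → MvPolynomial (Fin m ⊕ Fin N) k :=
  cons (X (Sum.inr j2) - C c2)
    (Fin.snoc (fun j => X (Sum.inl j)) (X (Sum.inr j1) - C c1) :
      Fin (m + 1) → MvPolynomial (Fin m ⊕ Fin N) k)

private lemma kes_aeval {k : Subfield ℂ} {m N : ℕ} (j1 j2 : Fin N) (c1 c2 : k)
    (y : Fin m → ℂ) (w : Fin N → ℂ) (R : MvPolynomial (Option (Fin (m + 1))) k) :
    aeval (Sum.elim y w) (bind₁ (kes j1 j2 c1 c2) R) =
      aeval (cons (w j2 - c2) (Fin.snoc y (w j1 - c1) : Fin (m + 1) → ℂ)) R := by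
  rw [aeval_bind₁]
  congr 2
  funext o
  cases o with
  | none =>
    show aeval (Sum.elim y w) (X (Sum.inr j2) - C c2) = w j2 - c2
    rw [map_sub, aeval_X, aeval_C]
    rfl
  | some i =>
    refine Fin.lastCases ?_ (fun i => ?_) i
    · show aeval (Sum.elim y w) ((Fin.snoc (fun j => X (Sum.inl j)) (X (Sum.inr j1) - C c1) :
        Fin (m + 1) → MvPolynomial (Fin m ⊕ Fin N) k) (Fin.last m)) =
        (Fin.snoc y (w j1 - c1) : Fin (m + 1) → ℂ) (Fin.last m)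
      rw [Fin.snoc_last, Fin.snoc_last, map_sub, aeval_X, aeval_C]
      rfl
    · show aeval (Sum.elim y w) ((Fin.snoc (fun j => X (Sum.inl j)) (X (Sum.inr j1) - C c1) :
        Fin (m + 1) → MvPolynomial (Fin m ⊕ Fin N) k) i.castSucc) =
        (Fin.snoc y (w j1 - c1) : Fin (m + 1) → ℂ) i.castSucc
      rw [Fin.snoc_castSucc, Fin.snoc_castSucc, aeval_X]
      rfl

/-- A constant which makes a sum nonzero. -/
private lemma ke_const (k : Subfield ℂ) (r : ℂ) : ∃ c : k, r + (c : ℂ) ≠ 0 := by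
  by_cases h : r = 0
  · refine ⟨1, ?_⟩
    rw [h, zero_add]
    exact one_ne_zero
  · refine ⟨0, ?_⟩
    rw [show ((0 : k) : ℂ) = 0 from rfl, add_zero]
    exact h

private theorem ke_fin {k : Subfield ℂ} (hk : (k : Set ℂ).Countable) {K : Type} [Field K]
    [Algebra k K] {m N : ℕ} {pl : Place k K}
    (htr : ∀ y : Fin (m + 2) → K, ¬ AlgebraicIndependent k y) (ch : Chart pl m)
    (hind : AlgebraicIndependent k (fun j : Fin m => pl.ρ (ch.x (some j.castSucc)))) (a0 : pl.O)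
    (F : MvPolynomial (Fin (m + 1)) k)
    (hF : ∀ f : MvPolynomial (Fin (m + 1)) k,
      aeval (Fin.cons (pl.ρ a0) (fun j : Fin m => pl.ρ (ch.x (some j.castSucc))) :
        Fin (m + 1) → ℂ) f = 0 ↔ F ∣ f) (ε : ℝ) (hε : 0 < ε)
    (hgrow : ∃ᶠ T : ℝ in Filter.atTop, ∃ x : ℂ,
      aeval (Fin.cons x (fun j : Fin m => (T : ℂ) * pl.ρ (ch.x (some j.castSucc))) :
        Fin (m + 1) → ℂ) F = 0 ∧ x.re ≤ -T ^ ε * (1 + ‖x‖ / T))
    (Q : Fin N → MvPolynomial (Option (Fin (m + 1))) k)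
    (hQ : ∀ j, aeval (fun i => pl.ρ (ch.x i)) (Q j) ≠ 0) (i0 j0 : Fin N)
    (hij : pl.ρ a0 * aeval (fun i => pl.ρ (ch.x i)) (Q i0) =
        aeval (fun i => pl.ρ (ch.x i)) (Q j0)) (i1 i2 iP iG : Fin N) (c1 c2 : k)
    (h1 : Q i1 = X (some (Fin.last m)) + C c1) (h2 : Q i2 = X none + C c2)
    (hP : Q iP = rename some (pderiv (Fin.last m) ch.P)) (hG : Q iG = pderiv none ch.G) :
    ∃ (e : ℕ) (ν : Fin N → ℤ) (M : ℕ) (X' : (Fin m → ℂ) × ℂ × ℂ → Option (Fin (m + 1)) → ℂ)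
      (W : Fin N → (Fin m → ℂ) × ℂ × ℂ → ℂ) (δ : ℝ), 1 ≤ e ∧ 0 < δ ∧
      (∀ j, ContDiffAt ℂ 1 (W j) ((fun j : Fin m => pl.ρ (ch.x (some j.castSucc))), 0, 0)) ∧
      (∀ j, W j ((fun j : Fin m => pl.ρ (ch.x (some j.castSucc))), 0, 0) ≠ 0) ∧
      (∃ᶠ s : ℝ in 𝓝[>] 0, ((s : ℂ) ^ (ν j0 - ν i0) *
          (W j0 ((fun j : Fin m => pl.ρ (ch.x (some j.castSucc))), (s : ℂ), 0) /
            W i0 ((fun j : Fin m => pl.ρ (ch.x (some j.castSucc))), (s : ℂ), 0))).re ≤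
        -s ^ (-δ) * (1 + ‖(s : ℂ) ^ (ν j0 - ν i0) *
          (W j0 ((fun j : Fin m => pl.ρ (ch.x (some j.castSucc))), (s : ℂ), 0) /
            W i0 ((fun j : Fin m => pl.ρ (ch.x (some j.castSucc))), (s : ℂ), 0))‖ * s ^ e)) ∧
      ∀ᶠ p : (Fin m → ℂ) × ℂ × ℂ in 𝓝 ((fun j : Fin m => pl.ρ (ch.x (some j.castSucc))), 0, 0),
        p.2.1 ≠ 0 →
        (∀ j : Fin m, X' p (some j.castSucc) = p.1 j * (p.2.1⁻¹) ^ e) ∧
        aeval (X' p) (rename some ch.P) = p.2.1 ^ M * p.2.2 ∧ aeval (X' p) ch.G = 0 ∧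
        ∀ j, aeval (X' p) (Q j) = p.2.1 ^ ν j * W j p := by
  set α : Fin m → ℂ := fun j : Fin m => pl.ρ (ch.x (some j.castSucc)) with hαdef
  set ξ : Option (Fin (m + 1)) → ℂ := fun i => pl.ρ (ch.x i) with hξ
  set c : Fin (N + 1) → ℂ := Fin.cons (pl.ρ a0) (fun j => aeval ξ (Q j)) with hc
  have hc00 : c 0 = pl.ρ a0 := rfl
  have hcs : ∀ j, c j.succ = aeval ξ (Q j) := fun j => rfl
  have halg : ∀ j, IsAlgebraic (Algebra.adjoin k (Set.range α)) (c j) := by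
    intro j
    refine Fin.cases ?_ (fun j => ?_) j
    · exact pl.residue_algebraic htr (fun j => ch.x (some j.castSucc)) hind a0
    · obtain ⟨hmem, he⟩ := cden_aeval pl ch.x (Q j)
      rw [hcs, ← he]
      exact pl.residue_algebraic htr (fun j => ch.x (some j.castSucc)) hind _
  -- the residues are not zero
  have hc0 : c 0 ≠ 0 := by
    intro h0
    have h3 : F ∣ X 0 := by
      rw [← hF, aeval_X]
      exact h0
    obtain ⟨g, hg⟩ := h3
    obtain ⟨T, ⟨x, hx1, hx2⟩, hT⟩ := (hgrow.and_eventually (Filter.eventually_ge_atTop 1)).exists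
    have h4 : x = 0 := by
      have h5 := congrArg (aeval (Fin.cons x (fun j : Fin m => (T : ℂ) * α j) :
        Fin (m + 1) → ℂ)) hg
      rw [aeval_X, map_mul, hx1, zero_mul] at h5
      exact h5
    rw [h4] at hx2
    have h6 : 0 < T ^ ε := Real.rpow_pos_of_pos (by linarith) ε
    simp at hx2
    linarith
  have hcne : ∀ j, c j ≠ 0 := by
    intro j
    refine Fin.cases hc0 (fun j => ?_) j
    exact hQ j
  obtain ⟨e, ν', V', δ, he, hδ, hV', hV0', hev, hfr⟩ := sel k hk α hind c hcne halg 0 F hF ε hε hgrow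
  -- the base
  have hξb : ξ = cons (c i2.succ - c2) (Fin.snoc α (c i1.succ - c1) : Fin (m + 1) → ℂ) := by
    funext o
    cases o with
    | none =>
      show ξ none = c i2.succ - c2
      rw [hcs, h2, map_add, aeval_X, aeval_C]
      show ξ none = ξ none + (c2 : ℂ) - (c2 : ℂ)
      ring
    | some i =>
      refine Fin.lastCases ?_ (fun i => ?_) i
      · show ξ (some (Fin.last m)) = (Fin.snoc α (c i1.succ - c1) : Fin (m + 1) → ℂ) (Fin.last m)
        rw [Fin.snoc_last, hcs, h1, map_add, aeval_X, aeval_C]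
        show ξ (some (Fin.last m)) = ξ (some (Fin.last m)) + (c1 : ℂ) - (c1 : ℂ)
        ring
      · show ξ (some i.castSucc) = (Fin.snoc α (c i1.succ - c1) : Fin (m + 1) → ℂ) i.castSucc
        rw [Fin.snoc_castSucc]
  have hbase : ∀ᶠ p : (Fin m → ℂ) × ℂ in 𝓝 (α, 0), p.2 ≠ 0 →
      aeval (base e (ν' i1.succ) (ν' i2.succ) (c1 : ℂ) (c2 : ℂ) (V' i1.succ) (V' i2.succ) p)
        (rename some ch.P) = 0 ∧
      aeval (base e (ν' i1.succ) (ν' i2.succ) (c1 : ℂ) (c2 : ℂ) (V' i1.succ) (V' i2.succ) p)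
        ch.G = 0 ∧
      ∀ j, aeval (base e (ν' i1.succ) (ν' i2.succ) (c1 : ℂ) (c2 : ℂ) (V' i1.succ) (V' i2.succ) p)
        (Q j) = p.2 ^ ν' j.succ * V' j.succ p := by
    filter_upwards [hev] with p hp hp0
    have hsp := hp hp0
    have hb : base e (ν' i1.succ) (ν' i2.succ) (c1 : ℂ) (c2 : ℂ) (V' i1.succ) (V' i2.succ) p =
      cons (p.2 ^ ν' i2.succ * V' i2.succ p - c2)
        (Fin.snoc (fun j => p.1 j * (p.2⁻¹) ^ e) (p.2 ^ ν' i1.succ * V' i1.succ p - c1) :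
          Fin (m + 1) → ℂ) := rfl
    have hkey : ∀ R : MvPolynomial (Option (Fin (m + 1))) k,
        aeval (Sum.elim α c) (bind₁ (kes i1.succ i2.succ c1 c2) R) = aeval ξ R := by
      intro R
      rw [kes_aeval, ← hξb]
    have hkey' : ∀ R : MvPolynomial (Option (Fin (m + 1))) k,
        aeval (Sum.elim (fun j => p.1 j * (p.2⁻¹) ^ e) fun j => p.2 ^ ν' j * V' j p)
          (bind₁ (kes i1.succ i2.succ c1 c2) R) =
        aeval (base e (ν' i1.succ) (ν' i2.succ) (c1 : ℂ) (c2 : ℂ) (V' i1.succ) (V' i2.succ) p)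
          R := by
      intro R
      rw [kes_aeval, hb]
    refine ⟨?_, ?_, fun j => ?_⟩
    · rw [← hkey']
      apply hsp
      rw [hkey]
      exact ch.crep_P1
    · rw [← hkey']
      apply hsp
      rw [hkey]
      exact crep_spec ch.x _ ((ch.ker _).2 dvd_rfl)
    · have h5 := hsp (bind₁ (kes i1.succ i2.succ c1 c2) (Q j) - X (Sum.inr j.succ)) (by
        rw [map_sub, hkey, aeval_X, Sum.elim_inr, hcs, sub_self])
      rw [map_sub, hkey', aeval_X, Sum.elim_inr, sub_eq_zero] at h5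
      exact h5
  obtain ⟨M, X', W, hW, hW0, hWV, hev2⟩ := two_chart2 ch.P ch.G Q i1 i2 iP iG (c1 : ℂ) (c2 : ℂ) hP
    hG α e he (fun j => ν' j.succ) (fun j => V' j.succ) (fun j => hV' _) (fun j => hV0' _) hbase
  refine ⟨e, fun j => ν' j.succ, M, X', W, δ, he, hδ, hW, ?_, ?_, hev2⟩
  · intro j
    rw [hW0]
    exact hV0' _
  · -- the value of the distinguished function
    have htend : Filter.Tendsto (fun s : ℝ => ((α, (s : ℂ)) : (Fin m → ℂ) × ℂ)) (𝓝[>] 0)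
        (𝓝 (α, 0)) := by
      have h3 : Continuous (fun s : ℝ => ((α, (s : ℂ)) : (Fin m → ℂ) × ℂ)) :=
        continuous_const.prodMk Complex.continuous_ofReal
      have h4 := h3.tendsto 0
      simp only [Complex.ofReal_zero] at h4
      exact h4.mono_left nhdsWithin_le_nhds
    have hne : ∀ᶠ p : (Fin m → ℂ) × ℂ in 𝓝 (α, 0), V' i0.succ p ≠ 0 :=
      (hV' i0.succ).continuousAt.eventually_ne (hV0' i0.succ)
    have hall := htend.eventually (hev.and (hWV.and hne))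
    have hpos : ∀ᶠ s : ℝ in 𝓝[>] 0, 0 < s := self_mem_nhdsWithin
    refine (hfr.and_eventually (hall.and hpos)).mono ?_
    rintro s ⟨h3, ⟨h4, h5, h6⟩, h7⟩
    have hs0 : (s : ℂ) ≠ 0 := by exact_mod_cast h7.ne'
    have hsp := h4 hs0
    have hw := h5 hs0
    have h8 := hsp (X (Sum.inr 0) * X (Sum.inr i0.succ) - X (Sum.inr j0.succ)) (by
      rw [map_sub, map_mul, aeval_X, aeval_X, aeval_X, Sum.elim_inr, Sum.elim_inr, Sum.elim_inr,
        sub_eq_zero]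
      exact hij)
    rw [map_sub, map_mul, aeval_X, aeval_X, aeval_X, Sum.elim_inr, Sum.elim_inr, Sum.elim_inr,
      sub_eq_zero] at h8
    have h9 : (s : ℂ) ^ (ν' j0.succ - ν' i0.succ) *
        (W j0 (α, (s : ℂ), 0) / W i0 (α, (s : ℂ), 0)) = (s : ℂ) ^ ν' 0 * V' 0 (α, (s : ℂ)) := by
      have e1 : W j0 (α, (s : ℂ), 0) = V' j0.succ (α, (s : ℂ)) := hw j0
      have e2 : W i0 (α, (s : ℂ), 0) = V' i0.succ (α, (s : ℂ)) := hw i0
      rw [e1, e2, zpow_sub₀ hs0]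
      have h10 : (s : ℂ) ^ ν' i0.succ ≠ 0 := zpow_ne_zero _ hs0
      field_simp
      linear_combination -h8
    simp only [h9]
    exact h3

theorem two_data2 {k : Subfield ℂ} (hk : (k : Set ℂ).Countable) {K : Type} [Field K] [Algebra k K]
    {m N : ℕ} {pl : Place k K}
    (htr : ∀ y : Fin (m + 2) → K, ¬ AlgebraicIndependent k y) (ch : Chart pl m)
    (hind : AlgebraicIndependent k (fun j : Fin m => pl.ρ (ch.x (some j.castSucc)))) (a0 : pl.O)
    (F : MvPolynomial (Fin (m + 1)) k)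
    (hF : ∀ f : MvPolynomial (Fin (m + 1)) k,
      aeval (Fin.cons (pl.ρ a0) (fun j : Fin m => pl.ρ (ch.x (some j.castSucc))) :
        Fin (m + 1) → ℂ) f = 0 ↔ F ∣ f) (ε : ℝ) (hε : 0 < ε)
    (hgrow : ∃ᶠ T : ℝ in Filter.atTop, ∃ x : ℂ,
      aeval (Fin.cons x (fun j : Fin m => (T : ℂ) * pl.ρ (ch.x (some j.castSucc))) :
        Fin (m + 1) → ℂ) F = 0 ∧ x.re ≤ -T ^ ε * (1 + ‖x‖ / T))
    (Q : Fin N → MvPolynomial (Option (Fin (m + 1))) k)
    (hQ : ∀ j, aeval (fun i => pl.ρ (ch.x i)) (Q j) ≠ 0) (i0 j0 : Fin N)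
    (hij : pl.ρ a0 * aeval (fun i => pl.ρ (ch.x i)) (Q i0) =
        aeval (fun i => pl.ρ (ch.x i)) (Q j0)) :
    ∃ (e : ℕ) (ν : Fin N → ℤ) (M : ℕ) (X' : (Fin m → ℂ) × ℂ × ℂ → Option (Fin (m + 1)) → ℂ)
      (W : Fin N → (Fin m → ℂ) × ℂ × ℂ → ℂ) (δ : ℝ), 1 ≤ e ∧ 0 < δ ∧
      (∀ j, ContDiffAt ℂ 1 (W j) ((fun j : Fin m => pl.ρ (ch.x (some j.castSucc))), 0, 0)) ∧
      (∀ j, W j ((fun j : Fin m => pl.ρ (ch.x (some j.castSucc))), 0, 0) ≠ 0) ∧
      (∃ᶠ s : ℝ in 𝓝[>] 0, ((s : ℂ) ^ (ν j0 - ν i0) *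
          (W j0 ((fun j : Fin m => pl.ρ (ch.x (some j.castSucc))), (s : ℂ), 0) /
            W i0 ((fun j : Fin m => pl.ρ (ch.x (some j.castSucc))), (s : ℂ), 0))).re ≤
        -s ^ (-δ) * (1 + ‖(s : ℂ) ^ (ν j0 - ν i0) *
          (W j0 ((fun j : Fin m => pl.ρ (ch.x (some j.castSucc))), (s : ℂ), 0) /
            W i0 ((fun j : Fin m => pl.ρ (ch.x (some j.castSucc))), (s : ℂ), 0))‖ * s ^ e)) ∧
      ∀ᶠ p : (Fin m → ℂ) × ℂ × ℂ in 𝓝 ((fun j : Fin m => pl.ρ (ch.x (some j.castSucc))), 0, 0),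
        p.2.1 ≠ 0 →
        (∀ j : Fin m, X' p (some j.castSucc) = p.1 j * (p.2.1⁻¹) ^ e) ∧
        aeval (X' p) (rename some ch.P) = p.2.1 ^ M * p.2.2 ∧ aeval (X' p) ch.G = 0 ∧
        ∀ j, aeval (X' p) (Q j) = p.2.1 ^ ν j * W j p := by
  obtain ⟨c1, hc1⟩ := ke_const k (pl.ρ (ch.x (some (Fin.last m))))
  obtain ⟨c2, hc2⟩ := ke_const k (pl.ρ (ch.x none))
  set Q0 : Fin 4 → MvPolynomial (Option (Fin (m + 1))) k :=
    ![X (some (Fin.last m)) + C c1, X none + C c2, rename some (pderiv (Fin.last m) ch.P),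
      pderiv none ch.G] with hQ0
  obtain ⟨e, ν, M, X', W, δ, he, hδ, hW, hW0, hL, hev⟩ := ke_fin hk htr ch hind a0 F hF ε hε hgrow
    (Fin.append Q0 Q) (by
      intro j
      refine Fin.addCases (fun i => ?_) (fun i => ?_) j
      · rw [Fin.append_left]
        fin_cases i
        · show aeval (fun i => pl.ρ (ch.x i)) (X (some (Fin.last m)) + C c1) ≠ 0
          rw [map_add, aeval_X, aeval_C]
          exact hc1
        · show aeval (fun i => pl.ρ (ch.x i)) (X none + C c2) ≠ 0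
          rw [map_add, aeval_X, aeval_C]
          exact hc2
        · show aeval (fun i => pl.ρ (ch.x i)) (rename some (pderiv (Fin.last m) ch.P)) ≠ 0
          rw [aeval_rename]
          exact ch.hPY
        · exact ch.hGW
      · rw [Fin.append_right]
        exact hQ i)
    (Fin.natAdd 4 i0) (Fin.natAdd 4 j0) (by rw [Fin.append_right, Fin.append_right]; exact hij)
    (Fin.castAdd N 0) (Fin.castAdd N 1) (Fin.castAdd N 2) (Fin.castAdd N 3) c1 c2
    (by rw [Fin.append_left]; rfl) (by rw [Fin.append_left]; rfl) (by rw [Fin.append_left]; rfl)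
    (by rw [Fin.append_left]; rfl)
  refine ⟨e, fun j => ν (Fin.natAdd 4 j), M, X', fun j => W (Fin.natAdd 4 j), δ, he, hδ,
    fun j => hW _, fun j => hW0 _, hL, ?_⟩
  filter_upwards [hev] with p hp hp0
  obtain ⟨h1, h2, h3, h4⟩ := hp hp0
  refine ⟨h1, h2, h3, fun j => ?_⟩
  have h5 := h4 (Fin.natAdd 4 j)
  rw [Fin.append_right] at h5
  exact h5

end Pool.Agent.EXK2
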