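import Pool.Agent.EXK.KFin

/-!
# EXK2 / Defs: the growth condition
-/

set_option autoImplicit false

namespace Pool.Agent.EXK2

open MvPolynomial Pool.Agent.EXL Pool.Agent.EXI Pool.Agent.EXK

/-- The zero set of `F` has a branch at infinity over `i ℝ^n`, in the direction `v`, whose displacement
`τ` has a real part which tends to `-∞` like a power of `T`: for all `y` in some nonempty open set and
arbitrarily large `T` there is `τ` with `F(i T y + τ v) = 0`, `Re τ ≤ -T^ε (1 + |τ| / T)`. -/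
def Growth {n : ℕ} (F : MvPolynomial (Fin n) ℂ) (v : Fin n → ℤ) : Prop :=
  ∃ (ε : ℝ) (O : Set (Fin n → ℝ)), 0 < ε ∧ IsOpen O ∧ O.Nonempty ∧ ∀ y ∈ O,
    ∃ᶠ T : ℝ in Filter.atTop, ∃ τ : ℂ,
      eval (fun j => Complex.I * T * y j + τ * v j) F = 0 ∧ τ.re ≤ -T ^ ε * (1 + ‖τ‖ / T)

/-- The same in normalized coordinates (`v = e_0`). -/
def GrowthN {m : ℕ} (F : MvPolynomial (Fin (m + 1)) ℂ) : Prop :=
  ∃ (ε : ℝ) (O : Set (Fin m → ℝ)), 0 < ε ∧ IsOpen O ∧ O.Nonempty ∧ ∀ y ∈ O,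
    ∃ᶠ T : ℝ in Filter.atTop, ∃ x : ℂ,
      eval (Fin.cons x (fun j => Complex.I * T * y j) : Fin (m + 1) → ℂ) F = 0 ∧
        x.re ≤ -T ^ ε * (1 + ‖x‖ / T)

end Pool.Agent.EXK2
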