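import Mathlib

/-!
# EXK2 / NhgA: nonhyperbolic leading forms, branches at infinity

The analytic part of `Nhg`.
-/

set_option autoImplicit false

namespace Pool.Agent.EXK2

open MvPolynomial Metric Filter Topology

private lemma eval_scale {n d : ℕ} (L : MvPolynomial (Fin n) ℂ) (hL : L.IsHomogeneous d) (c : ℂ)
    (x : Fin n → ℂ) : eval (fun j => c * x j) L = c ^ d * eval x L := by
  rw [eval_eq, eval_eq, Finset.mul_sum]
  refine Finset.sum_congr rfl fun s hs => ?_
  have hd : ∑ i ∈ s.support, s i = d := by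
    have := hL (mem_support_iff.mp hs)
    rw [Finsupp.weight_apply] at this
    simpa [Finsupp.sum] using this
  simp only [mul_pow]
  rw [Finset.prod_mul_distrib, Finset.prod_pow_eq_pow_sum, hd]
  ring

/-- Continuity of roots for a family of entire functions. -/
private lemma root_near_gen {P : Type*} [TopologicalSpace P] (F : ℂ × P → ℂ) (hFc : Continuous F)
    (hFd : ∀ z : P, Differentiable ℂ (fun x : ℂ => F (x, z)))
    (y : P) (x₀ x₁ : ℂ) (h0 : F (x₀, y) = 0) (h1 : F (x₁, y) ≠ 0) (R : ℝ) (hR : 0 < R) :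
    ∀ᶠ z in 𝓝 y, ∃ x : ℂ, ‖x - x₀‖ < R ∧ F (x, z) = 0 := by
  have hFa : ∀ z : P, AnalyticOnNhd ℂ (fun x : ℂ => F (x, z)) Set.univ := fun z =>
    (hFd z).differentiableOn.analyticOnNhd isOpen_univ
  -- the zero is isolated
  have hiso : ∀ᶠ x in 𝓝[≠] x₀, F (x, y) ≠ 0 := by
    rcases (hFa y x₀ (Set.mem_univ _)).eventually_eq_zero_or_eventually_ne_zero with h | h
    · exfalso
      have := (hFa y).eqOn_zero_of_preconnected_of_eventuallyEq_zero isPreconnected_univ
        (Set.mem_univ x₀) h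
      exact h1 (this (Set.mem_univ x₁))
    · exact h
  rw [eventually_nhdsWithin_iff, Metric.eventually_nhds_iff] at hiso
  obtain ⟨δ, hδ, hiso⟩ := hiso
  set r : ℝ := min (δ / 2) (R / 2) with hr
  have hr0 : 0 < r := lt_min (by positivity) (by positivity)
  have hrδ : r < δ := lt_of_le_of_lt (min_le_left _ _) (by linarith)
  have hrR : r < R := lt_of_le_of_lt (min_le_right _ _) (by linarith)
  have hsph : ∀ x ∈ sphere x₀ r, F (x, y) ≠ 0 := by
    intro x hx
    have hx' : dist x x₀ = r := hx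
    refine hiso (by rw [hx']; exact hrδ) ?_
    intro hxx
    have : x = x₀ := hxx
    rw [this, dist_self] at hx'
    exact absurd hx' hr0.ne
  -- the minimum on the circle
  have hcomp : IsCompact (sphere x₀ r) := isCompact_sphere x₀ r
  have hne : (sphere x₀ r).Nonempty := NormedSpace.sphere_nonempty.mpr hr0.le
  obtain ⟨xm, hxm, hmin⟩ := hcomp.exists_isMinOn hne
    (f := fun x => ‖F (x, y)‖) (by
      have : Continuous (fun x : ℂ => ‖F (x, y)‖) := by
        exact (hFc.comp (by fun_prop)).norm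
      exact this.continuousOn)
  set c : ℝ := ‖F (xm, y)‖ with hc
  have hc0 : 0 < c := norm_pos_iff.mpr (hsph xm hxm)
  have hmin' : ∀ x ∈ sphere x₀ r, c ≤ ‖F (x, y)‖ := fun x hx => hmin hx
  -- the tube
  set N : Set (ℂ × P) := {p | c / 2 < ‖F p - F (x₀, p.2)‖} with hN
  have hNo : IsOpen N := by
    refine isOpen_lt continuous_const ?_
    exact (hFc.sub (hFc.comp (by fun_prop))).norm
  have hsub : sphere x₀ r ×ˢ ({y} : Set P) ⊆ N := by
    rintro ⟨x, z⟩ ⟨hx, hz⟩
    have hz' : z = y := hz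
    subst hz'
    have h00 : F (x₀, z) = 0 := h0
    simp only [hN, Set.mem_ofPred_eq, h00, sub_zero]
    have := hmin' x hx
    linarith
  obtain ⟨u, v, -, hvo, hu, hv, huv⟩ :=
    generalized_tube_lemma hcomp isCompact_singleton hNo hsub
  have hvy : y ∈ v := hv rfl
  have hW : IsOpen {z : P | ‖F (x₀, z)‖ < c / 4} := by
    refine isOpen_lt ?_ continuous_const
    exact (hFc.comp (by fun_prop)).norm
  have hyW : y ∈ {z : P | ‖F (x₀, z)‖ < c / 4} := by
    have h00 : F (x₀, y) = 0 := h0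
    simp only [Set.mem_ofPred_eq, h00, norm_zero]
    positivity
  have hvW : v ∩ {z : P | ‖F (x₀, z)‖ < c / 4} ∈ 𝓝 y :=
    (hvo.inter hW).mem_nhds ⟨hvy, hyW⟩
  filter_upwards [hvW] with z hz
  obtain ⟨hzv, hzW⟩ := hz
  have hzW' : ‖F (x₀, z)‖ < c / 4 := hzW
  have hbd : ∀ x ∈ sphere x₀ r, c / 2 ≤ ‖F (x, z) - F (x₀, z)‖ := by
    intro x hx
    have : ((x, z) : ℂ × P) ∈ N := huv ⟨hu hx, hzv⟩
    exact le_of_lt this
  have hfreq : ∃ᶠ x in 𝓝 x₀, F (x, z) ≠ F (x₀, z) := by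
    intro hcon
    have hcon' : (fun x => F (x, z)) =ᶠ[𝓝 x₀] (fun _ => F (x₀, z)) := by
      filter_upwards [hcon] with x hx
      simpa using hx
    have heq := (hFa z).eqOn_of_preconnected_of_eventuallyEq
      (analyticOnNhd_const) isPreconnected_univ (Set.mem_univ x₀) hcon'
    have h3 : F (xm, z) = F (x₀, z) := heq (Set.mem_univ xm)
    have h4 := hbd xm hxm
    rw [h3, sub_self, norm_zero] at h4
    linarith
  have himg := ((hFd z).diffContOnCl (s := ball x₀ r)).ball_subset_image_closedBall hr0 hbd hfreq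
  have h0mem : (0 : ℂ) ∈ ball (F (x₀, z)) (c / 2 / 2) := by
    rw [mem_ball, dist_eq_norm, zero_sub, norm_neg]
    linarith
  obtain ⟨x, hx, hx0⟩ := himg h0mem
  refine ⟨x, ?_, hx0⟩
  rw [← dist_eq_norm]
  exact lt_of_le_of_lt (mem_closedBall.mp hx) hrR

/-- The rescaled polynomial. -/
private noncomputable def HH {n : ℕ} (F : MvPolynomial (Fin n) ℂ) (v : Fin n → ℤ)
    (p : ℂ × (ℝ × (Fin n → ℝ))) : ℂ :=
  ∑ k ∈ Finset.range (F.totalDegree + 1), (-Complex.I * (p.2.1 : ℂ)) ^ (F.totalDegree - k) *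
    eval (fun j => (p.2.2 j : ℂ) + p.1 * (v j : ℂ)) (homogeneousComponent k F)

private lemma HH_cont {n : ℕ} (F : MvPolynomial (Fin n) ℂ) (v : Fin n → ℤ) :
    Continuous (HH F v) := by
  unfold HH
  refine continuous_finsetSum _ fun k _ => ?_
  have h1 : Continuous fun p : ℂ × (ℝ × (Fin n → ℝ)) =>
      (-Complex.I * (p.2.1 : ℂ)) ^ (F.totalDegree - k) := by fun_prop
  have h2 : Continuous fun p : ℂ × (ℝ × (Fin n → ℝ)) =>
      fun j => (p.2.2 j : ℂ) + p.1 * (v j : ℂ) := by fun_prop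
  have h3 : Continuous fun p : ℂ × (ℝ × (Fin n → ℝ)) =>
      eval (fun j => (p.2.2 j : ℂ) + p.1 * (v j : ℂ)) (homogeneousComponent k F) :=
    Continuous.comp (g := fun w : Fin n → ℂ => eval w (homogeneousComponent k F))
      (MvPolynomial.continuous_eval (homogeneousComponent k F)) h2
  exact h1.mul h3

private lemma HH_diff {n : ℕ} (F : MvPolynomial (Fin n) ℂ) (v : Fin n → ℤ)
    (z : ℝ × (Fin n → ℝ)) : Differentiable ℂ (fun x : ℂ => HH F v (x, z)) := by
  unfold HH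
  simp only [eval_eq]
  refine Differentiable.fun_sum fun k _ => ?_
  refine Differentiable.const_mul ?_ _
  refine Differentiable.fun_sum fun s _ => ?_
  refine Differentiable.const_mul ?_ _
  refine Differentiable.fun_finsetProd fun i _ => ?_
  refine Differentiable.fun_pow ?_ _
  fun_prop

private lemma HH_zero {n : ℕ} (F : MvPolynomial (Fin n) ℂ) (v : Fin n → ℤ) (x : ℂ)
    (y : Fin n → ℝ) : HH F v (x, (0, y)) =
      eval (fun j => (y j : ℂ) + x * (v j : ℂ)) (homogeneousComponent F.totalDegree F) := by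
  unfold HH
  rw [Finset.sum_range_succ, Finset.sum_eq_zero]
  · simp
  · intro k hk
    have hk' : F.totalDegree - k ≠ 0 := by
      have := Finset.mem_range.mp hk
      omega
    simp [hk']

private lemma HH_T {n : ℕ} (F : MvPolynomial (Fin n) ℂ) (v : Fin n → ℤ) (x : ℂ)
    (y : Fin n → ℝ) (T : ℝ) (hT : 0 < T) :
    eval (fun j => Complex.I * T * y j + Complex.I * T * x * v j) F =
      (Complex.I * T) ^ F.totalDegree * HH F v (x, (1 / T, y)) := by
  conv_lhs => rw [← MvPolynomial.sum_homogeneousComponent F]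
  rw [map_sum]
  unfold HH
  rw [Finset.mul_sum]
  refine Finset.sum_congr rfl fun k hk => ?_
  have hk' : k ≤ F.totalDegree := by
    have := Finset.mem_range.mp hk
    omega
  have h1 : (fun j => Complex.I * (T : ℂ) * (y j : ℂ) + Complex.I * T * x * (v j : ℂ)) =
      fun j => (Complex.I * (T : ℂ)) * ((y j : ℂ) + x * (v j : ℂ)) := by
    funext j
    ring
  have hTc : (T : ℂ) ≠ 0 := by exact_mod_cast hT.ne'
  have h2 : (Complex.I * (T : ℂ)) * (-Complex.I * ((1 / T : ℝ) : ℂ)) = 1 := by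
    push_cast
    field_simp
    rw [Complex.I_sq]
    ring
  have h3 : (Complex.I * (T : ℂ)) ^ F.totalDegree =
      (Complex.I * (T : ℂ)) ^ k * (Complex.I * (T : ℂ)) ^ (F.totalDegree - k) := by
    rw [← pow_add]
    congr 1
    omega
  rw [h1, eval_scale _ (homogeneousComponent_isHomogeneous k F), h3]
  have h4 : (Complex.I * (T : ℂ)) ^ (F.totalDegree - k) *
      (-Complex.I * ((1 / T : ℝ) : ℂ)) ^ (F.totalDegree - k) = 1 := by
    rw [← mul_pow, h2, one_pow]
  calc _ = (Complex.I * (T : ℂ)) ^ k * 1 *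
        eval (fun j => (y j : ℂ) + x * (v j : ℂ)) (homogeneousComponent k F) := by ring
    _ = _ := by
        rw [← h4]
        ring

private lemma growth_pos {n : ℕ} (F : MvPolynomial (Fin n) ℂ) (v : Fin n → ℤ) (y₀ : Fin n → ℝ)
    (ρ ρ' : ℂ) (hρ : 0 < ρ.im)
    (h0 : eval (fun j => (y₀ j : ℂ) + ρ * v j) (homogeneousComponent F.totalDegree F) = 0)
    (h1 : eval (fun j => (y₀ j : ℂ) + ρ' * v j) (homogeneousComponent F.totalDegree F) ≠ 0) :
    ∃ (ε : ℝ) (O : Set (Fin n → ℝ)), 0 < ε ∧ IsOpen O ∧ O.Nonempty ∧ ∀ y ∈ O,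
      ∃ᶠ T : ℝ in Filter.atTop, ∃ τ : ℂ,
        eval (fun j => Complex.I * T * y j + τ * v j) F = 0 ∧ τ.re ≤ -T ^ ε * (1 + ‖τ‖ / T) := by
  have hev := root_near_gen (HH F v) (HH_cont F v) (HH_diff F v) (0, y₀) ρ ρ'
    (by rw [HH_zero]; exact h0) (by rw [HH_zero]; exact h1) (ρ.im / 2) (by linarith)
  obtain ⟨δ, hδ, hball⟩ := Metric.mem_nhds_iff.mp hev
  refine ⟨1 / 2, ball y₀ δ, by norm_num, isOpen_ball, ⟨y₀, mem_ball_self hδ⟩, fun y hy => ?_⟩
  apply Filter.Eventually.frequently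
  set M : ℝ := ‖ρ‖ + ρ.im / 2 with hM
  have hM0 : 0 ≤ M := by positivity
  set c : ℝ := ρ.im / 2 with hc
  have hc0 : 0 < c := by rw [hc]; linarith
  have hT1 : ∀ᶠ T : ℝ in Filter.atTop, max (1 / δ) (((1 + M) / c) ^ 2) < T :=
    Filter.eventually_gt_atTop _
  filter_upwards [hT1, Filter.eventually_gt_atTop (0 : ℝ)] with T hT hT0
  have hTδ : 1 / δ < T := lt_of_le_of_lt (le_max_left _ _) hT
  have hTc : ((1 + M) / c) ^ 2 < T := lt_of_le_of_lt (le_max_right _ _) hT
  have hs : 1 / T < δ := by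
    rw [div_lt_iff₀ hT0]
    rw [div_lt_iff₀ hδ] at hTδ
    linarith
  have hmem : ((1 / T, y) : ℝ × (Fin n → ℝ)) ∈ ball ((0, y₀) : ℝ × (Fin n → ℝ)) δ := by
    rw [mem_ball, Prod.dist_eq, max_lt_iff]
    refine ⟨?_, mem_ball.mp hy⟩
    rw [Real.dist_eq, sub_zero, abs_of_pos (by positivity)]
    exact hs
  obtain ⟨x, hx, hx0⟩ := hball hmem
  refine ⟨Complex.I * T * x, ?_, ?_⟩
  · rw [HH_T F v x y T hT0, hx0, mul_zero]
  · have h2 : |(x - ρ).im| ≤ ‖x - ρ‖ := Complex.abs_im_le_norm _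
    have h3 : c ≤ x.im := by
      rw [Complex.sub_im] at h2
      have h4 := neg_abs_le (x.im - ρ.im)
      rw [hc]
      linarith
    have h4 : ‖x‖ ≤ M := by
      have h5 : ‖x‖ ≤ ‖x - ρ‖ + ‖ρ‖ := by
        have := norm_add_le (x - ρ) ρ
        rwa [sub_add_cancel] at this
      rw [hM]
      linarith
    have h5 : (Complex.I * T * x).re = -(T * x.im) := by
      simp [mul_assoc]
    have h6 : ‖Complex.I * T * x‖ / T = ‖x‖ := by
      rw [norm_mul, norm_mul, Complex.norm_I, one_mul, Complex.norm_real, Real.norm_eq_abs,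
        abs_of_pos hT0]
      field_simp
    rw [h5, h6]
    have h7 : (1 + M) / c ≤ T ^ (1 / 2 : ℝ) := by
      rw [← Real.sqrt_eq_rpow]
      apply Real.le_sqrt_of_sq_le
      exact hTc.le
    have h8 : T = T ^ (1 / 2 : ℝ) * T ^ (1 / 2 : ℝ) := by
      rw [← Real.sqrt_eq_rpow, Real.mul_self_sqrt hT0.le]
    have h9 : 0 ≤ T ^ (1 / 2 : ℝ) := by positivity
    have h10 : 1 + M ≤ T ^ (1 / 2 : ℝ) * c := by
      rwa [div_le_iff₀ hc0] at h7
    have h11 : T ^ (1 / 2 : ℝ) * (1 + ‖x‖) ≤ T * x.im := by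
      calc T ^ (1 / 2 : ℝ) * (1 + ‖x‖) ≤ T ^ (1 / 2 : ℝ) * (T ^ (1 / 2 : ℝ) * c) := by
            refine mul_le_mul_of_nonneg_left ?_ h9
            linarith
        _ = T * c := by
            conv_rhs => rw [h8]
            ring
        _ ≤ T * x.im := mul_le_mul_of_nonneg_left h3 hT0.le
    linarith

theorem growth_aux {n : ℕ} (F : MvPolynomial (Fin n) ℂ) (v : Fin n → ℤ) (y₀ : Fin n → ℝ)
    (ρ ρ' : ℂ) (hρ : ρ.im ≠ 0)
    (h0 : eval (fun j => (y₀ j : ℂ) + ρ * v j) (homogeneousComponent F.totalDegree F) = 0)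
    (h1 : eval (fun j => (y₀ j : ℂ) + ρ' * v j) (homogeneousComponent F.totalDegree F) ≠ 0) :
    ∃ (ε : ℝ) (O : Set (Fin n → ℝ)), 0 < ε ∧ IsOpen O ∧ O.Nonempty ∧ ∀ y ∈ O,
      ∃ᶠ T : ℝ in Filter.atTop, ∃ τ : ℂ,
        eval (fun j => Complex.I * T * y j + τ * v j) F = 0 ∧ τ.re ≤ -T ^ ε * (1 + ‖τ‖ / T) := by
  rcases lt_or_gt_of_ne hρ with hneg | hpos
  · have hsc : ∀ x : ℂ, eval (fun j => (((-y₀ j : ℝ)) : ℂ) + (-x) * v j)
        (homogeneousComponent F.totalDegree F) = (-1) ^ F.totalDegree *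
          eval (fun j => (y₀ j : ℂ) + x * v j) (homogeneousComponent F.totalDegree F) := by
      intro x
      rw [← eval_scale _ (homogeneousComponent_isHomogeneous _ F)]
      congr 2
      funext j
      push_cast
      ring
    refine growth_pos F v (fun j => -y₀ j) (-ρ) (-ρ') (by simpa using hneg) ?_ ?_
    · rw [hsc, h0, mul_zero]
    · rw [hsc]
      exact mul_ne_zero (pow_ne_zero _ (by norm_num)) h1
  · exact growth_pos F v y₀ ρ ρ' hpos h0 h1

end Pool.Agent.EXK2
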