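import Pool.Agent.EXK2.Defs
import Pool.Agent.EXK2.NhgA

/-!
# EXK2 / Nhg: nonhyperbolic leading forms satisfy the growth condition

PROOF.  `L = homogeneousComponent F.totalDegree F`, `d = F.totalDegree`. `L(y + ρ v) = 0`, `ρ.im ≠ 0`,
`L(y + ρ' v) ≠ 0`. Replacing `(y, ρ, ρ')` by the negatives we may assume `(i ρ).re < 0`. Take a small circle
around `ρ`, in `Im > 0`.., on which `L(y + σ v) ≠ 0`. For `y'` near `y` and `T` large,
`(i T)^{-d} F(i T (y' + σ v)) → L(y' + σ v)` uniformly (lower homogeneous components), so there is a zero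
`σ` in the disc (as in `exists_dir`, KReA: minimum principle). `τ = i T σ`: `τ.re ≤ -c T`, `‖τ‖ / T` bounded,
`ε = 1 / 2`.
-/

set_option autoImplicit false

namespace Pool.Agent.EXK2

open MvPolynomial Pool.Agent.EXL Pool.Agent.EXI Pool.Agent.EXK

theorem growth_of_nonhyp {n : ℕ} (F : MvPolynomial (Fin n) ℂ) (v : Fin n → ℤ)
    (h : NonHypC (homogeneousComponent F.totalDegree F) v) : Growth F v := by
  obtain ⟨y, ρ, ρ', hρ, h0, h1⟩ := h
  exact growth_aux F v y ρ ρ' hρ h0 h1

end Pool.Agent.EXK2
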