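import Pool.Agent.EXK2.Val
import Pool.Agent.EXK2.Concl
import Pool.Agent.EXK2.Nhg

/-!
# EXK2 / Fin: exact exponential-algebraic closedness in codimension one, one order vector

PROOF.  As EXK/KFin.lean with `exists_pl_of_val`, `growth_scale`, `growth_of_nonhyp`, `concl_codim2`.
-/

set_option autoImplicit false

namespace Pool.Agent.EXK2

open MvPolynomial Pool.Agent.EXL Pool.Agent.EXI Pool.Agent.EXK

theorem main2 {n : ℕ} (P : Ideal (MvPolynomial (Fin n ⊕ Fin n) ℂ)) (hP : P.IsPrime)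
    (hY : ∀ j : Fin n, (X (Sum.inr j) : MvPolynomial (Fin n ⊕ Fin n) ℂ) ∉ P)
    (hdim : Algebra.trdeg ℂ (MvPolynomial (Fin n ⊕ Fin n) ℂ ⧸ P) = n)
    (F : MvPolynomial (Fin n) ℂ) (hF0 : F ≠ 0)
    (hF : ∀ f : MvPolynomial (Fin n) ℂ, rename Sum.inl f ∈ P ↔ F ∣ f)
    (w : Valuation (MvPolynomial (Fin n ⊕ Fin n) ℂ) (WithZero (Multiplicative ℤ)))
    (hw : ∀ f, w f = 0 ↔ f ∈ P)
    (hwx : ∀ f : MvPolynomial (Fin n) ℂ, ¬ F ∣ f → w (rename Sum.inl f) = 1)
    (v : Fin n → ℤ) (hv : v ≠ 0) (hwv : ∀ j, w (X (Sum.inr j)) = WithZero.exp (-(v j)))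
    (hG : Growth F v)
    (h : MvPolynomial (Fin n ⊕ Fin n) ℂ) (hh : h ∉ P) :
    ∃ z : Fin n → ℂ, (∀ f ∈ P, eval (Sum.elim z fun j => Complex.exp (z j)) f = 0) ∧
      eval (Sum.elim z fun j => Complex.exp (z j)) h ≠ 0 := by
  classical
  obtain ⟨k, hk, p, hC, hp, hx⟩ := exists_generic2 P hP
    ((h.coeffs : Set ℂ) ∪ (F.coeffs : Set ℂ))
    ((Finset.countable_toSet _).union (Finset.countable_toSet _))
  obtain ⟨h₀, hh₀⟩ := exists_descent k h (fun c hc => hC (Or.inl hc))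
  obtain ⟨F₀, hF₀⟩ := exists_descent k F (fun c hc => hC (Or.inr hc))
  have hpe : Sum.elim (fun j => p (Sum.inl j)) (fun j => p (Sum.inr j)) = p := by
    funext i
    rcases i with i | i <;> rfl
  have hb : ∀ j, p (Sum.inr j) ≠ 0 := by
    intro j h0
    apply hY j
    have h2 := (hp (X (Sum.inr j))).1 (by rw [aeval_X, h0])
    rwa [map_X] at h2
  have hk0 : F₀ ≠ 0 := by
    rintro rfl
    rw [map_zero] at hF₀
    exact hF0 hF₀.symm
  have hker : ∀ f : MvPolynomial (Fin n) k, aeval (fun j => p (Sum.inl j)) f = 0 ↔ F₀ ∣ f := by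
    intro f
    have h1 : aeval (fun j => p (Sum.inl j)) f = aeval p (rename Sum.inl f) := by
      rw [aeval_rename]
      rfl
    rw [h1, hp, map_rename, hF, ← hF₀]
    exact ⟨dvd_of_map k F₀ f, fun h2 => map_dvd (map (algebraMap k ℂ)) h2⟩
  have htd := td_of_trdeg P hP k hk p hp hx n hdim
  obtain ⟨pl, A, B, v', g, θ, hg, hvg, hA, hB, hθ, hrel, hε⟩ := exists_pl_of_val k hk P w hw
    (fun f hf => hwx f fun hd => hf ((hF f).2 hd)) v hv hwv (fun j => p (Sum.inl j))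
    (fun j => p (Sum.inr j)) (by rw [hpe]; exact hp)
  have hv' : v' ≠ 0 := by
    rintro rfl
    apply hv
    funext j
    have h1 := hvg j
    rw [Pi.zero_apply, mul_zero] at h1
    rw [Pi.zero_apply, h1]
  have hG' : Growth (map (algebraMap k ℂ) F₀) v' := by
    rw [hF₀]
    exact growth_scale F v v' g hg hvg hG
  cases n with
  | zero => exact absurd (Subsingleton.elim _ _) hv
  | succ m =>
    have hta := td_of_ker k (fun j => p (Sum.inl j)) F₀ hk0 hker
    obtain ⟨a', b', hexp, hsp, hne⟩ := concl_codim2 k hk (fun j => p (Sum.inl j))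
      (fun j => p (Sum.inr j)) hb F₀ hker (by rw [hpe]; exact htd) hta pl A B v' θ hA hB hθ hrel
      hv' hε hG' h₀ (by
        rw [hpe]
        intro h0
        exact hh (hh₀ ▸ (hp h₀).1 h0))
    rw [hpe] at hsp
    have hb' : b' = fun j => Complex.exp (a' j) := funext hexp
    subst hb'
    refine ⟨a', ?_, ?_⟩
    · exact hx _ fun f hf => hsp f ((hp f).2 hf)
    · rw [← hh₀, eval_map, ← aeval_def]
      exact hne

/-- The same without a given valuation, if the condition holds in all directions. -/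
theorem main2_all {n : ℕ} (P : Ideal (MvPolynomial (Fin n ⊕ Fin n) ℂ)) (hP : P.IsPrime)
    (hY : ∀ j : Fin n, (X (Sum.inr j) : MvPolynomial (Fin n ⊕ Fin n) ℂ) ∉ P)
    (hdim : Algebra.trdeg ℂ (MvPolynomial (Fin n ⊕ Fin n) ℂ ⧸ P) = n)
    (F : MvPolynomial (Fin n) ℂ) (hF0 : F ≠ 0)
    (hF : ∀ f : MvPolynomial (Fin n) ℂ, rename Sum.inl f ∈ P ↔ F ∣ f)
    (hG : ∀ v : Fin n → ℤ, v ≠ 0 → Growth F v)
    (h : MvPolynomial (Fin n ⊕ Fin n) ℂ) (hh : h ∉ P) :
    ∃ z : Fin n → ℂ, (∀ f ∈ P, eval (Sum.elim z fun j => Complex.exp (z j)) f = 0) ∧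
      eval (Sum.elim z fun j => Complex.exp (z j)) h ≠ 0 := by
  classical
  obtain ⟨k, hk, p, hC, hp, hx⟩ := exists_generic2 P hP
    ((h.coeffs : Set ℂ) ∪ (F.coeffs : Set ℂ))
    ((Finset.countable_toSet _).union (Finset.countable_toSet _))
  obtain ⟨h₀, hh₀⟩ := exists_descent k h (fun c hc => hC (Or.inl hc))
  obtain ⟨F₀, hF₀⟩ := exists_descent k F (fun c hc => hC (Or.inr hc))
  have hpe : Sum.elim (fun j => p (Sum.inl j)) (fun j => p (Sum.inr j)) = p := by
    funext i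
    rcases i with i | i <;> rfl
  have hb : ∀ j, p (Sum.inr j) ≠ 0 := by
    intro j h0
    apply hY j
    have h2 := (hp (X (Sum.inr j))).1 (by rw [aeval_X, h0])
    rwa [map_X] at h2
  have hk0 : F₀ ≠ 0 := by
    rintro rfl
    rw [map_zero] at hF₀
    exact hF0 hF₀.symm
  have hker : ∀ f : MvPolynomial (Fin n) k, aeval (fun j => p (Sum.inl j)) f = 0 ↔ F₀ ∣ f := by
    intro f
    have h1 : aeval (fun j => p (Sum.inl j)) f = aeval p (rename Sum.inl f) := by
      rw [aeval_rename]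
      rfl
    rw [h1, hp, map_rename, hF, ← hF₀]
    exact ⟨dvd_of_map k F₀ f, fun h2 => map_dvd (map (algebraMap k ℂ)) h2⟩
  have htd := td_of_trdeg P hP k hk p hp hx n hdim
  cases n with
  | zero =>
    exfalso
    have h1 : rename Sum.inl F ∈ P := (hF F).2 dvd_rfl
    obtain ⟨c, rfl⟩ := C_surjective (Fin 0) F
    have hc : c ≠ 0 := by
      rintro rfl
      exact hF0 C_0
    rw [rename_C] at h1
    apply hP.ne_top
    rw [Ideal.eq_top_iff_one]
    have h2 := P.mul_mem_left (C c⁻¹) h1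
    rwa [← C_mul, inv_mul_cancel₀ hc, C_1] at h2
  | succ m =>
    have hta := td_of_ker k (fun j => p (Sum.inl j)) F₀ hk0 hker
    obtain ⟨pl, A, B, v, θ, hA, hB, hθ, hrel, hv, hε⟩ := exists_pl k (fun j => p (Sum.inl j))
      (fun j => p (Sum.inr j)) hb (by rw [hpe]; exact htd) hta
    obtain ⟨a', b', hexp, hsp, hne⟩ := concl_codim2 k hk (fun j => p (Sum.inl j))
      (fun j => p (Sum.inr j)) hb F₀ hker (by rw [hpe]; exact htd) hta pl A B v θ hA hB hθ hrel
      hv hε (by rw [hF₀]; exact hG v hv) h₀ (by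
        rw [hpe]
        intro h0
        exact hh (hh₀ ▸ (hp h₀).1 h0))
    rw [hpe] at hsp
    have hb' : b' = fun j => Complex.exp (a' j) := funext hexp
    subst hb'
    refine ⟨a', ?_, ?_⟩
    · exact hx _ fun f hf => hsp f ((hp f).2 hf)
    · rw [← hh₀, eval_map, ← aeval_def]
      exact hne

end Pool.Agent.EXK2
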