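import Pool.Agent.EXK2.Defs
import Pool.Agent.EXK.KNf

/-!
# EXK2 / Nf: normal form of a given place

This is the proof of `exists_nf` (EXK/KNf.lean) after `exists_pl`.
-/

set_option autoImplicit false

namespace Pool.Agent.EXK2

open MvPolynomial Pool.Agent.EXL Pool.Agent.EXI Pool.Agent.EXK

private lemma unit_zpow {k : Subfield ℂ} {K : Type} [Field K] [Algebra k K] (pl : Place k K)
    (e : pl.O) (he : pl.ρ e ≠ 0) (n : ℤ) :
    ∃ e' : pl.O, (e' : K) = (e : K) ^ n ∧ pl.ρ e' ≠ 0 := by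
  have he0 : (e : K) ≠ 0 := by
    intro h
    apply he
    have : e = 0 := Subtype.ext h
    rw [this, map_zero]
  rcases Int.eq_nat_or_neg n with ⟨l, rfl | rfl⟩
  · refine ⟨e ^ l, ?_, ?_⟩
    · rw [zpow_natCast]
      push_cast
      rfl
    · rw [map_pow]
      exact pow_ne_zero _ he
  · have h1 : (⟨(e : K)⁻¹, pl.inv_mem e he⟩ : pl.O) * e = 1 := by
      apply Subtype.ext
      show (e : K)⁻¹ * (e : K) = 1
      exact inv_mul_cancel₀ he0
    have h2 : pl.ρ (⟨(e : K)⁻¹, pl.inv_mem e he⟩ : pl.O) ≠ 0 := by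
      intro h
      have h3 := congrArg pl.ρ h1
      rw [map_mul, h, zero_mul, map_one] at h3
      exact one_ne_zero h3.symm
    refine ⟨(⟨(e : K)⁻¹, pl.inv_mem e he⟩ : pl.O) ^ l, ?_, ?_⟩
    · rw [zpow_neg, zpow_natCast, ← inv_pow]
      push_cast
      rfl
    · rw [map_pow]
      exact pow_ne_zero _ h2

private lemma unit_prod {k : Subfield ℂ} {K : Type} [Field K] [Algebra k K] (pl : Place k K)
    {ι : Type} (s : Finset ι) (e : ι → pl.O) (he : ∀ i, pl.ρ (e i) ≠ 0) (n : ι → ℤ) :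
    ∃ e' : pl.O, (e' : K) = ∏ i ∈ s, (e i : K) ^ n i ∧ pl.ρ e' ≠ 0 := by
  choose u hu1 hu2 using fun i => unit_zpow pl (e i) (he i) (n i)
  refine ⟨∏ i ∈ s, u i, ?_, ?_⟩
  · push_cast
    exact Finset.prod_congr rfl fun i _ => hu1 i
  · rw [map_prod]
    exact Finset.prod_ne_zero_iff.2 fun i _ => hu2 i

private lemma zpow_sum_mul {K : Type} [Field K] {ι : Type} (s : Finset ι) (t : K) (ht : t ≠ 0)
    (v n : ι → ℤ) (e : ι → K) :
    ∏ i ∈ s, (t ^ v i * e i) ^ n i = t ^ (∑ i ∈ s, n i * v i) * ∏ i ∈ s, e i ^ n i := by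
  classical
  induction s using Finset.induction_on with
  | empty => simp
  | insert a s ha ih =>
    rw [Finset.prod_insert ha, Finset.prod_insert ha, Finset.sum_insert ha, ih, zpow_add₀ ht,
      mul_zpow, ← zpow_mul, mul_comm (v a) (n a)]
    ring

/-- the polynomial `f(U X)` -/
private lemma exists_sub (k : Subfield ℂ) {n : ℕ} (U : Matrix (Fin n) (Fin n) ℤ)
    (f : MvPolynomial (Fin n) k) : ∃ f' : MvPolynomial (Fin n) k, ∀ x : Fin n → ℂ,
      aeval x f' = aeval (linZ U x) f := by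
  refine ⟨aeval (fun j => ∑ i, C ((U j i : ℤ) : k) * X i) f, fun x => ?_⟩
  rw [← AlgHom.comp_apply, comp_aeval]
  congr 2
  funext j
  rw [map_sum]
  unfold linZ
  refine Finset.sum_congr rfl fun i _ => ?_
  rw [map_mul, aeval_X, aeval_C]
  congr 1

theorem nf_of_pl (k : Subfield ℂ) {m : ℕ} (a b : Fin (m + 1) → ℂ) (hb : ∀ j, b j ≠ 0)
    (pl : Place k (IntermediateField.adjoin k (Set.range (Sum.elim a b))))
    (A B : Fin (m + 1) → IntermediateField.adjoin k (Set.range (Sum.elim a b)))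
    (v : Fin (m + 1) → ℤ) (θ : Fin (m + 1) → pl.O) (hA : ∀ j, (A j : ℂ) = a j)
    (hB : ∀ j, (B j : ℂ) = b j) (hθ : ∀ j, (θ j :
        IntermediateField.adjoin k (Set.range (Sum.elim a b))) = A j)
    (hrel : ∀ f : MvPolynomial (Fin (m + 1)) k, aeval (fun j => pl.ρ (θ j)) f = 0 ↔ aeval a f = 0)
    (hv : v ≠ 0) (hε : ∀ j, ∃ ε : pl.O, pl.ρ ε ≠ 0 ∧ B j = pl.t ^ v j * ε) :
    ∃ U : Matrix (Fin (m + 1)) (Fin (m + 1)) ℤ, IsUnit U.det ∧
      0 < ∑ i, U 0 i * v i ∧ (∀ j : Fin m, ∑ i, U j.succ i * v i = 0) ∧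
      ∃ A' B' : Fin (m + 1) → pl.O,
        (∀ j, ((A' j : IntermediateField.adjoin k (Set.range (Sum.elim a b))) : ℂ) =
          linZ U a j) ∧
        (∀ j, ((B' j : IntermediateField.adjoin k (Set.range (Sum.elim a b))) : ℂ) =
          powZ U b j) ∧
        pl.ρ (B' 0) = 0 ∧ (∀ j : Fin m, pl.ρ (B' j.succ) ≠ 0) ∧
        ∀ f : MvPolynomial (Fin (m + 1)) k, aeval (fun j => pl.ρ (A' j)) f = 0 ↔
          aeval (linZ U a) f = 0 := by
  choose ε hερ hBε using hε
  obtain ⟨U, hU, h0, h1⟩ := exists_unimodular v hv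
  -- the powers of the `B i`
  have key : ∀ j, ∃ e : pl.O, pl.ρ e ≠ 0 ∧
      ∏ i, B i ^ U j i = pl.t ^ (∑ i, U j i * v i) * (e : _) := by
    intro j
    obtain ⟨e, he1, he2⟩ := unit_prod pl Finset.univ ε hερ (U j)
    refine ⟨e, he2, ?_⟩
    rw [he1, ← zpow_sum_mul _ _ pl.t_ne]
    exact Finset.prod_congr rfl fun i _ => by rw [hBε]
  choose e he hpow using key
  obtain ⟨s, hs⟩ : ∃ s : ℕ, (∑ i, U 0 i * v i) = (s : ℤ) + 1 := by
    obtain ⟨s, hs⟩ := Int.eq_ofNat_of_zero_le (show 0 ≤ (∑ i, U 0 i * v i) - 1 by omega)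
    exact ⟨s, by omega⟩
  set T : pl.O := ⟨pl.t, pl.t_mem⟩ with hT
  set B' : Fin (m + 1) → pl.O := Fin.cons (T ^ (s + 1) * e 0) fun j => e j.succ with hB'
  have hB'K : ∀ j, (B' j : IntermediateField.adjoin k (Set.range (Sum.elim a b))) =
      ∏ i, B i ^ U j i := by
    intro j
    refine Fin.cases ?_ (fun j => ?_) j
    · rw [hpow, hs, hB', Fin.cons_zero, show ((s : ℤ) + 1) = ((s + 1 : ℕ) : ℤ) by push_cast; ring,
        zpow_natCast]
      push_cast
      rfl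
    · rw [hpow, h1, hB', Fin.cons_succ, zpow_zero, one_mul]
  refine ⟨U, hU, h0, h1, fun j => ∑ i, (U j i : pl.O) * θ i, B', fun j => ?_, fun j => ?_,
    ?_, fun j => ?_, fun f => ?_⟩
  · push_cast
    unfold linZ
    refine Finset.sum_congr rfl fun i _ => ?_
    rw [hθ, hA]
  · rw [hB'K]
    unfold powZ
    push_cast
    refine Finset.prod_congr rfl fun i _ => ?_
    have h2 := map_zpow₀ (IntermediateField.adjoin k (Set.range (Sum.elim a b))).val (B i) (U j i)
    refine h2.trans ?_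
    have h4 : (IntermediateField.adjoin k (Set.range (Sum.elim a b))).val (B i) = b i := hB i
    rw [h4]
  · rw [hB', Fin.cons_zero, map_mul, map_pow, hT, pl.ρt, zero_pow (Nat.succ_ne_zero s), zero_mul]
  · rw [hB', Fin.cons_succ]
    exact he _
  · obtain ⟨f', hf'⟩ := exists_sub k U f
    have h2 := hrel f'
    rw [hf', hf'] at h2
    rw [← h2]
    have h3 : (fun j => pl.ρ (∑ i, (U j i : pl.O) * θ i)) = linZ U fun j => pl.ρ (θ j) := by
      funext j
      unfold linZ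
      rw [map_sum]
      refine Finset.sum_congr rfl fun i _ => ?_
      rw [map_mul, map_intCast]
    rw [h3]

end Pool.Agent.EXK2
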