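import Pool.Agent.EXK2.Defs

/-!
# EXK2 / SelB: small positive `s` and large `T = s^(-e)`
-/

set_option autoImplicit false

namespace Pool.Agent.EXK2

open MvPolynomial Pool.Agent.EXL Pool.Agent.EXI Pool.Agent.EXK Topology

theorem ev_ne (k : Subfield ℂ) {m : ℕ} (α : Fin m → ℂ) (g : MvPolynomial (Fin m) k)
    (hg : aeval α g ≠ 0) (e : ℕ) (he : 1 ≤ e) :
    ∀ᶠ s : ℝ in 𝓝[>] 0, aeval (fun j => α j * ((s : ℂ)⁻¹) ^ e) g ≠ 0 := by
  set q : Polynomial ℂ := aeval (fun j => Polynomial.C (α j) * Polynomial.X) g with hq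
  have hev : ∀ t : ℂ, q.eval t = aeval (fun j => α j * t) g := by
    intro t
    have h1 := MvPolynomial.comp_aeval_apply (fun j => Polynomial.C (α j) * Polynomial.X)
      ((Polynomial.aeval t : Polynomial ℂ →ₐ[ℂ] ℂ).restrictScalars k) g
    rw [← hq] at h1
    have h2 : q.eval t = ((Polynomial.aeval t : Polynomial ℂ →ₐ[ℂ] ℂ).restrictScalars k) q := by
      rw [AlgHom.restrictScalars_apply, Polynomial.coe_aeval_eq_eval]
    rw [h2, h1]
    congr 2
    funext j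
    simp
  have hq0 : q ≠ 0 := by
    intro h0
    apply hg
    have h1 := hev 1
    rw [h0, Polynomial.eval_zero] at h1
    simpa using h1.symm
  have hfin : {T : ℝ | q.eval (T : ℂ) = 0}.Finite := by
    have h1 : {t : ℂ | q.IsRoot t}.Finite := Polynomial.finite_setOfPred_isRoot hq0
    exact Set.Finite.preimage (f := fun T : ℝ => (T : ℂ)) (Complex.ofReal_injective.injOn) h1
  have hT : ∀ᶠ T : ℝ in Filter.atTop, q.eval (T : ℂ) ≠ 0 :=
    (Filter.atTop_le_cofinite (α := ℝ)) hfin.compl_mem_cofinite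
  have htend : Filter.Tendsto (fun s : ℝ => (s⁻¹) ^ e) (𝓝[>] 0) Filter.atTop :=
    (Filter.tendsto_pow_atTop (by omega)).comp tendsto_inv_nhdsGT_zero
  filter_upwards [htend.eventually hT] with s hs
  rw [hev] at hs
  push_cast at hs
  exact hs

theorem freq_scale (e : ℕ) (he : 1 ≤ e) (P : ℝ → Prop) (h : ∃ᶠ T : ℝ in Filter.atTop, P T) :
    ∃ᶠ s : ℝ in 𝓝[>] 0, P ((s⁻¹) ^ e) := by
  have he0 : (0 : ℝ) < (e : ℝ) := by exact_mod_cast he
  have htend : Filter.Tendsto (fun T : ℝ => (T ^ (1 / (e : ℝ)))⁻¹) Filter.atTop (𝓝[>] 0) :=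
    tendsto_inv_atTop_nhdsGT_zero.comp (tendsto_rpow_atTop (by positivity))
  refine htend.frequently ?_
  refine (h.and_eventually (Filter.eventually_gt_atTop 0)).mono ?_
  rintro T ⟨hT, hT0⟩
  have h1 : ((T ^ (1 / (e : ℝ)))⁻¹)⁻¹ ^ e = T := by
    rw [inv_inv, ← Real.rpow_natCast, ← Real.rpow_mul hT0.le, one_div, inv_mul_cancel₀ he0.ne',
      Real.rpow_one]
  rw [h1]
  exact hT

end Pool.Agent.EXK2
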