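import Pool.Agent.EXK2.Defs
import Pool.Agent.EXK.KRoot

/-!
# EXK2 / SelC: the Puiseux embedding at infinity with `m` functions `α` and `N` functions `c`

As `emb_top` (EXI/CEmb.lean).
-/

set_option autoImplicit false

namespace Pool.Agent.EXK2

open MvPolynomial Pool.Agent.EXL Pool.Agent.EXI Pool.Agent.EXK Topology

/-- Evaluation at `a_i ζ⁻¹` is injective. -/
private lemma scale_ne (k : Subfield ℂ) {n : ℕ} (a : Fin n → ℂ) (ha : AlgebraicIndependent k a)
    (f : MvPolynomial (Fin n) k) (hf : f ≠ 0) :
    eval₂ (cst (le_Om k a)) (fun i : Fin n =>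
      (HahnSeries.single (-1 : ℤ) (⟨a i, mem_Om k a i⟩ : Om k a) : LaurentSeries (Om k a))) f ≠ 0 := by
  classical
  intro h0
  apply hf
  have hcomp : ∀ i, homogeneousComponent i f = 0 := by
    intro i
    by_cases hi : i ∈ Finset.range (f.totalDegree + 1)
    · apply (algebraicIndependent_iff.1 ha)
      have h1 : eval₂ (cst (le_Om k a)) (fun i : Fin n =>
          (HahnSeries.single (-1 : ℤ) (⟨a i, mem_Om k a i⟩ : Om k a) : LaurentSeries (Om k a))) f =
          ∑ j ∈ Finset.range (f.totalDegree + 1), (HahnSeries.single (-((1 : ℤ) * j))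
            (eval₂ (Subfield.inclusion (le_Om k a)) (fun i => (⟨a i, mem_Om k a i⟩ : Om k a))
              (homogeneousComponent j f)) : LaurentSeries (Om k a)) := by
        conv_lhs => rw [← sum_homogeneousComponent f]
        rw [eval₂_sum]
        exact Finset.sum_congr rfl fun j _ =>
          eval_hom (le_Om k a) 1 _ j _ (homogeneousComponent_isHomogeneous j f)
      have h2 := congrArg (fun x => HahnSeries.coeff x (-((1 : ℤ) * i))) h1
      simp only [h0] at h2
      rw [HahnSeries.coeff_zero, HahnSeries.coeff_sum, Finset.sum_eq_single_of_mem i hi] at h2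
      · rw [HahnSeries.coeff_single_same] at h2
        have h3 := congrArg (Om k a).subtype h2
        rw [map_zero, MvPolynomial.hom_eval₂] at h3
        exact h3.symm
      · intro j _ hji
        apply HahnSeries.coeff_single_of_ne
        intro h3
        apply hji
        omega
    · apply homogeneousComponent_eq_zero
      rw [Finset.mem_range] at hi
      omega
  rw [← sum_homogeneousComponent f]
  exact Finset.sum_eq_zero fun i _ => hcomp i

theorem emb_topN (k : Subfield ℂ) {m N : ℕ} (α : Fin m → ℂ) (hα : AlgebraicIndependent k α)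
    (c : Fin N → ℂ) (halg : ∀ j, IsAlgebraic (Algebra.adjoin k (Set.range α)) (c j)) :
    ∃ (e : ℕ) (σ : Kb k (Sum.elim α c) →+* LaurentSeries (Om k α)), 1 ≤ e ∧
      (∀ (x : ℂ) (hx : x ∈ k), σ ⟨x, mem_Kb_of_mem _ hx⟩ =
        HahnSeries.C (⟨x, le_Om k α hx⟩ : Om k α)) ∧
      ∀ i : Fin m, σ ⟨α i, mem_Kb k (Sum.elim α c) (Sum.inl i)⟩ =
        HahnSeries.single (-(e : ℤ)) (⟨α i, mem_Om k α i⟩ : Om k α) := by
  classical
  obtain ⟨κ, hκc, hκa⟩ := base_of_inj α hα (cst (le_Om k α)) _ (scale_ne k α hα)
  let F' : IntermediateField (IntermediateField.adjoin k (Set.range α)) ℂ :=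
    IntermediateField.adjoin (IntermediateField.adjoin k (Set.range α)) (Set.range c)
  have hint : ∀ j, IsIntegral (IntermediateField.adjoin k (Set.range α)) (c j) := by
    intro j
    have h1 := halg j
    have hle := IntermediateField.algebra_adjoin_le_adjoin k (Set.range α)
    have h2 : IsAlgebraic (IntermediateField.adjoin k (Set.range α)) (c j) := by
      obtain ⟨p, hp0, hp⟩ := h1
      refine ⟨p.map (Subalgebra.inclusion hle).toRingHom,
        (Polynomial.map_ne_zero_iff (Subalgebra.inclusion_injective hle)).2 hp0, ?_⟩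
      rw [Polynomial.aeval_def, Polynomial.eval₂_map]
      exact hp
    exact h2.isIntegral
  have hfd : FiniteDimensional (IntermediateField.adjoin k (Set.range α)) F' := by
    refine IntermediateField.finiteDimensional_adjoin ?_
    rintro x ⟨j, rfl⟩
    exact hint j
  have hac := isAlgClosed_Om k α
  obtain ⟨e, he, χ, hχc, hχ1, s, hs, hmin⟩ := emb (F := F') (Ω := Om k α) κ 0
  have hs0 : s ≠ 0 := by
    rintro rfl
    have hdeg := congrArg Polynomial.natDegree hmin
    rw [minpoly.zero, Polynomial.map_X, Polynomial.natDegree_X, Multiset.map_zero,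
      Multiset.prod_zero, Polynomial.natDegree_one] at hdeg
    exact one_ne_zero hdeg
  obtain ⟨σ, hσs⟩ := Multiset.exists_mem_of_ne_zero hs0
  have hσ := hs σ hσs
  have hle : ∀ x ∈ Kb k (Sum.elim α c), x ∈ F' := by
    intro x hx
    have h1 : Kb k (Sum.elim α c) ≤ F'.toSubfield := by
      rw [Subfield.closure_le]
      rintro y (hy | ⟨j | j, rfl⟩)
      · exact F'.algebraMap_mem (algebraMap k (IntermediateField.adjoin k (Set.range α)) ⟨y, hy⟩)
      · exact F'.algebraMap_mem ⟨α j, IntermediateField.subset_adjoin k _ ⟨j, rfl⟩⟩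
      · exact IntermediateField.subset_adjoin _ _ ⟨j, rfl⟩
    exact h1 hx
  let incl : Kb k (Sum.elim α c) →+* F' :=
    (Kb k (Sum.elim α c)).subtype.codRestrict F' (fun x => hle x x.2)
  refine ⟨e, σ.comp incl, he, ?_, ?_⟩
  · intro x hx
    have h1 := congrArg (fun g => g (algebraMap k (IntermediateField.adjoin k (Set.range α))
      ⟨x, hx⟩)) hσ
    simp only [RingHom.comp_apply] at h1
    rw [hκc] at h1
    change σ (algebraMap (IntermediateField.adjoin k (Set.range α)) F'
      (algebraMap k (IntermediateField.adjoin k (Set.range α)) ⟨x, hx⟩)) = _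
    rw [h1]
    exact hχc _
  · intro i
    have h1 := congrArg (fun g => g (⟨α i, IntermediateField.subset_adjoin k _ ⟨i, rfl⟩⟩ :
      IntermediateField.adjoin k (Set.range α))) hσ
    simp only [RingHom.comp_apply] at h1
    rw [hκa] at h1
    change σ (algebraMap (IntermediateField.adjoin k (Set.range α)) F'
      ⟨α i, IntermediateField.subset_adjoin k _ ⟨i, rfl⟩⟩) = _
    rw [h1]
    have h2 : (HahnSeries.single (-1 : ℤ) (⟨α i, mem_Om k α i⟩ : Om k α) :
        LaurentSeries (Om k α)) =
        HahnSeries.C (⟨α i, mem_Om k α i⟩ : Om k α) * (HahnSeries.single (1 : ℤ) 1)⁻¹ := by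
      rw [HahnSeries.inv_single, HahnSeries.C_apply, HahnSeries.single_mul_single, zero_add,
        inv_one, mul_one]
    rw [h2, map_mul, hχc, map_inv₀, hχ1, HahnSeries.inv_single, HahnSeries.C_apply,
      HahnSeries.single_mul_single, zero_add, inv_one, mul_one]

end Pool.Agent.EXK2
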