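import Pool.Agent.EXK2.SelA
import Pool.Agent.EXK2.SelB
import Pool.Agent.EXK2.SelC
import Pool.Agent.EXK.KTop

/-!
# EXK2 / Sel: the chart at infinity along a given branch

PROOF.  (0) `emb_topN`: as `emb_top` (EXI/CEmb.lean), with `m` functions `α` and `N` functions `c`.
(1) Let `θ_i`, `i : Fin D`, be the roots in `ℂ` (with multiplicity) of `F(X, α) ∈ ℂ[X]` (not zero: `F ≠ 0`
since `F(c j₀, α)` .. ; if `F = 0` then `c j₀, α` are independent, against `halg`; and `F(X, α) = 0` is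
impossible because `α` is algebraically independent). They are algebraic over `k(α)`. `F` generates the
relations of `(c j₀, α)`, so it is irreducible and `(θ_i, α)` has the same relations: if `f(θ_i, α) = 0` and
`F ∤ f`, then the resultant (or Bezout over `k(α)`: `F(X, α)` is irreducible in `k(α)[X]`, and is a constant
times `minpoly (c j₀)`, see `rel_minpoly` in KRoot) gives a contradiction. `exists_aut` (EXL/Aut; `k`
countable): `τ_i : ℂ ≃+* ℂ` over `k`, `τ_i (α j) = α j`, `τ_i (c j₀) = θ_i`.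
(2) `c' : Fin D × Fin N → ℂ`, `c' (i, j) = τ_i (c j) ≠ 0` (via an equivalence with some `Fin N'`), algebraic over
`k(α)`. `emb_topN` and `top_chartN` for `c'`: `e, ν', V'`. For each `i` the relations of `(α, τ_i ∘ c)` over `k`
are those of `(α, c)`, so `Spec k (Sum.elim α c) (Sum.elim (α s^{-e}) (fun j => s^{ν' (i,j)} V' (i,j)))`.
(3) For small `s > 0` put `r_i = s^{ν' (i,j₀)} V' (i,j₀) (α, s)`. The identity `F(X, α) = lc(α) ∏ (X - θ_i)`
(coefficients: polynomial relations over `k` between `α` and the `θ_i`) specializes to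
`F(X, α s^{-e}) = lc(α s^{-e}) ∏ (X - r_i)`, where `lc(α s^{-e}) ≠ 0` for all but finitely many.. small `s`
(a nonzero polynomial in `s^{-1}`, as `lc(α) ≠ 0` for the generic `α`: look at the leading form of `lc`). So
every root `x` of `F(X, T α)`, `T = s^{-e}`, is one of the `r_i`.
(4) `T = s^{-e}` maps neighbourhoods of `0+` onto neighbourhoods of `∞`; by the pigeonhole principle
some `i` occurs for arbitrarily small `s`. `δ = e ε`. Take `ν = ν' (i, ·)`, `V = V' (i, ·)`.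
-/

set_option autoImplicit false

namespace Pool.Agent.EXK2

open MvPolynomial Pool.Agent.EXL Pool.Agent.EXI Pool.Agent.EXK Topology

private lemma sel_map {k : Subfield ℂ} (τ : ℂ ≃+* ℂ) (hτ : ∀ x ∈ k, τ x = x) {ι : Type*}
    (x : ι → ℂ) (f : MvPolynomial ι k) : aeval (fun i => τ (x i)) f = τ (aeval x f) := by
  let τ' : ℂ →ₐ[k] ℂ := { τ.toRingHom with commutes' := fun r => hτ r r.2 }
  exact (MvPolynomial.comp_aeval_apply x τ' f).symm

private lemma sel_alg {k : Subfield ℂ} (τ : ℂ ≃+* ℂ) (hτ : ∀ x ∈ k, τ x = x) {m : ℕ}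
    (α : Fin m → ℂ) (hα : ∀ j, τ (α j) = α j) (x : ℂ)
    (hx : IsAlgebraic (Algebra.adjoin k (Set.range α)) x) :
    IsAlgebraic (Algebra.adjoin k (Set.range α)) (τ x) := by
  have h1 : ∀ r ∈ Algebra.adjoin k (Set.range α), τ r = r := by
    intro r hr
    induction hr using Algebra.adjoin_induction with
    | mem x hx =>
      obtain ⟨j, rfl⟩ := hx
      exact hα j
    | algebraMap c => exact hτ c c.2
    | add x y _ _ hx hy => rw [map_add, hx, hy]
    | mul x y _ _ hx hy => rw [map_mul, hx, hy]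
  let τ' : ℂ →ₐ[Algebra.adjoin k (Set.range α)] ℂ :=
    { τ.toRingHom with commutes' := fun r => h1 r r.2 }
  exact hx.algHom τ'

/-- Transfer of a factorisation to a specialization. -/
private lemma sel_fact {k : Subfield ℂ} {m D M : ℕ} (α : Fin m → ℂ) (c : Fin M → ℂ)
    (q : Fin D → Fin M) (F : MvPolynomial (Fin (m + 1)) k) (L : MvPolynomial (Fin m) k)
    (h : ∀ x : ℂ, aeval (Fin.cons x α : Fin (m + 1) → ℂ) F = aeval α L * ∏ i, (x - c (q i)))
    (α' : Fin m → ℂ) (c' : Fin M → ℂ)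
    (hs : Spec k (Sum.elim α c) (Sum.elim α' c')) (x : ℂ) :
    aeval (Fin.cons x α' : Fin (m + 1) → ℂ) F = aeval α' L * ∏ i, (x - c' (q i)) := by
  refine fact_of_nat α' F _ _ (fun z => ?_) x
  set G : MvPolynomial (Fin m ⊕ Fin M) k :=
    aeval (Fin.cons (C ((z : ℕ) : k)) (fun j => X (Sum.inl j)) :
      Fin (m + 1) → MvPolynomial (Fin m ⊕ Fin M) k) F -
      rename Sum.inl L * ∏ i, (C ((z : ℕ) : k) - X (Sum.inr (q i))) with hG
  have hGe : ∀ (a : Fin m → ℂ) (b : Fin M → ℂ), aeval (Sum.elim a b) G =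
      aeval (Fin.cons (z : ℂ) a : Fin (m + 1) → ℂ) F - aeval a L * ∏ i, ((z : ℂ) - b (q i)) := by
    intro a b
    rw [hG, map_sub, map_mul, map_prod, aeval_rename, Sum.elim_comp_inl]
    congr 1
    · rw [MvPolynomial.comp_aeval_apply]
      congr 2
      funext i
      refine Fin.cases ?_ (fun j => ?_) i
      · rw [Fin.cons_zero, Fin.cons_zero, aeval_C, map_natCast]
      · rw [Fin.cons_succ, Fin.cons_succ, aeval_X, Sum.elim_inl]
    · congr 1
      refine Finset.prod_congr rfl fun i _ => ?_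
      rw [map_sub, aeval_C, aeval_X, Sum.elim_inr, map_natCast]
  have h1 : aeval (Sum.elim α c) G = 0 := by rw [hGe, h, sub_self]
  have h2 := hs G h1
  rw [hGe, sub_eq_zero] at h2
  exact h2

theorem sel (k : Subfield ℂ) (hk : (k : Set ℂ).Countable) {m N : ℕ} (α : Fin m → ℂ)
    (hα : AlgebraicIndependent k α) (c : Fin N → ℂ) (hc0 : ∀ j, c j ≠ 0)
    (halg : ∀ j, IsAlgebraic (Algebra.adjoin k (Set.range α)) (c j)) (j₀ : Fin N)
    (F : MvPolynomial (Fin (m + 1)) k)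
    (hF : ∀ f : MvPolynomial (Fin (m + 1)) k,
      aeval (Fin.cons (c j₀) α : Fin (m + 1) → ℂ) f = 0 ↔ F ∣ f) (ε : ℝ) (hε : 0 < ε)
    (hgrow : ∃ᶠ T : ℝ in Filter.atTop, ∃ x : ℂ,
      aeval (Fin.cons x (fun j => (T : ℂ) * α j) : Fin (m + 1) → ℂ) F = 0 ∧
        x.re ≤ -T ^ ε * (1 + ‖x‖ / T)) :
    ∃ (e : ℕ) (ν : Fin N → ℤ) (V : Fin N → (Fin m → ℂ) × ℂ → ℂ) (δ : ℝ), 1 ≤ e ∧ 0 < δ ∧
      (∀ j, ContDiffAt ℂ 1 (V j) (α, 0)) ∧ (∀ j, V j (α, 0) ≠ 0) ∧
      (∀ᶠ p : (Fin m → ℂ) × ℂ in 𝓝 (α, 0), p.2 ≠ 0 →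
        Spec k (Sum.elim α c)
          (Sum.elim (fun j => p.1 j * (p.2⁻¹) ^ e) fun j => p.2 ^ ν j * V j p)) ∧
      ∃ᶠ s : ℝ in 𝓝[>] 0, ((s : ℂ) ^ ν j₀ * V j₀ (α, s)).re ≤
        -s ^ (-δ) * (1 + ‖(s : ℂ) ^ ν j₀ * V j₀ (α, s)‖ * s ^ e) := by
  obtain ⟨D, τ, L, hL, hτk, hτα, hfac⟩ := sel_aut k hk α hα c halg j₀ F hF
  let q : Fin D × Fin N ≃ Fin (D * N) := finProdFinEquiv
  let c' : Fin (D * N) → ℂ := fun l => τ (q.symm l).1 (c (q.symm l).2)
  have hc' : ∀ i j, c' (q (i, j)) = τ i (c j) := by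
    intro i j
    show τ (q.symm (q (i, j))).1 (c (q.symm (q (i, j))).2) = _
    rw [Equiv.symm_apply_apply]
  have hc'0 : ∀ l, c' l ≠ 0 := fun l => (map_ne_zero_iff _ (τ _).injective).2 (hc0 _)
  have halg' : ∀ l, IsAlgebraic (Algebra.adjoin k (Set.range α)) (c' l) := fun l =>
    sel_alg (τ _) (hτk _) α (hτα _) _ (halg _)
  obtain ⟨e, σ, he, hσk, hσα⟩ := emb_topN k α hα c' halg'
  obtain ⟨ν', V', hV1, hV2, -, -, hsp⟩ := top_chartN k α hα c' hc'0 halg' e he σ hσk hσα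
  -- specializations of `(α, c)`
  have hA : ∀ i : Fin D, ∀ᶠ p : (Fin m → ℂ) × ℂ in 𝓝 (α, 0), p.2 ≠ 0 →
      Spec k (Sum.elim α c)
        (Sum.elim (fun j => p.1 j * (p.2⁻¹) ^ e)
          fun j => p.2 ^ ν' (q (i, j)) * V' (q (i, j)) p) := by
    intro i
    filter_upwards [hsp] with p hp hp2 f hf
    have h1 : aeval (Sum.elim α c') (rename (Sum.map id (fun j => q (i, j))) f) = 0 := by
      rw [aeval_rename]
      have h2 : (Sum.elim α c' ∘ Sum.map id (fun j => q (i, j)) : Fin m ⊕ Fin N → ℂ) =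
          fun l => τ i (Sum.elim α c l) := by
        funext l
        rcases l with j | j
        · simp only [Function.comp_apply, Sum.map_inl, Sum.elim_inl, id_eq]
          exact (hτα i j).symm
        · simp only [Function.comp_apply, Sum.map_inr, Sum.elim_inr]
          exact hc' i j
      rw [h2, sel_map (τ i) (hτk i), hf, map_zero]
    have h3 := hp hp2 _ h1
    rw [aeval_rename] at h3
    rw [← h3]
    congr 2
    funext l
    rcases l with j | j
    · simp only [Function.comp_apply, Sum.map_inl, Sum.elim_inl, id_eq]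
    · simp only [Function.comp_apply, Sum.map_inr, Sum.elim_inr]
  have hLα : aeval α L ≠ 0 := by
    intro h0
    exact hL ((algebraicIndependent_iff.1 hα) L h0)
  have htend : Filter.Tendsto (fun s : ℝ => (α, (s : ℂ))) (𝓝[>] 0) (𝓝 (α, 0)) := by
    have h1 : ContinuousAt (fun s : ℝ => (α, (s : ℂ))) 0 := by fun_prop
    have h2 := h1.tendsto
    simp only [Complex.ofReal_zero] at h2
    exact h2.mono_left nhdsWithin_le_nhds
  have hfreq := freq_scale e he _ hgrow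
  have hfreq2 : ∃ᶠ s : ℝ in 𝓝[>] 0, ∃ i : Fin D,
      ((s : ℂ) ^ ν' (q (i, j₀)) * V' (q (i, j₀)) (α, s)).re ≤
        -s ^ (-((e : ℝ) * ε)) * (1 + ‖(s : ℂ) ^ ν' (q (i, j₀)) * V' (q (i, j₀)) (α, s)‖ *
          s ^ e) := by
    refine (hfreq.and_eventually ((htend.eventually hsp).and
      ((ev_ne k α L hLα e he).and self_mem_nhdsWithin))).mono ?_
    rintro s ⟨⟨x, hx0, hx⟩, h2, h3, hs⟩
    have hs0 : (0 : ℝ) < s := hs
    have hsc : (s : ℂ) ≠ 0 := Complex.ofReal_ne_zero.2 hs0.ne'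
    have h4 := sel_fact α c' (fun i => q (i, j₀)) F L (fun x => by
      rw [hfac x]
      simp only [hc']) _ _ (h2 hsc) x
    have h5 : (fun j => (((s⁻¹) ^ e : ℝ) : ℂ) * α j) =
        fun j => α j * ((s : ℂ)⁻¹) ^ e := by
      funext j
      push_cast
      ring
    rw [h5] at hx0
    have h6 : ∏ i, (x - (s : ℂ) ^ ν' (q (i, j₀)) * V' (q (i, j₀)) (α, s)) = 0 := by
      have h7 := h4.symm.trans hx0
      exact (mul_eq_zero.1 h7).resolve_left h3
    obtain ⟨i, -, hi⟩ := Finset.prod_eq_zero_iff.1 h6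
    refine ⟨i, ?_⟩
    rw [← sub_eq_zero.1 hi]
    have h8 : ((s⁻¹) ^ e : ℝ) ^ ε = s ^ (-((e : ℝ) * ε)) := by
      rw [← Real.rpow_natCast, ← Real.rpow_mul (inv_nonneg.2 hs0.le), Real.inv_rpow hs0.le,
        ← Real.rpow_neg hs0.le]
    rw [h8] at hx
    have h9 : ‖x‖ / (s⁻¹) ^ e = ‖x‖ * s ^ e := by
      rw [inv_pow, div_inv_eq_mul]
    rw [h9] at hx
    exact hx
  obtain ⟨i, hi⟩ : ∃ i : Fin D, ∃ᶠ s : ℝ in 𝓝[>] 0,
      ((s : ℂ) ^ ν' (q (i, j₀)) * V' (q (i, j₀)) (α, s)).re ≤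
        -s ^ (-((e : ℝ) * ε)) * (1 + ‖(s : ℂ) ^ ν' (q (i, j₀)) * V' (q (i, j₀)) (α, s)‖ *
          s ^ e) := by
    by_contra hcon
    push Not at hcon
    apply hfreq2
    have h1 := Filter.eventually_all.2 hcon
    filter_upwards [h1] with s hs
    rintro ⟨i, hi⟩
    exact absurd hi (not_le.2 (hs i))
  refine ⟨e, fun j => ν' (q (i, j)), fun j => V' (q (i, j)), (e : ℝ) * ε, he, ?_,
    fun j => hV1 _, fun j => hV2 _, hA i, hi⟩
  have : (0 : ℝ) < e := by exact_mod_cast he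
  positivity

end Pool.Agent.EXK2
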