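import Pool.Agent.EXK2.Defs
import Pool.Agent.EXK.KRoot
import Pool.Agent.EXL.Aut

/-!
# EXK2 / SelA: the roots of `F(X, α)` are conjugates of `c j₀`

`F(X, α)` is a constant of `k(α)` times the minimal polynomial of `c j₀` (`rel_minpoly`), so all its roots
`θ` satisfy the same relations over `k(α)`, and `exists_aut` gives automorphisms `τ` of `ℂ` over `k(α)`
with `τ (c j₀) = θ`. `fact_of_nat`: a factorisation which holds at the natural numbers holds everywhere.
-/

set_option autoImplicit false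

namespace Pool.Agent.EXK2

open MvPolynomial Pool.Agent.EXL Pool.Agent.EXI Pool.Agent.EXK Topology

private lemma sl_val (k : Subfield ℂ) {m : ℕ} (α : Fin m → ℂ) (r : ℂ)
    (f : MvPolynomial (Fin (m + 1)) k) :
    Polynomial.aeval r ((finSuccEquiv k m f).map (evE k α)) =
      aeval (Fin.cons r α : Fin (m + 1) → ℂ) f := by
  rw [Polynomial.aeval_def, Polynomial.eval₂_map, eval_fse, aeval_def]
  congr 1
  · refine RingHom.ext fun c => ?_
    rw [RingHom.comp_apply, RingHom.comp_apply, evE]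
    change algebraMap _ ℂ (aeval _ (C c)) = _
    rw [aeval_C]
    rfl
  · funext i
    refine Fin.cases ?_ (fun j => ?_) i
    · rfl
    · rw [Fin.cons_succ, Fin.cons_succ, RingHom.comp_apply, evE]
      change algebraMap _ ℂ (aeval _ (X j)) = _
      rw [aeval_X]
      rfl

private lemma sl_evE (k : Subfield ℂ) {m : ℕ} (α : Fin m → ℂ) (f : MvPolynomial (Fin m) k) :
    ((evE k α f : IntermediateField.adjoin k (Set.range α)) : ℂ) = aeval α f := by
  have h5 : (IntermediateField.adjoin k (Set.range α)).val.comp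
      (aeval fun i => (⟨α i, IntermediateField.subset_adjoin k _ ⟨i, rfl⟩⟩ :
        IntermediateField.adjoin k (Set.range α))) = aeval α := by
    apply MvPolynomial.algHom_ext
    intro l
    rw [AlgHom.comp_apply, aeval_X, aeval_X]
    rfl
  exact congrArg (fun g => g f) h5

/-- The evaluation at a point with the first coordinate free. -/
private lemma sl_eval {k : Subfield ℂ} {m : ℕ} (a : Fin m → ℂ) (F : MvPolynomial (Fin (m + 1)) k)
    (x : ℂ) :
    ((finSuccEquiv k m F).map (aeval a : MvPolynomial (Fin m) k →ₐ[k] ℂ).toRingHom).eval x =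
      aeval (Fin.cons x a : Fin (m + 1) → ℂ) F := by
  rw [Polynomial.eval_map, eval_fse, aeval_def]
  congr 1
  · refine RingHom.ext fun c => ?_
    change aeval a (C c) = _
    rw [aeval_C]
  · funext i
    refine Fin.cases ?_ (fun j => ?_) i
    · rfl
    · rw [Fin.cons_succ, Fin.cons_succ]
      change aeval a (X j) = _
      rw [aeval_X]

/-- A factorisation which holds at the natural numbers holds everywhere. -/
theorem fact_of_nat {k : Subfield ℂ} {m D : ℕ} (a : Fin m → ℂ) (F : MvPolynomial (Fin (m + 1)) k)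
    (g : ℂ) (b : Fin D → ℂ)
    (h : ∀ z : ℕ, aeval (Fin.cons (z : ℂ) a : Fin (m + 1) → ℂ) F = g * ∏ i, ((z : ℂ) - b i))
    (x : ℂ) : aeval (Fin.cons x a : Fin (m + 1) → ℂ) F = g * ∏ i, (x - b i) := by
  set P₁ := (finSuccEquiv k m F).map (aeval a : MvPolynomial (Fin m) k →ₐ[k] ℂ).toRingHom with hP₁
  set P₂ : Polynomial ℂ := Polynomial.C g * ∏ i, (Polynomial.X - Polynomial.C (b i)) with hP₂
  have h2 : ∀ y : ℂ, P₂.eval y = g * ∏ i, (y - b i) := by
    intro y
    rw [hP₂, Polynomial.eval_mul, Polynomial.eval_C, Polynomial.eval_prod]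
    simp
  have h3 : P₁ = P₂ := by
    apply Polynomial.eq_of_infinite_eval_eq
    refine Set.Infinite.mono ?_ (Set.infinite_range_of_injective (Nat.cast_injective (R := ℂ)))
    rintro y ⟨z, rfl⟩
    change P₁.eval (z : ℂ) = P₂.eval (z : ℂ)
    rw [hP₁, sl_eval, h2, h z]
  rw [← sl_eval, ← hP₁, h3, h2]

/-- The roots of `F(X, α)`. -/
private lemma sl_roots (k : Subfield ℂ) {m : ℕ} (α : Fin m → ℂ) (hα : AlgebraicIndependent k α)
    (r : ℂ) (halg : IsAlgebraic (Algebra.adjoin k (Set.range α)) r)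
    (F : MvPolynomial (Fin (m + 1)) k)
    (hF : ∀ f : MvPolynomial (Fin (m + 1)) k,
      aeval (Fin.cons r α : Fin (m + 1) → ℂ) f = 0 ↔ F ∣ f) :
    ∃ (D : ℕ) (θ : Fin D → ℂ) (g : MvPolynomial (Fin m) k), aeval α g ≠ 0 ∧
      (∀ x : ℂ, aeval (Fin.cons x α : Fin (m + 1) → ℂ) F = aeval α g * ∏ i, (x - θ i)) ∧
      ∀ i, ∀ f : MvPolynomial (Fin (m + 1)) k,
        aeval (Fin.cons r α : Fin (m + 1) → ℂ) f = 0 ↔
          aeval (Fin.cons (θ i) α : Fin (m + 1) → ℂ) f = 0 := by
  classical
  have hint : IsIntegral (IntermediateField.adjoin k (Set.range α)) r := by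
    have hle := IntermediateField.algebra_adjoin_le_adjoin k (Set.range α)
    have h2 : IsAlgebraic (IntermediateField.adjoin k (Set.range α)) r := by
      obtain ⟨p, hp0, hp⟩ := halg
      refine ⟨p.map (Subalgebra.inclusion hle).toRingHom,
        (Polynomial.map_ne_zero_iff (Subalgebra.inclusion_injective hle)).2 hp0, ?_⟩
      rw [Polynomial.aeval_def, Polynomial.eval₂_map]
      exact hp
    exact h2.isIntegral
  obtain ⟨q, hq0, hq⟩ := rel_minpoly k α r F hF
  set M := minpoly (IntermediateField.adjoin k (Set.range α)) r with hM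
  have hMm : M.Monic := minpoly.monic hint
  set Mc := M.map (algebraMap (IntermediateField.adjoin k (Set.range α)) ℂ) with hMc
  have hMcm : Mc.Monic := hMm.map _
  have hsp : Mc.Splits := IsAlgClosed.splits Mc
  set L := Mc.roots.toList with hL
  have hprod : Mc = ∏ i : Fin L.length, (Polynomial.X - Polynomial.C (L.get i)) := by
    have h1 := hsp.eq_prod_roots
    rw [hMcm.leadingCoeff, map_one, one_mul] at h1
    rw [h1, ← Multiset.coe_toList Mc.roots, Multiset.map_coe, Multiset.prod_coe, ← hL]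
    rw [← List.prod_ofFn]
    congr 1
    apply List.ext_get
    · simp
    · intro n h1 h2
      simp
  have hinj : Function.Injective (evE k α) := by
    rw [injective_iff_map_eq_zero]
    intro f hf
    apply (algebraicIndependent_iff.1 hα)
    rw [← sl_evE, hf]
    rfl
  have hlc : evE k α (finSuccEquiv k m F).leadingCoeff = q := by
    rw [← Polynomial.leadingCoeff_map_of_injective hinj, hq, Polynomial.leadingCoeff_mul,
      Polynomial.leadingCoeff_C, hMm.leadingCoeff, mul_one]
  have hg : aeval α (finSuccEquiv k m F).leadingCoeff = (q : ℂ) := by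
    rw [← sl_evE, hlc]
  refine ⟨L.length, L.get, (finSuccEquiv k m F).leadingCoeff, ?_, ?_, ?_⟩
  · rw [hg]
    intro h0
    exact hq0 (Subtype.ext h0)
  · intro x
    rw [← sl_val, hq, map_mul, Polynomial.aeval_C, hg, Polynomial.aeval_def,
      ← Polynomial.eval_map, ← hMc, hprod, Polynomial.eval_prod]
    simp
  · intro i f
    have hroot : Polynomial.aeval (L.get i) M = 0 := by
      have h1 : L.get i ∈ Mc.roots := by
        rw [← Multiset.mem_toList, ← hL]
        exact List.get_mem L i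
      have h2 := (Polynomial.mem_roots'.1 h1).2
      rw [Polynomial.IsRoot, hMc, Polynomial.eval_map] at h2
      exact h2
    have hmin : M = minpoly (IntermediateField.adjoin k (Set.range α)) (L.get i) :=
      minpoly.eq_of_irreducible_of_monic (minpoly.irreducible hint) hroot hMm
    rw [← sl_val, ← sl_val, ← minpoly.dvd_iff, ← minpoly.dvd_iff, ← hM, ← hmin]

theorem sel_aut (k : Subfield ℂ) (hk : (k : Set ℂ).Countable) {m N : ℕ} (α : Fin m → ℂ)
    (hα : AlgebraicIndependent k α) (c : Fin N → ℂ)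
    (halg : ∀ j, IsAlgebraic (Algebra.adjoin k (Set.range α)) (c j)) (j₀ : Fin N)
    (F : MvPolynomial (Fin (m + 1)) k)
    (hF : ∀ f : MvPolynomial (Fin (m + 1)) k,
      aeval (Fin.cons (c j₀) α : Fin (m + 1) → ℂ) f = 0 ↔ F ∣ f) :
    ∃ (D : ℕ) (τ : Fin D → (ℂ ≃+* ℂ)) (L : MvPolynomial (Fin m) k), L ≠ 0 ∧
      (∀ i, ∀ x ∈ k, τ i x = x) ∧ (∀ i j, τ i (α j) = α j) ∧
      ∀ x : ℂ, aeval (Fin.cons x α : Fin (m + 1) → ℂ) F = aeval α L * ∏ i, (x - τ i (c j₀)) := by
  obtain ⟨D, θ, g, hg, hfac, hrel⟩ := sl_roots k α hα (c j₀) (halg j₀) F hF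
  have hex : ∀ i : Fin D, ∃ σ : ℂ ≃+* ℂ, (∀ x ∈ k, σ x = x) ∧
      ∀ l : Fin (m + 1), σ ((Fin.cons (c j₀) α : Fin (m + 1) → ℂ) l) =
        (Fin.cons (θ i) α : Fin (m + 1) → ℂ) l := fun i => exists_aut k hk _ _ (hrel i)
  choose τ hτk hτ using hex
  refine ⟨D, τ, g, ?_, hτk, fun i j => ?_, fun x => ?_⟩
  · rintro rfl
    exact hg (map_zero _)
  · have := hτ i j.succ
    rwa [Fin.cons_succ, Fin.cons_succ] at this
  · rw [hfac x]
    congr 1
    refine Finset.prod_congr rfl fun i _ => ?_
    have := hτ i 0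
    rw [Fin.cons_zero, Fin.cons_zero] at this
    rw [this]

end Pool.Agent.EXK2
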