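import Pool.Agent.EXK2.Defs

/-!
# EXK2 / Val: the place of a discrete valuation

PROOF.  `K = k(a, b)`. `w` gives a valuation `wK` of `K`: `wK (f(a,b) / h(a,b)) = w(map f) / w(map h)` (well
defined by `hp`, `hw`). Its value group on `K^*` is a subgroup of `ℤ`, not `0` (`v ≠ 0`); let `g > 0`
generate it and `t` have the value `exp (-g)`. `O = {wK ≤ 1}`. The residue field of `O` is countable
(`K` is countable) and contains `k`, so it embeds in `ℂ` over `k` (`gen_embed` in EXJ/JGen.lean, private: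
copy it): `ρ`. `inv_mem`, `fac` as for every discrete valuation ring (`ρ e ≠ 0 ↔ wK e = 1`). `θ j = a j`
(`wK (a j) ≤ 1`: `a j = 0` or `1` by `hwx`). For `f` over `k` in the `x`: `ρ(f(θ)) = 0` iff `wK (f(a)) < 1` iff
`f(a) = 0` (otherwise `map f` is not in `P` and `hwx` gives `w = 1`). `v j = g * v' j`, `B j = t^(v' j) ε`.
-/

set_option autoImplicit false

namespace Pool.Agent.EXK2

open MvPolynomial Pool.Agent.EXL Pool.Agent.EXI Pool.Agent.EXK

open Cardinal in
/-- Uncountable algebraically closed fields containing the same countable ring are isomorphic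
over it. -/
private theorem val_iso {R K L : Type} [CommRing R] [Field K] [Field L] [Algebra R K] [Algebra R L]
    [IsAlgClosed K] [IsAlgClosed L] [FaithfulSMul R K] [FaithfulSMul R L]
    (hR : #R ≤ ℵ₀) (hK : ℵ₀ < #K) (hKL : #K = #L) :
    ∃ σ : K ≃+* L, ∀ r, σ (algebraMap R K r) = algebraMap R L r := by
  obtain ⟨s, hs⟩ := exists_isTranscendenceBasis R K
  obtain ⟨t, ht⟩ := exists_isTranscendenceBasis R L
  have : Nontrivial R := RingHom.domain_nontrivial (algebraMap R K)
  have h1 := IsAlgClosed.cardinal_eq_cardinal_transcendence_basis_of_aleph0_lt' _ hs hR hK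
  have h2 := IsAlgClosed.cardinal_eq_cardinal_transcendence_basis_of_aleph0_lt' _ ht hR (hKL ▸ hK)
  obtain ⟨e⟩ := Cardinal.eq.1 (h1.symm.trans (hKL.trans h2))
  let := IsAlgClosed.isAlgClosure_of_transcendence_basis _ hs
  let := IsAlgClosed.isAlgClosure_of_transcendence_basis _ ht
  have e' : Algebra.adjoin R (Set.range (Subtype.val : s → K)) ≃ₐ[R]
      Algebra.adjoin R (Set.range (Subtype.val : t → L)) :=
    (hs.1.aevalEquiv.symm.trans (MvPolynomial.renameEquiv R e)).trans ht.1.aevalEquiv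
  refine ⟨IsAlgClosure.equivOfEquiv K L e'.toRingEquiv, fun r => ?_⟩
  have h3 : algebraMap R K r = algebraMap (Algebra.adjoin R (Set.range (Subtype.val : s → K))) K
    (algebraMap R _ r) := rfl
  rw [h3, IsAlgClosure.equivOfEquiv_algebraMap]
  have h4 : e'.toRingEquiv (algebraMap R _ r) = algebraMap R _ r := e'.commutes r
  rw [h4]
  rfl

open Cardinal in
/-- A countable domain over a countable subfield of `ℂ` embeds into `ℂ` over this subfield. -/
private theorem val_embed {k : Subfield ℂ} (hk : #k ≤ ℵ₀) {R : Type} [CommRing R] [IsDomain R]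
    [Algebra k R] (hR : #R ≤ ℵ₀) : ∃ φ : R →ₐ[k] ℂ, Function.Injective φ := by
  have hc : #(AlgebraicClosure (FractionRing (MvPolynomial ℝ R))) = #ℂ := by
    have h1 : #(MvPolynomial ℝ R) = 𝔠 := by
      rw [MvPolynomial.cardinalMk_eq_max, Cardinal.mk_real]
      rw [max_eq_right (hR.trans Cardinal.aleph0_le_continuum),
        max_eq_left Cardinal.aleph0_le_continuum]
    have h2 : #(FractionRing (MvPolynomial ℝ R)) = 𝔠 := by
      rw [FractionRing.cardinalMk, h1]
    have h3 := Algebra.IsAlgebraic.cardinalMk_le_max (FractionRing (MvPolynomial ℝ R))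
      (AlgebraicClosure (FractionRing (MvPolynomial ℝ R)))
    rw [h2, max_eq_left Cardinal.aleph0_le_continuum] at h3
    rw [Cardinal.mk_complex]
    refine le_antisymm h3 ?_
    rw [← h2]
    exact Cardinal.mk_le_of_injective
      (algebraMap (FractionRing (MvPolynomial ℝ R))
        (AlgebraicClosure (FractionRing (MvPolynomial ℝ R)))).injective
  have hK : ℵ₀ < #(AlgebraicClosure (FractionRing (MvPolynomial ℝ R))) := by
    rw [hc, Cardinal.mk_complex]
    exact Cardinal.aleph0_lt_continuum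
  have f1 : FaithfulSMul k (AlgebraicClosure (FractionRing (MvPolynomial ℝ R))) :=
    (faithfulSMul_iff_algebraMap_injective _ _).2 (algebraMap k _).injective
  have f2 : FaithfulSMul k ℂ :=
    (faithfulSMul_iff_algebraMap_injective _ _).2 (algebraMap k _).injective
  obtain ⟨σ, hσ⟩ := val_iso (R := k) (K := AlgebraicClosure (FractionRing (MvPolynomial ℝ R)))
    (L := ℂ) hk hK hc
  let ψ : R →ₐ[k] AlgebraicClosure (FractionRing (MvPolynomial ℝ R)) :=
    (IsScalarTower.toAlgHom k (FractionRing (MvPolynomial ℝ R)) _).comp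
      ((IsScalarTower.toAlgHom k (MvPolynomial ℝ R) _).comp (IsScalarTower.toAlgHom k R _))
  have hψ : Function.Injective ψ := by
    intro a b hab
    have h1 : algebraMap (FractionRing (MvPolynomial ℝ R))
        (AlgebraicClosure (FractionRing (MvPolynomial ℝ R)))
        (algebraMap (MvPolynomial ℝ R) (FractionRing (MvPolynomial ℝ R)) (C a)) =
        algebraMap (FractionRing (MvPolynomial ℝ R))
        (AlgebraicClosure (FractionRing (MvPolynomial ℝ R)))
        (algebraMap (MvPolynomial ℝ R) (FractionRing (MvPolynomial ℝ R)) (C b)) := hab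
    exact MvPolynomial.C_injective ℝ R (IsFractionRing.injective (MvPolynomial ℝ R)
      (FractionRing (MvPolynomial ℝ R))
      ((algebraMap (FractionRing (MvPolynomial ℝ R)) _).injective h1))
  refine ⟨{ toRingHom := (σ : _ →+* ℂ).comp ψ.toRingHom, commutes' := fun r => ?_ }, ?_⟩
  · show σ (ψ (algebraMap k R r)) = algebraMap k ℂ r
    rw [ψ.commutes, hσ]
  · exact σ.injective.comp hψ

section

variable {K : Type} [Field K] (u : Valuation K (WithZero (Multiplicative ℤ)))

/-- the order -/
private noncomputable def od (x : K) : ℤ := -WithZero.log (u x)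

private theorem od_mul {x y : K} (hx : x ≠ 0) (hy : y ≠ 0) : od u (x * y) = od u x + od u y := by
  unfold od
  rw [map_mul, WithZero.log_mul ((u.ne_zero_iff).2 hx) ((u.ne_zero_iff).2 hy)]
  ring

private theorem od_zpow (x : K) (m : ℤ) : od u (x ^ m) = m * od u x := by
  unfold od
  rw [map_zpow₀, WithZero.log_zpow, smul_eq_mul]
  ring

private theorem le_one_iff {x : K} (hx : x ≠ 0) : u x ≤ 1 ↔ 0 ≤ od u x := by
  unfold od
  rw [← WithZero.log_le_log ((u.ne_zero_iff).2 hx) one_ne_zero, WithZero.log_one]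
  constructor <;> intro h <;> omega

private theorem lt_one_iff {x : K} (hx : x ≠ 0) : u x < 1 ↔ 0 < od u x := by
  unfold od
  rw [← WithZero.log_lt_log ((u.ne_zero_iff).2 hx) one_ne_zero, WithZero.log_one]
  constructor <;> intro h <;> omega

private theorem od_min (x₀ : K) (hx₀ : od u x₀ ≠ 0) :
    ∃ (t : K), t ≠ 0 ∧ 0 < od u t ∧ ∀ e : K, e ≠ 0 → od u t ∣ od u e := by
  classical
  have hx0 : x₀ ≠ 0 := by
    rintro rfl
    apply hx₀
    unfold od
    rw [map_zero, WithZero.log_zero, neg_zero]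
  have hex : ∃ n : ℕ, 0 < n ∧ ∃ x : K, x ≠ 0 ∧ od u x = n := by
    rcases lt_or_gt_of_ne hx₀ with h | h
    · refine ⟨(-(od u x₀)).toNat, by omega, x₀ ^ (-1 : ℤ), zpow_ne_zero _ hx0, ?_⟩
      rw [od_zpow]
      omega
    · refine ⟨(od u x₀).toNat, by omega, x₀, hx0, ?_⟩
      omega
  obtain ⟨hg, t, ht, htg⟩ := Nat.find_spec hex
  refine ⟨t, ht, by rw [htg]; exact_mod_cast hg, fun e he => ?_⟩
  by_contra hnd
  have hmod : od u e % od u t ≠ 0 := fun h => hnd (Int.dvd_of_emod_eq_zero h)
  have hpos : 0 < od u t := by rw [htg]; exact_mod_cast hg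
  have h1 := Int.emod_nonneg (od u e) hpos.ne'
  have h2 := Int.emod_lt_of_pos (od u e) hpos
  have h3 : od u (e * t ^ (-(od u e / od u t))) = od u e % od u t := by
    rw [od_mul u he (zpow_ne_zero _ ht), od_zpow]
    have := Int.emod_add_mul_ediv (od u e) (od u t)
    linarith
  have h4 := Nat.find_min' hex (m := (od u e % od u t).toNat)
    ⟨by omega, e * t ^ (-(od u e / od u t)), mul_ne_zero he (zpow_ne_zero _ ht), by
      rw [h3]
      omega⟩
  omega

/-- the maximal ideal -/
private def mxi : Ideal u.integer where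
  carrier := {x | u (x : K) < 1}
  add_mem' := by
    intro x y hx hy
    exact lt_of_le_of_lt (u.map_add _ _) (max_lt hx hy)
  zero_mem' := by
    show u ((0 : u.integer) : K) < 1
    rw [ZeroMemClass.coe_zero, map_zero]
    exact zero_lt_one
  smul_mem' := by
    intro c x hx
    show u ((c * x : u.integer) : K) < 1
    have hc : u (c : K) ≤ 1 := c.2
    rw [Subring.coe_mul, map_mul]
    exact lt_of_le_of_lt (mul_le_of_le_one_left' hc) hx

private theorem mem_mxi (x : u.integer) : x ∈ mxi u ↔ u (x : K) < 1 := Iff.rfl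

private theorem mxi_prime : (mxi u).IsPrime := by
  refine ⟨?_, ?_⟩
  · rw [Ideal.ne_top_iff_one, mem_mxi]
    rw [OneMemClass.coe_one, map_one]
    exact lt_irrefl _
  · intro x y hxy
    rw [mem_mxi] at hxy ⊢
    rw [mem_mxi]
    by_contra hcon
    push Not at hcon
    have hx : u (x : K) = 1 := le_antisymm x.2 hcon.1
    have hy : u (y : K) = 1 := le_antisymm y.2 hcon.2
    rw [Subring.coe_mul, map_mul, hx, hy, mul_one] at hxy
    exact lt_irrefl _ hxy

/-- the place of a discrete valuation of a countable field -/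
private theorem place_of_val {k : Subfield ℂ} (hk : (k : Set ℂ).Countable) [Algebra k K]
    (hK : Countable K) (huk : ∀ c : k, u (algebraMap k K c) ≤ 1) (x₀ : K) (hx₀ : od u x₀ ≠ 0) :
    ∃ (pl : Place k K) (g : ℤ), 0 < g ∧ (∀ x : K, x ∈ pl.O ↔ u x ≤ 1) ∧
      (∀ x : pl.O, pl.ρ x = 0 ↔ u (x : K) < 1) ∧
      ∀ e : K, e ≠ 0 → ∃ m : ℤ, od u e = g * m ∧ ∃ ε : pl.O, pl.ρ ε ≠ 0 ∧ e = pl.t ^ m * ε := by
  obtain ⟨t, ht, htp, htd⟩ := od_min u x₀ hx₀
  have hkc : Cardinal.mk k ≤ Cardinal.aleph0 := Cardinal.mk_le_aleph0_iff.2 hk.to_subtype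
  have hpr := mxi_prime u
  let ι : k →+* u.integer := (algebraMap k K).codRestrict u.integer huk
  let : Algebra k (u.integer ⧸ mxi u) := ((Ideal.Quotient.mk (mxi u)).comp ι).toAlgebra
  have hdom : IsDomain (u.integer ⧸ mxi u) := Ideal.Quotient.isDomain _
  have hc1 : Cardinal.mk (u.integer ⧸ mxi u) ≤ Cardinal.aleph0 := by
    refine (Cardinal.mk_le_of_surjective Ideal.Quotient.mk_surjective).trans ?_
    exact Cardinal.mk_le_aleph0_iff.2 inferInstance
  obtain ⟨φ, hφ⟩ := val_embed (k := k) hkc (R := u.integer ⧸ mxi u) hc1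
  let ρ : u.integer →+* ℂ := (φ : (u.integer ⧸ mxi u) →+* ℂ).comp (Ideal.Quotient.mk (mxi u))
  have hρ0 : ∀ x : u.integer, ρ x = 0 ↔ u (x : K) < 1 := by
    intro x
    have h1 : ρ x = φ (Ideal.Quotient.mk (mxi u) x) := rfl
    rw [h1, map_eq_zero_iff φ hφ, Ideal.Quotient.eq_zero_iff_mem, mem_mxi]
  have hρk : ∀ c : k, ρ (ι c) = c := fun c => φ.commutes c
  have t_mem : t ∈ u.integer := (le_one_iff u ht).2 htp.le
  have hfac : ∀ e : K, e ≠ 0 → ∃ m : ℤ, od u e = od u t * m ∧
      ∃ ε : u.integer, ρ ε ≠ 0 ∧ e = t ^ m * ε := by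
    intro e he
    obtain ⟨m, hm⟩ := htd e he
    have hne : e * t ^ (-m) ≠ 0 := mul_ne_zero he (zpow_ne_zero _ ht)
    have h1 : od u (e * t ^ (-m)) = 0 := by
      rw [od_mul u he (zpow_ne_zero _ ht), od_zpow, hm]
      ring
    refine ⟨m, hm, ⟨e * t ^ (-m), (le_one_iff u hne).2 h1.ge⟩, ?_, ?_⟩
    · intro h2
      rw [hρ0, lt_one_iff u hne, h1] at h2
      exact lt_irrefl _ h2
    · change e = t ^ m * (e * t ^ (-m))
      rw [mul_left_comm, ← zpow_add₀ ht, add_neg_cancel, zpow_zero, mul_one]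
  refine ⟨{ O := u.integer
            t := t
            ρ := ρ
            memk := huk
            ρk := hρk
            t_ne := ht
            t_mem := t_mem
            ρt := ?_
            inv_mem := ?_
            fac := ?_ }, od u t, htp, fun x => Iff.rfl, hρ0, hfac⟩
  · rw [hρ0]
    exact (lt_one_iff u ht).2 htp
  · intro e he
    have h1 : u (e : K) = 1 := by
      have h2 : ¬ u (e : K) < 1 := fun h => he ((hρ0 e).2 h)
      exact le_antisymm e.2 (not_lt.1 h2)
    show u ((e : K)⁻¹) ≤ 1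
    rw [map_inv₀, h1, inv_one]
  · intro e he
    obtain ⟨m, -, ε, h1, h2⟩ := hfac e he
    exact ⟨m, ε, h1, h2⟩

end

private theorem val_eq {R : Type*} [CommRing R] (W : Valuation R (WithZero (Multiplicative ℤ)))
    {x y : R} (h : W (x - y) = 0) : W x = W y := by
  have h1 : ∀ x y : R, W (x - y) = 0 → W x ≤ W y := by
    intro x y h
    have h2 := W.map_add (x - y) y
    rw [sub_add_cancel, h] at h2
    exact h2.trans (max_le zero_le le_rfl)
  refine le_antisymm (h1 x y h) (h1 y x ?_)
  rw [W.map_sub_swap]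
  exact h

/-- a valuation of the polynomial ring with the relations of `p` as support gives a valuation of
the field generated by `p` -/
private theorem exists_val {k : Subfield ℂ} {σ : Type} (p : σ → ℂ)
    (W : Valuation (MvPolynomial σ k) (WithZero (Multiplicative ℤ)))
    (hW : ∀ f, W f = 0 ↔ aeval p f = 0) :
    ∃ u : Valuation (IntermediateField.adjoin k (Set.range p)) (WithZero (Multiplicative ℤ)),
      ∀ (x : IntermediateField.adjoin k (Set.range p)) (f h : MvPolynomial σ k),
        aeval p h ≠ 0 → (x : ℂ) = aeval p f / aeval p h → u x = W f / W h := by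
  have hrep : ∀ x : IntermediateField.adjoin k (Set.range p), ∃ f h : MvPolynomial σ k,
      aeval p h ≠ 0 ∧ (x : ℂ) = aeval p f / aeval p h := by
    intro x
    obtain ⟨r, s, hrs⟩ := (IntermediateField.mem_adjoin_range_iff k p (x : ℂ)).1 x.2
    by_cases hs : aeval p s = 0
    · refine ⟨0, 1, by rw [map_one]; exact one_ne_zero, ?_⟩
      rw [hrs, hs, div_zero, map_zero, zero_div]
    · exact ⟨r, s, hs, hrs⟩
  choose F H hH hF using hrep
  have hWne : ∀ h : MvPolynomial σ k, aeval p h ≠ 0 → W h ≠ 0 := fun h h1 h2 => h1 ((hW h).1 h2)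
  have hwd : ∀ f h f' h' : MvPolynomial σ k, aeval p h ≠ 0 → aeval p h' ≠ 0 →
      aeval p f / aeval p h = aeval p f' / aeval p h' → W f / W h = W f' / W h' := by
    intro f h f' h' h1 h2 h3
    rw [div_eq_div_iff h1 h2] at h3
    rw [div_eq_div_iff (hWne h h1) (hWne h' h2), ← map_mul, ← map_mul]
    refine val_eq W ?_
    rw [hW, map_sub, map_mul, map_mul, h3, sub_self]
  have key : ∀ (x : IntermediateField.adjoin k (Set.range p)) (f h : MvPolynomial σ k),
      aeval p h ≠ 0 → (x : ℂ) = aeval p f / aeval p h → W (F x) / W (H x) = W f / W h := by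
    intro x f h h1 h2
    exact hwd _ _ _ _ (hH x) h1 (by rw [← hF, h2])
  refine ⟨{ toFun := fun x => W (F x) / W (H x)
            map_zero' := ?_
            map_one' := ?_
            map_mul' := ?_
            map_add_le_max' := ?_ }, key⟩
  · rw [key 0 0 1 (by rw [map_one]; exact one_ne_zero) (by simp), map_zero, zero_div]
  · rw [key 1 1 1 (by rw [map_one]; exact one_ne_zero) (by simp), map_one, div_one]
  · intro x y
    rw [key (x * y) (F x * F y) (H x * H y)
      (by rw [map_mul]; exact mul_ne_zero (hH x) (hH y))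
      (by
        have h1 : ((x * y : IntermediateField.adjoin k (Set.range p)) : ℂ) = (x : ℂ) * (y : ℂ) := rfl
        rw [h1, hF x, hF y, map_mul, map_mul, div_mul_div_comm]), map_mul, map_mul,
      div_mul_div_comm]
  · intro x y
    have hxy : aeval p (H x * H y) ≠ 0 := by
      rw [map_mul]
      exact mul_ne_zero (hH x) (hH y)
    have e1 : W (F (x + y)) / W (H (x + y)) =
        W (F x * H y + F y * H x) / W (H x * H y) := by
      refine key _ _ _ hxy ?_
      have h1 : ((x + y : IntermediateField.adjoin k (Set.range p)) : ℂ) = (x : ℂ) + (y : ℂ) := rfl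
      have h2 := hH x
      have h3 := hH y
      rw [h1, hF x, hF y, map_mul, map_add, map_mul, map_mul]
      field_simp
    have e2 : W (F x) / W (H x) = W (F x * H y) / W (H x * H y) := by
      refine key _ _ _ hxy ?_
      have h2 := hH x
      have h3 := hH y
      rw [hF x, map_mul, map_mul]
      field_simp
    have e3 : W (F y) / W (H y) = W (F y * H x) / W (H x * H y) := by
      refine key _ _ _ hxy ?_
      have h2 := hH x
      have h3 := hH y
      rw [hF y, map_mul, map_mul]
      field_simp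
    show W (F (x + y)) / W (H (x + y)) ≤ max (W (F x) / W (H x)) (W (F y) / W (H y))
    rw [e1, e2, e3]
    have hpos : 0 < W (H x * H y) := zero_lt_iff.2 (hWne _ hxy)
    rcases le_max_iff.1 (W.map_add (F x * H y) (F y * H x)) with h | h
    · exact le_max_of_le_left (div_le_div_of_nonneg_right h hpos.le)
    · exact le_max_of_le_right (div_le_div_of_nonneg_right h hpos.le)

theorem exists_pl_of_val (k : Subfield ℂ) (hk : (k : Set ℂ).Countable) {n : ℕ}
    (P : Ideal (MvPolynomial (Fin n ⊕ Fin n) ℂ))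
    (w : Valuation (MvPolynomial (Fin n ⊕ Fin n) ℂ) (WithZero (Multiplicative ℤ)))
    (hw : ∀ f, w f = 0 ↔ f ∈ P)
    (hwx : ∀ f : MvPolynomial (Fin n) ℂ, rename Sum.inl f ∉ P → w (rename Sum.inl f) = 1)
    (v : Fin n → ℤ) (hv : v ≠ 0) (hwv : ∀ j, w (X (Sum.inr j)) = WithZero.exp (-(v j)))
    (a b : Fin n → ℂ) (hp : ∀ f : MvPolynomial (Fin n ⊕ Fin n) k,
      aeval (Sum.elim a b) f = 0 ↔ map (algebraMap k ℂ) f ∈ P) :
    ∃ (pl : Place k (IntermediateField.adjoin k (Set.range (Sum.elim a b))))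
      (A B : Fin n → IntermediateField.adjoin k (Set.range (Sum.elim a b)))
      (v' : Fin n → ℤ) (g : ℤ) (θ : Fin n → pl.O), 0 < g ∧ (∀ j, v j = g * v' j) ∧
      (∀ j, (A j : ℂ) = a j) ∧ (∀ j, (B j : ℂ) = b j) ∧ (∀ j, (θ j :
        IntermediateField.adjoin k (Set.range (Sum.elim a b))) = A j) ∧
      (∀ f : MvPolynomial (Fin n) k, aeval (fun j => pl.ρ (θ j)) f = 0 ↔ aeval a f = 0) ∧
      ∀ j, ∃ ε : pl.O, pl.ρ ε ≠ 0 ∧ B j = pl.t ^ v' j * ε := by
  classical
  set p : Fin n ⊕ Fin n → ℂ := Sum.elim a b with hpdef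
  have hpl : p ∘ Sum.inl = a := rfl
  let W : Valuation (MvPolynomial (Fin n ⊕ Fin n) k) (WithZero (Multiplicative ℤ)) :=
    w.comap (map (algebraMap k ℂ))
  have hWd : ∀ f, W f = w (map (algebraMap k ℂ) f) := fun f => rfl
  have hW : ∀ f, W f = 0 ↔ aeval p f = 0 := fun f => by rw [hWd, hw, hp]
  obtain ⟨u, hu⟩ := exists_val p W hW
  have hu1 : ∀ (x : IntermediateField.adjoin k (Set.range p)) (f : MvPolynomial (Fin n ⊕ Fin n) k),
      (x : ℂ) = aeval p f → u x = w (map (algebraMap k ℂ) f) := by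
    intro x f hx
    rw [hu x f 1 (by rw [map_one]; exact one_ne_zero) (by rw [hx, map_one, div_one]), map_one,
      div_one, hWd]
  have hwx' : ∀ f : MvPolynomial (Fin n) ℂ, w (rename Sum.inl f) ≤ 1 := by
    intro f
    by_cases h : rename Sum.inl f ∈ P
    · rw [(hw _).2 h]
      exact zero_le
    · exact (hwx f h).le
  have hre : ∀ f : MvPolynomial (Fin n) k, map (algebraMap k ℂ) (rename Sum.inl f) =
      (rename Sum.inl (map (algebraMap k ℂ) f) : MvPolynomial (Fin n ⊕ Fin n) ℂ) := fun f =>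
    map_rename _ _ _
  have hux : ∀ (x : IntermediateField.adjoin k (Set.range p)) (f : MvPolynomial (Fin n) k),
      (x : ℂ) = aeval a f → u x = w (rename Sum.inl (map (algebraMap k ℂ) f)) := by
    intro x f hx
    rw [hu1 x (rename Sum.inl f) (by rw [aeval_rename, hpl, hx]), hre]
  have huk : ∀ c : k, u (algebraMap k (IntermediateField.adjoin k (Set.range p)) c) ≤ 1 := by
    intro c
    rw [hux _ (C c) (by rw [aeval_C]; rfl)]
    exact hwx' _
  have hK : Countable (IntermediateField.adjoin k (Set.range p)) := by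
    have hkc : Cardinal.mk k ≤ Cardinal.aleph0 := Cardinal.mk_le_aleph0_iff.2 hk.to_subtype
    have h1 : Cardinal.mk (MvPolynomial (Fin n ⊕ Fin n) k) ≤ Cardinal.aleph0 :=
      MvPolynomial.cardinalMk_le_max.trans (max_le (max_le hkc Cardinal.mk_le_aleph0) le_rfl)
    have h2 : Countable (MvPolynomial (Fin n ⊕ Fin n) k) := Cardinal.mk_le_aleph0_iff.1 h1
    have h3 : (Set.range fun q : MvPolynomial (Fin n ⊕ Fin n) k × MvPolynomial (Fin n ⊕ Fin n) k =>
        aeval p q.1 / aeval p q.2).Countable := Set.countable_range _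
    have h4 : ((IntermediateField.adjoin k (Set.range p) : IntermediateField k ℂ) : Set ℂ).Countable := by
      refine h3.mono ?_
      intro x hx
      obtain ⟨r, s, hrs⟩ := (IntermediateField.mem_adjoin_range_iff k p x).1 hx
      exact ⟨(r, s), hrs.symm⟩
    exact h4.to_subtype
  have hA0 : ∀ j, a j ∈ IntermediateField.adjoin k (Set.range p) := fun j =>
    IntermediateField.subset_adjoin _ _ ⟨Sum.inl j, rfl⟩
  have hB0 : ∀ j, b j ∈ IntermediateField.adjoin k (Set.range p) := fun j =>
    IntermediateField.subset_adjoin _ _ ⟨Sum.inr j, rfl⟩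
  let A : Fin n → IntermediateField.adjoin k (Set.range p) := fun j => ⟨a j, hA0 j⟩
  let B : Fin n → IntermediateField.adjoin k (Set.range p) := fun j => ⟨b j, hB0 j⟩
  have huB : ∀ j, u (B j) = WithZero.exp (-(v j)) := by
    intro j
    rw [hu1 (B j) (X (Sum.inr j)) (by rw [aeval_X]; rfl), map_X]
    exact hwv j
  have hBne : ∀ j, B j ≠ 0 := by
    intro j h
    have h1 := huB j
    rw [h, map_zero] at h1
    exact WithZero.exp_ne_zero h1.symm
  have hod : ∀ j, od u (B j) = v j := by
    intro j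
    unfold od
    rw [huB, WithZero.log_exp, neg_neg]
  obtain ⟨j₁, hj₁⟩ : ∃ j, v j ≠ 0 := by
    by_contra hcon
    push Not at hcon
    exact hv (funext hcon)
  obtain ⟨pl, g, hg, hO, hρ, hfac⟩ := place_of_val u hk hK huk (B j₁) (by rw [hod]; exact hj₁)
  have hAO : ∀ j, A j ∈ pl.O := by
    intro j
    rw [hO, hux (A j) (X j) (by rw [aeval_X])]
    exact hwx' _
  choose v' hv' hε using fun j => hfac (B j) (hBne j)
  refine ⟨pl, A, B, v', g, fun j => ⟨A j, hAO j⟩, hg, fun j => by rw [← hod, hv'], fun _ => rfl,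
    fun _ => rfl, fun _ => rfl, ?_, hε⟩
  intro f
  let ι : k →+* pl.O := (algebraMap k (IntermediateField.adjoin k (Set.range p))).codRestrict pl.O
    pl.memk
  have hι : pl.ρ.comp ι = algebraMap k ℂ := RingHom.ext fun c => pl.ρk c
  have h1 : aeval (fun j => pl.ρ ⟨A j, hAO j⟩) f =
      pl.ρ (eval₂ ι (fun j => (⟨A j, hAO j⟩ : pl.O)) f) := by
    rw [aeval_def, eval₂_comp_left, hι]
    rfl
  have h2 : (((eval₂ ι (fun j => (⟨A j, hAO j⟩ : pl.O)) f : pl.O) :
      IntermediateField.adjoin k (Set.range p)) : ℂ) = aeval a f := by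
    have h3 : (((eval₂ ι (fun j => (⟨A j, hAO j⟩ : pl.O)) f : pl.O) :
        IntermediateField.adjoin k (Set.range p)) : ℂ) =
        ((algebraMap (IntermediateField.adjoin k (Set.range p)) ℂ).comp pl.O.subtype)
          (eval₂ ι (fun j => (⟨A j, hAO j⟩ : pl.O)) f) := rfl
    rw [h3, eval₂_comp_left, aeval_def]
    rfl
  rw [h1, hρ, hux _ f h2, ← hre]
  have h5 : aeval a f = 0 ↔ map (algebraMap k ℂ) (rename Sum.inl f) ∈ P := by
    rw [← hp, aeval_rename, hpl]
  rw [h5, hre]
  constructor
  · intro h6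
    by_contra h7
    rw [hwx _ h7] at h6
    exact lt_irrefl _ h6
  · intro h6
    rw [(hw _).2 h6]
    exact zero_lt_one

end Pool.Agent.EXK2
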